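import Pool.Agent.Q152.CC.Stm

set_option autoImplicit false

namespace Pool.Agent.Q198.CC

open Finset MeasureTheory Pool.Agent.Y692.QS Pool.Agent.Q152.CC
open Pool.Agent.Q255.CU (fc m3 S_SYT)

noncomputable section

instance : IsProbabilityMeasure m3 := by
  unfold m3; infer_instance

theorem prod_val (χ : ℕ → ℂ) (h1 : χ 1 = 1)
    (hm : ∀ m n : ℕ, 1 ≤ m → 1 ≤ n → χ (m * n) = χ m * χ n)
    {ι : Type*} (s : Finset ι) (p : ι → ℕ) (hp : ∀ i ∈ s, 1 ≤ p i) :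
    χ (∏ i ∈ s, p i) = ∏ i ∈ s, χ (p i) := by
  classical
  induction s using Finset.induction_on with
  | empty => simpa using h1
  | insert a s ha ih =>
    have h2 : 1 ≤ ∏ i ∈ s, p i := Nat.one_le_iff_ne_zero.2
      (prod_ne_zero_iff.2 fun i hi => Nat.one_le_iff_ne_zero.1 (hp i (mem_insert_of_mem hi)))
    rw [prod_insert ha, prod_insert ha, hm _ _ (hp a (mem_insert_self a s)) h2,
      ih (fun i hi => hp i (mem_insert_of_mem hi))]

/-- the tuples -/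
def tup (k : ℕ) (I : Finset ℕ) : Finset (Fin k → ℕ) := Fintype.piFinset (fun _ : Fin k => I)

/-- pairs of tuples -/
def prs (k : ℕ) (I : Finset ℕ) : Finset ((Fin k → ℕ) × (Fin k → ℕ)) := tup k I ×ˢ tup k I

theorem expand (χ : ℕ → ℂ) (h1 : χ 1 = 1)
    (hm : ∀ m n : ℕ, 1 ≤ m → 1 ≤ n → χ (m * n) = χ m * χ n)
    (I : Finset ℕ) (hI : ∀ n ∈ I, 1 ≤ n) (c : ℕ → ℂ) (k : ℕ) :
    ((‖∑ n ∈ I, c n * χ n‖ ^ (2 * k) : ℝ) : ℂ) =
      ∑ s ∈ prs k I, ((∏ i, c (s.1 i)) * star (∏ i, c (s.2 i))) *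
        (χ (∏ i, s.1 i) * star (χ (∏ i, s.2 i))) := by
  have hS : (∑ n ∈ I, c n * χ n) ^ k = ∑ p ∈ tup k I, (∏ i, c (p i)) * χ (∏ i, p i) := by
    unfold tup
    rw [Finset.sum_pow']
    refine sum_congr rfl fun p hp => ?_
    rw [prod_mul_distrib, prod_val χ h1 hm]
    intro i _
    exact hI _ (Fintype.mem_piFinset.1 hp i)
  have h2 : ((‖∑ n ∈ I, c n * χ n‖ ^ (2 * k) : ℝ) : ℂ) =
      (∑ n ∈ I, c n * χ n) ^ k * star ((∑ n ∈ I, c n * χ n) ^ k) := by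
    rw [star_pow, ← mul_pow, Complex.star_def, Complex.mul_conj, Complex.normSq_eq_norm_sq, pow_mul]
    push_cast
    rfl
  rw [h2, hS, star_sum, sum_mul_sum]
  unfold prs
  rw [sum_product]
  refine sum_congr rfl fun p _ => sum_congr rfl fun q _ => ?_
  rw [star_mul]
  ring

theorem xi_one (α : Ei) : xi α 1 = 1 := by
  unfold xi kn
  simp [isCoprime_one_right]

theorem f3_one (ω : ℕ → ZMod 3) : Pool.Agent.Q255.CU.f3 ω 1 = 1 := by
  unfold Pool.Agent.Q255.CU.f3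
  simp

theorem al_one (a b : ℤ) : (3 : Ei) ∣ al a b - 1 := by
  refine ⟨⟨a, b⟩, ?_⟩
  have h3 : (3 : Ei) = ⟨3, 0⟩ := rfl
  have e1 : (1 : Ei).re = 1 := rfl
  have e2 : (1 : Ei).im = 0 := rfl
  rw [h3]
  unfold al
  ext <;> simp [e1, e2]

theorem wt_norm {k : ℕ} (c : ℕ → ℂ) (p : Fin k → ℕ) : ‖∏ i, c (p i)‖ = ∏ i, ‖c (p i)‖ := norm_prod _ _

theorem integral_eq (syt : S_SYT) (k : ℕ) (I : Finset ℕ) (hI : ∀ n ∈ I, 1 ≤ n) (c : ℕ → ℂ) :
    ∫ ω, ‖∑ n ∈ I, ((‖c n‖ : ℝ) : ℂ) * rc ω n‖ ^ (2 * k) ∂rm =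
      ∑ s ∈ prs k I, ((∏ i, ‖c (s.1 i)‖) * ∏ i, ‖c (s.2 i)‖) *
        (if fc (∏ i, s.1 i) = fc (∏ i, s.2 i) then 1 else 0) := by
  obtain ⟨-, -, hmul, hnorm, horth⟩ := syt
  apply Complex.ofReal_injective
  rw [← integral_complex_ofReal]
  have e1 : ∀ ω : ℕ → ZMod 3, ((‖∑ n ∈ I, ((‖c n‖ : ℝ) : ℂ) * rc ω n‖ ^ (2 * k) : ℝ) : ℂ) =
      ∑ s ∈ prs k I, ((∏ i, ((‖c (s.1 i)‖ : ℝ) : ℂ)) * star (∏ i, ((‖c (s.2 i)‖ : ℝ) : ℂ))) *
        (rc ω (∏ i, s.1 i) * star (rc ω (∏ i, s.2 i))) := fun ω =>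
    expand (rc ω) (f3_one ω) (hmul ω) I hI (fun n => ((‖c n‖ : ℝ) : ℂ)) k
  have e2 : (fun ω : ℕ → ZMod 3 =>
      ((‖∑ n ∈ I, ((‖c n‖ : ℝ) : ℂ) * rc ω n‖ ^ (2 * k) : ℝ) : ℂ)) = fun ω =>
      ∑ s ∈ prs k I, ((∏ i, ((‖c (s.1 i)‖ : ℝ) : ℂ)) * star (∏ i, ((‖c (s.2 i)‖ : ℝ) : ℂ))) *
        (rc ω (∏ i, s.1 i) * star (rc ω (∏ i, s.2 i))) := funext e1
  rw [e2, integral_finsetSum]
  · push_cast
    refine sum_congr rfl fun s hs => ?_
    rw [integral_const_mul]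
    have hs' : (∀ i, s.1 i ∈ I) ∧ ∀ i, s.2 i ∈ I := by
      unfold prs tup at hs
      rw [mem_product, Fintype.mem_piFinset, Fintype.mem_piFinset] at hs
      exact hs
    have p1 : 1 ≤ ∏ i, s.1 i := Nat.one_le_iff_ne_zero.2
      (prod_ne_zero_iff.2 fun i _ => Nat.one_le_iff_ne_zero.1 (hI _ (hs'.1 i)))
    have p2 : 1 ≤ ∏ i, s.2 i := Nat.one_le_iff_ne_zero.2
      (prod_ne_zero_iff.2 fun i _ => Nat.one_le_iff_ne_zero.1 (hI _ (hs'.2 i)))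
    have h3 := horth _ _ p1 p2
    rw [h3]
    congr 2
    · rw [star_prod]
      refine prod_congr rfl fun i _ => ?_
      rw [Complex.star_def, Complex.conj_ofReal]
    · split_ifs <;> simp
  · intro s _
    refine Integrable.const_mul ?_ _
    refine Integrable.of_bound ?_ 1 (Filter.Eventually.of_forall fun ω => ?_)
    · exact ((hnorm (fun _ => 0) _).2.2.mul
        (Complex.continuous_conj.measurable.comp (hnorm (fun _ => 0) _).2.2)).aestronglyMeasurable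
    · rw [norm_mul, norm_star, (hnorm ω _).1, (hnorm ω _).1, mul_one]

theorem mom (box : S_BOX) (xmu : S_XMU) (syt : S_SYT) : S_MOM := by
  classical
  intro k R I c hI hc a b L
  obtain ⟨xm1, -, xm3⟩ := xmu
  have hI1 : ∀ n ∈ I, 1 ≤ n := fun n hn => (hI n hn).1
  rw [integral_eq syt k I hI1 c]
  set B : Finset (ℕ × ℕ) := range L ×ˢ range L with hB
  have hsum : (∑ x ∈ range L, ∑ y ∈ range L,
      ‖∑ n ∈ I, c n * xi (al (a + x) (b + y)) n‖ ^ (2 * k)) =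
      ∑ t ∈ B, ‖∑ n ∈ I, c n * xi (al (a + t.1) (b + t.2)) n‖ ^ (2 * k) := by
    rw [hB, sum_product]
  rw [hsum]
  have hcast : ((∑ t ∈ B, ‖∑ n ∈ I, c n * xi (al (a + t.1) (b + t.2)) n‖ ^ (2 * k) : ℝ) : ℂ) =
      ∑ s ∈ prs k I, ((∏ i, c (s.1 i)) * star (∏ i, c (s.2 i))) *
        ∑ t ∈ B, (xi (al (a + t.1) (b + t.2)) (∏ i, s.1 i) *
          star (xi (al (a + t.1) (b + t.2)) (∏ i, s.2 i))) := by
    rw [Complex.ofReal_sum]
    have : ∀ t ∈ B, ((‖∑ n ∈ I, c n * xi (al (a + t.1) (b + t.2)) n‖ ^ (2 * k) : ℝ) : ℂ) =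
        ∑ s ∈ prs k I, ((∏ i, c (s.1 i)) * star (∏ i, c (s.2 i))) *
          (xi (al (a + t.1) (b + t.2)) (∏ i, s.1 i) *
            star (xi (al (a + t.1) (b + t.2)) (∏ i, s.2 i))) := fun t _ =>
      expand (xi (al (a + t.1) (b + t.2))) (xi_one _) (xm1 _) I hI1 c k
    rw [sum_congr rfl this, sum_comm]
    refine sum_congr rfl fun s _ => ?_
    rw [mul_sum]
  have hle : (∑ t ∈ B, ‖∑ n ∈ I, c n * xi (al (a + t.1) (b + t.2)) n‖ ^ (2 * k)) ≤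
      ‖((∑ t ∈ B, ‖∑ n ∈ I, c n * xi (al (a + t.1) (b + t.2)) n‖ ^ (2 * k) : ℝ) : ℂ)‖ := by
    rw [Complex.norm_real]
    exact le_abs_self _
  refine hle.trans ?_
  rw [hcast]
  have hterm : ∀ s ∈ prs k I, ‖((∏ i, c (s.1 i)) * star (∏ i, c (s.2 i))) *
        ∑ t ∈ B, (xi (al (a + t.1) (b + t.2)) (∏ i, s.1 i) *
          star (xi (al (a + t.1) (b + t.2)) (∏ i, s.2 i)))‖ ≤
      (L : ℝ) ^ 2 * (((∏ i, ‖c (s.1 i)‖) * ∏ i, ‖c (s.2 i)‖) *
        (if fc (∏ i, s.1 i) = fc (∏ i, s.2 i) then 1 else 0)) + 6 * L * (R : ℝ) ^ (2 * k) := by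
    intro s hs
    have hs' : (∀ i, s.1 i ∈ I) ∧ ∀ i, s.2 i ∈ I := by
      unfold prs tup at hs
      rw [mem_product, Fintype.mem_piFinset, Fintype.mem_piFinset] at hs
      exact hs
    have p1 : 1 ≤ ∏ i, s.1 i := Nat.one_le_iff_ne_zero.2
      (prod_ne_zero_iff.2 fun i _ => Nat.one_le_iff_ne_zero.1 (hI1 _ (hs'.1 i)))
    have p2 : 1 ≤ ∏ i, s.2 i := Nat.one_le_iff_ne_zero.2
      (prod_ne_zero_iff.2 fun i _ => Nat.one_le_iff_ne_zero.1 (hI1 _ (hs'.2 i)))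
    have w1 : ∏ i, ‖c (s.1 i)‖ ≤ 1 := prod_le_one (fun i _ => norm_nonneg _) fun i _ => hc _ (hs'.1 i)
    have w2 : ∏ i, ‖c (s.2 i)‖ ≤ 1 := prod_le_one (fun i _ => norm_nonneg _) fun i _ => hc _ (hs'.2 i)
    have w1' : 0 ≤ ∏ i, ‖c (s.1 i)‖ := prod_nonneg fun i _ => norm_nonneg _
    have w2' : 0 ≤ ∏ i, ‖c (s.2 i)‖ := prod_nonneg fun i _ => norm_nonneg _
    rw [norm_mul, norm_mul, norm_star, wt_norm, wt_norm]
    have hR : (0 : ℝ) ≤ 6 * L * (R : ℝ) ^ (2 * k) := by positivity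
    split_ifs with hf
    · have hV : ‖∑ t ∈ B, (xi (al (a + t.1) (b + t.2)) (∏ i, s.1 i) *
          star (xi (al (a + t.1) (b + t.2)) (∏ i, s.2 i)))‖ ≤ (L : ℝ) ^ 2 := by
        refine (norm_sum_le _ _).trans ?_
        have : ∀ t ∈ B, ‖xi (al (a + t.1) (b + t.2)) (∏ i, s.1 i) *
          star (xi (al (a + t.1) (b + t.2)) (∏ i, s.2 i))‖ ≤ 1 := by
          intro t _
          rw [norm_mul, norm_star]
          exact mul_le_one₀ (xm3 _ _ p1 (al_one _ _)) (norm_nonneg _) (xm3 _ _ p2 (al_one _ _))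
        refine (sum_le_sum this).trans ?_
        rw [sum_const, hB, card_product, card_range, nsmul_eq_mul, mul_one]
        push_cast
        rw [sq]
      have := mul_le_mul_of_nonneg_left hV (mul_nonneg w1' w2')
      nlinarith [this]
    · have hV := box _ _ p1 p2 hf a b L
      rw [← sum_product'] at hV
      have hA : ((∏ i, s.1 i : ℕ) : ℝ) ≤ (R : ℝ) ^ k := by
        push_cast
        refine (prod_le_prod (fun i _ => Nat.cast_nonneg _) (fun i _ =>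
          (Nat.cast_le (α := ℝ)).2 (hI _ (hs'.1 i)).2)).trans ?_
        rw [prod_const, card_univ, Fintype.card_fin]
      have hA2 : ((∏ i, s.2 i : ℕ) : ℝ) ≤ (R : ℝ) ^ k := by
        push_cast
        refine (prod_le_prod (fun i _ => Nat.cast_nonneg _) (fun i _ =>
          (Nat.cast_le (α := ℝ)).2 (hI _ (hs'.2 i)).2)).trans ?_
        rw [prod_const, card_univ, Fintype.card_fin]
      have hAB : ((∏ i, s.1 i : ℕ) : ℝ) * ((∏ i, s.2 i : ℕ) : ℝ) ≤ (R : ℝ) ^ (2 * k) := by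
        rw [two_mul, pow_add]
        exact mul_le_mul hA hA2 (Nat.cast_nonneg _) (by positivity)
      have hV2 : ‖∑ t ∈ B, (xi (al (a + t.1) (b + t.2)) (∏ i, s.1 i) *
          star (xi (al (a + t.1) (b + t.2)) (∏ i, s.2 i)))‖ ≤ 6 * L * (R : ℝ) ^ (2 * k) := by
        refine hV.trans ?_
        have hL : (0 : ℝ) ≤ 6 * L := by positivity
        have := mul_le_mul_of_nonneg_left hAB hL
        linarith
      rw [mul_zero, mul_zero, zero_add]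
      calc _ ≤ (1 : ℝ) * (6 * L * (R : ℝ) ^ (2 * k)) :=
            mul_le_mul (mul_le_one₀ w1 w2' w2) hV2 (norm_nonneg _) zero_le_one
        _ = _ := one_mul _
  refine (norm_sum_le_of_le _ hterm).trans ?_
  rw [sum_add_distrib, ← mul_sum, sum_const, nsmul_eq_mul]
  have hcard : ((prs k I).card : ℝ) = (I.card : ℝ) ^ (2 * k) := by
    unfold prs tup
    rw [card_product, Fintype.card_piFinset, prod_const, card_univ, Fintype.card_fin]
    push_cast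
    rw [two_mul, pow_add]
  rw [hcard]
  apply le_of_eq
  ring

end

end Pool.Agent.Q198.CC

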