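import Mathlib

/-! # A lower bound for the mean of a nonnegative polynomial of small degree

If `f` is a polynomial of degree at most `D` that is nonnegative at `0, 1, …, n` and `0 < v < 1`,
then the mean of `f` under the binomial law is at least `f 0 * v ^ D / (1 + v² y) ^ n`, where
`y = p / (1 - p)`. The proof applies the maximum modulus principle on the unit disc.
-/

set_option autoImplicit false

namespace Q198.CC

open Finset Complex

/-- the value at `N` of the polynomial with coefficients `c` in the binomial basis -/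
def fv (D : ℕ) (c : ℕ → ℝ) (N : ℕ) : ℝ := ∑ k ∈ range (D + 1), c k * (N.choose k : ℝ)

lemma binom_gen (n k : ℕ) (hk : k ≤ n) (Y : ℂ) :
    ∑ N ∈ range (n + 1), (n.choose N : ℂ) * (N.choose k : ℂ) * Y ^ N =
      (n.choose k : ℂ) * (Y ^ k * (1 + Y) ^ (n - k)) := by
  have e : n + 1 = k + (n - k + 1) := by omega
  rw [e, sum_range_add]
  have h0 : ∑ N ∈ range k, (n.choose N : ℂ) * (N.choose k : ℂ) * Y ^ N = 0 := by
    refine sum_eq_zero fun N hN => ?_
    rw [Nat.choose_eq_zero_of_lt (mem_range.1 hN)]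
    simp
  rw [h0, zero_add, add_comm (1:ℂ) Y, add_pow, mul_sum, mul_sum]
  refine sum_congr rfl fun i hi => ?_
  rw [mem_range] at hi
  have h2 : n.choose (k + i) * (k + i).choose k = n.choose k * (n - k).choose i := by
    have := Nat.choose_mul (n := n) (k := k + i) (s := k) (Nat.le_add_right k i)
    rw [this, Nat.add_sub_cancel_left]
  have h3 : ((n.choose (k + i) : ℕ) : ℂ) * ((k + i).choose k : ℂ) =
      (n.choose k : ℂ) * ((n - k).choose i : ℂ) := by
    exact_mod_cast h2
  rw [h3, one_pow, mul_one, pow_add]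
  ring

lemma gen_eq {n D : ℕ} (hD : D ≤ n) (c : ℕ → ℝ) (Y : ℂ) :
    ∑ N ∈ range (n + 1), (n.choose N : ℂ) * (fv D c N : ℂ) * Y ^ N =
      (∑ k ∈ range (D + 1), (c k : ℂ) * (n.choose k : ℂ) * (Y ^ k * (1 + Y) ^ (D - k))) *
        (1 + Y) ^ (n - D) := by
  have h1 : ∀ N ∈ range (n + 1), (n.choose N : ℂ) * (fv D c N : ℂ) * Y ^ N =
      ∑ k ∈ range (D + 1), (c k : ℂ) * ((n.choose N : ℂ) * (N.choose k : ℂ) * Y ^ N) := by
    intro N _
    unfold fv
    push_cast
    rw [mul_sum, sum_mul]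
    refine sum_congr rfl fun k _ => by ring
  rw [sum_congr rfl h1, sum_comm, sum_mul]
  refine sum_congr rfl fun k hk => ?_
  rw [mem_range] at hk
  rw [← mul_sum, binom_gen n k (by omega)]
  have e : n - k = (D - k) + (n - D) := by omega
  rw [e, pow_add]
  ring

lemma norm_add_eq {a : ℝ} {w : ℂ} (hw : ‖w‖ = 1) : ‖1 + (a:ℂ) * w‖ = ‖w + a‖ := by
  have h1 : ‖1 + (a:ℂ) * w‖ = ‖w‖ * ‖(starRingEnd ℂ) w + a‖ := by
    rw [← norm_mul, mul_add, mul_conj, normSq_eq_norm_sq, hw]
    congr 1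
    push_cast
    ring
  rw [h1, hw, one_mul, ← norm_conj (w + a)]
  congr 1
  rw [map_add, conj_ofReal]

theorem lp_ineq {n D : ℕ} (hD : D ≤ n) {c : ℕ → ℝ} {y v : ℝ} (hy0 : 0 < y) (hy1 : y ≤ 1)
    (hv0 : 0 < v) (hv1 : v < 1) (hf : ∀ N ≤ n, 0 ≤ fv D c N) :
    c 0 * v ^ D * (1 + y) ^ n ≤
      (1 + y * v ^ 2) ^ n * ∑ N ∈ range (n + 1), (n.choose N : ℝ) * fv D c N * y ^ N := by
  set a : ℝ := v * (1 + y) / (1 + y * v ^ 2) with ha
  have hden : 0 < 1 + y * v ^ 2 := by positivity
  have ha0 : 0 < a := by positivity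
  have ha1 : a < 1 := by
    rw [ha, div_lt_one hden]
    nlinarith [mul_pos (sub_pos.2 hv1) (show 0 < 1 - y * v by nlinarith)]
  have hav : a / v * (1 + y * v ^ 2) = 1 + y := by
    rw [ha]
    field_simp
  set A : ℂ → ℂ := fun w => (a / v : ℝ) * (w + v) * (1 + (y * v : ℝ) * w) / (1 + (a:ℂ) * w) with hA
  set B : ℂ → ℂ := fun w => (a / v : ℝ) * (1 + (v:ℂ) * w) * (1 + (y * v : ℝ) * w) / (1 + (a:ℂ) * w) with hB
  set F : ℂ → ℂ := fun w => (∑ k ∈ range (D + 1), (c k : ℂ) * (n.choose k : ℂ) *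
    (((y:ℂ) * w) ^ k * A w ^ (D - k))) * B w ^ (n - D) with hF
  have hne : ∀ w : ℂ, ‖w‖ ≤ 1 → 1 + (a:ℂ) * w ≠ 0 := by
    intro w hw h
    have h1 : (a:ℂ) * w = -1 := by linear_combination h
    have h2 : ‖(a:ℂ) * w‖ = 1 := by rw [h1]; simp
    rw [norm_mul, norm_real, Real.norm_of_nonneg ha0.le] at h2
    nlinarith
  have hAd : DifferentiableOn ℂ A (Metric.closedBall 0 1) := by
    intro w hw
    rw [mem_closedBall_zero_iff] at hw
    have := hne w hw
    refine DifferentiableAt.differentiableWithinAt ?_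
    simp only [hA]
    fun_prop (disch := exact this)
  have hBd : DifferentiableOn ℂ B (Metric.closedBall 0 1) := by
    intro w hw
    rw [mem_closedBall_zero_iff] at hw
    have := hne w hw
    refine DifferentiableAt.differentiableWithinAt ?_
    simp only [hB]
    fun_prop (disch := exact this)
  have hFd : DifferentiableOn ℂ F (Metric.closedBall 0 1) := by
    simp only [hF]
    apply DifferentiableOn.mul
    · apply DifferentiableOn.fun_sum
      intro k _
      apply DifferentiableOn.const_mul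
      apply DifferentiableOn.mul
      · fun_prop
      · exact hAd.pow _
    · exact hBd.pow _
  have hbd : ∀ w : ℂ, ‖w‖ = 1 → ‖F w‖ ≤ ∑ N ∈ range (n + 1), (n.choose N : ℝ) * fv D c N * y ^ N := by
    intro w hw
    have h1 := hne w hw.le
    have h2 : ‖1 + (a:ℂ) * w‖ = ‖w + a‖ := norm_add_eq hw
    have h3 : ‖1 + (v:ℂ) * w‖ = ‖w + v‖ := norm_add_eq hw
    have h4 : w + (a:ℂ) ≠ 0 := by
      rw [← norm_pos_iff, ← h2, norm_pos_iff]
      exact h1
    set z : ℂ := w * (1 + (a:ℂ) * w) / (w + a) with hz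
    set b : ℂ := (w + a) / (1 + (a:ℂ) * w) with hb
    have hz1 : ‖z‖ = 1 := by
      rw [hz, norm_div, norm_mul, hw, h2, one_mul, div_self (norm_pos_iff.2 h4).ne']
    have hb1 : ‖b‖ = 1 := by
      rw [hb, norm_div, h2, div_self (norm_pos_iff.2 h4).ne']
    have hwz : w = z * b := by
      rw [hz, hb, div_mul_div_cancel₀ h4, mul_div_cancel_right₀ _ h1]
    have hAz : A w = (1 + (y:ℂ) * z) * b := by
      simp only [hA, hz, hb]
      have hv' : (v:ℂ) ≠ 0 := by exact_mod_cast hv0.ne'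
      have hav' : (a:ℂ) * (1 + (y:ℂ) * (v:ℂ) ^ 2) = (1 + (y:ℂ)) * v := by
        have : a * (1 + y * v ^ 2) = (1 + y) * v := by
          rw [ha]
          field_simp
        exact_mod_cast this
      push_cast
      field_simp
      linear_combination w * hav'
    have hBA : ‖B w‖ = ‖1 + (y:ℂ) * z‖ := by
      have h5 : ‖B w‖ = ‖A w‖ := by
        simp only [hA, hB, norm_div, norm_mul, h3]
      rw [h5, hAz, norm_mul, hb1, mul_one]
    have hsum : ∑ k ∈ range (D + 1), (c k : ℂ) * (n.choose k : ℂ) * (((y:ℂ) * w) ^ k * A w ^ (D - k)) =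
        b ^ D * ∑ k ∈ range (D + 1), (c k : ℂ) * (n.choose k : ℂ) *
          (((y:ℂ) * z) ^ k * (1 + (y:ℂ) * z) ^ (D - k)) := by
      rw [mul_sum]
      refine sum_congr rfl fun k hk => ?_
      rw [mem_range] at hk
      have e : b ^ D = b ^ k * b ^ (D - k) := by
        rw [← pow_add]
        congr 1
        omega
      have hyw : (y:ℂ) * w = (y * z) * b := by
        rw [hwz]
        ring
      rw [hAz, e, hyw, mul_pow _ b, mul_pow _ b]
      ring
    have h6 : ‖F w‖ = ‖∑ N ∈ range (n + 1), (n.choose N : ℂ) * (fv D c N : ℂ) * ((y:ℂ) * z) ^ N‖ := by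
      rw [gen_eq hD]
      simp only [hF]
      rw [hsum, norm_mul, norm_mul, norm_pow, hb1, one_pow, one_mul, norm_pow, hBA, norm_mul, norm_pow]
    rw [h6]
    refine (norm_sum_le _ _).trans (sum_le_sum fun N hN => ?_)
    rw [mem_range] at hN
    rw [norm_mul, norm_mul, Complex.norm_natCast, norm_real, Real.norm_of_nonneg (hf N (by omega)), norm_pow,
      norm_mul, norm_real, Real.norm_of_nonneg hy0.le, hz1, mul_one]
  have hmax := Complex.norm_le_of_forall_mem_frontier_norm_le (U := Metric.ball (0:ℂ) 1) (f := F)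
    (C := ∑ N ∈ range (n + 1), (n.choose N : ℝ) * fv D c N * y ^ N) (z := 0) Metric.isBounded_ball
    (DifferentiableOn.diffContOnCl (by rw [closure_ball _ one_ne_zero]; exact hFd)) (by
      intro w hw
      rw [frontier_ball _ one_ne_zero, mem_sphere_zero_iff_norm] at hw
      exact hbd w hw) (by
      apply subset_closure
      simp)
  have hF0 : F 0 = ((c 0 * a ^ D * (a / v) ^ (n - D) : ℝ) : ℂ) := by
    simp only [hF]
    rw [sum_eq_single 0]
    · simp only [hA, hB]
      have : (v:ℂ) ≠ 0 := by exact_mod_cast hv0.ne'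
      push_cast
      simp [this]
    · intro k _ hk
      simp [hk]
    · intro h
      simp at h
  rw [hF0, norm_real] at hmax
  have h7 := (Real.le_norm_self _).trans hmax
  have h8 : (1 + y) ^ n * v ^ D = (1 + y * v ^ 2) ^ n * (a ^ D * (a / v) ^ (n - D)) := by
    have e1 : a ^ D = (a / v) ^ D * v ^ D := by
      rw [← mul_pow, div_mul_cancel₀ _ hv0.ne']
    have e2 : (a / v) ^ n = (a / v) ^ D * (a / v) ^ (n - D) := by
      rw [← pow_add]
      congr 1
      omega
    rw [← hav, mul_pow, e1, e2]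
    ring
  calc c 0 * v ^ D * (1 + y) ^ n = (1 + y * v ^ 2) ^ n * (c 0 * a ^ D * (a / v) ^ (n - D)) := by
        linear_combination c 0 * h8
    _ ≤ _ := mul_le_mul_of_nonneg_left h7 (by positivity)

end Q198.CC
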