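import Pool.Agent.Q198.CC.C1
import Pool.Agent.Q198.CI.Law

/-! # The extremal law of the number of elements of a block -/

set_option autoImplicit false

namespace Q198.CC

open Finset

/-- the vector of binomial coefficients -/
def ev (K : ℕ) (x : ℕ) : Fin (K + 1) → ℝ := fun k => (x.choose k : ℝ)

lemma ev_zero (K : ℕ) (k : Fin (K + 1)) : ev K 0 k = if k = 0 then 1 else 0 := by
  unfold ev
  split_ifs with h
  · rw [h]
    simp
  · have : (k : ℕ) ≠ 0 := fun h' => h (Fin.ext h')
    rw [Nat.choose_eq_zero_of_lt (by omega)]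
    simp

lemma ev_inj {K : ℕ} (hK : 1 ≤ K) : Function.Injective (ev K) := by
  intro x y h
  have h1 := congrFun h ⟨1, by omega⟩
  unfold ev at h1
  simp only [Nat.choose_one_right] at h1
  exact_mod_cast h1

theorem exists_counts {n K : ℕ} (hK : 1 ≤ K) (hKn : K ≤ n) {p v : ℝ} (hp0 : 0 < p) (hp1 : p ≤ 1 / 2)
    (hv0 : 0 < v) (hv1 : v < 1) :
    ∃ q : ℕ → ℝ, (∀ x, 0 ≤ q x) ∧
      (∀ j ≤ K, ∑ x ∈ range (n + 1), q x * (x.choose j : ℝ) = (n.choose j : ℝ) * p ^ j) ∧
      v ^ K / (1 + p / (1 - p) * v ^ 2) ^ n ≤ q 0 := by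
  set y : ℝ := p / (1 - p) with hy
  have hp2 : 0 < 1 - p := by linarith
  have hy0 : 0 < y := by positivity
  have hy1 : y ≤ 1 := by
    rw [hy, div_le_one hp2]
    linarith
  set ρ : ℝ := v ^ K / (1 + y * v ^ 2) ^ n with hρ
  have hden : 0 < (1 + y * v ^ 2) ^ n := by positivity
  have hρ0 : 0 < ρ := by positivity
  have hρ1 : ρ < 1 := by
    rw [hρ, div_lt_one hden]
    have h1 : v ^ K < 1 := pow_lt_one₀ hv0.le hv1 (by omega)
    have h2 : 1 ≤ (1 + y * v ^ 2) ^ n := one_le_pow₀ (by
      have : 0 ≤ y * v ^ 2 := by positivity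
      linarith)
    linarith
  set M : Fin (K + 1) → ℝ := fun k => (n.choose k : ℝ) * p ^ (k:ℕ) with hM
  set S : Finset (Fin (K + 1) → ℝ) := (range (n + 1)).image (ev K) with hS
  set X : Fin (K + 1) → ℝ := (1 - ρ)⁻¹ • (M - ρ • ev K 0) with hX
  have hy1' : 1 + y = (1 - p)⁻¹ := by
    rw [hy]
    field_simp
    ring
  have hmem : X ∈ convexHull ℝ (S : Set (Fin (K + 1) → ℝ)) := by
    by_contra hcon
    obtain ⟨f, u, h1, h2⟩ := geometric_hahn_banach_closed_point (convex_convexHull ℝ _)
      (Set.Finite.isClosed_convexHull ℝ S.finite_toSet) hcon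
    set d : Fin (K + 1) → ℝ := fun k => f (Pi.single k 1) with hd
    have hfd : ∀ x : Fin (K + 1) → ℝ, f x = ∑ k, d k * x k := by
      intro x
      have : x = ∑ k, x k • (Pi.single k (1:ℝ) : Fin (K + 1) → ℝ) := by
        ext i
        simp [Finset.sum_apply, Pi.single_apply]
      conv_lhs => rw [this]
      rw [map_sum]
      refine sum_congr rfl fun k _ => ?_
      rw [map_smul, smul_eq_mul, mul_comm]
    set c : ℕ → ℝ := fun k => if h : k < K + 1 then (if k = 0 then u - d ⟨k, h⟩ else -d ⟨k, h⟩) else 0 with hc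
    have hfv : ∀ N, fv K c N = u - f (ev K N) := by
      intro N
      unfold fv
      rw [hfd, ← Fin.sum_univ_eq_sum_range (fun k => c k * (N.choose k : ℝ)) (K + 1)]
      rw [Fin.sum_univ_succ, Fin.sum_univ_succ]
      simp only [hc, ev, Fin.val_zero, Fin.val_succ]
      have h3 : ∀ i : Fin K, ((i:ℕ) + 1 < K + 1) := fun i => by
        have := i.2
        omega
      simp only [Nat.choose_zero_right, Nat.cast_one, mul_one, Nat.zero_lt_succ, dif_pos, if_true,
        h3, Nat.add_eq_zero_iff, one_ne_zero, and_false, if_false, neg_mul, sum_neg_distrib]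
      have h4 : (⟨0, Nat.zero_lt_succ K⟩ : Fin (K + 1)) = 0 := rfl
      rw [h4]
      have h5 : ∑ x : Fin K, d ⟨(x:ℕ) + 1, h3 x⟩ * (N.choose ((x:ℕ) + 1) : ℝ) =
          ∑ i : Fin K, d i.succ * (N.choose ((i:ℕ) + 1) : ℝ) := rfl
      rw [h5]
      ring
    have hf : ∀ N ≤ n, 0 ≤ fv K c N := by
      intro N hN
      rw [hfv]
      have := h1 (ev K N) (subset_convexHull ℝ _ (by
        rw [hS, coe_image]
        exact ⟨N, by simp; omega, rfl⟩))
      linarith
    have h3 := lp_ineq hKn hy0 hy1 hv0 hv1 hf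
    have h4 : ∑ N ∈ range (n + 1), (n.choose N : ℝ) * fv K c N * y ^ N = (1 + y) ^ n * (u - f M) := by
      have h5 : ∀ N ∈ range (n + 1), (n.choose N : ℝ) * fv K c N * y ^ N =
          u * ((n.choose N : ℝ) * y ^ N) - ∑ k, d k * ((n.choose N : ℝ) * (N.choose k : ℝ) * y ^ N) := by
        intro N _
        rw [hfv, hfd, mul_sub, sub_mul, mul_sum, sum_mul]
        congr 1
        · ring
        · refine sum_congr rfl fun k _ => ?_
          unfold ev
          ring
      rw [sum_congr rfl h5, sum_sub_distrib, ← mul_sum, sum_comm]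
      have h6 : ∑ N ∈ range (n + 1), (n.choose N : ℝ) * y ^ N = (1 + y) ^ n := by
        rw [add_comm (1:ℝ) y, add_pow]
        refine sum_congr rfl fun N _ => ?_
        rw [one_pow]
        ring
      have h7 : ∀ k : Fin (K + 1), ∑ N ∈ range (n + 1), d k * ((n.choose N : ℝ) * (N.choose k : ℝ) * y ^ N) =
          (1 + y) ^ n * (d k * M k) := by
        intro k
        rw [← mul_sum]
        have h8 := binom_gen n k (by have := k.2; omega) (y : ℂ)
        have h9 : ∑ N ∈ range (n + 1), (n.choose N : ℝ) * (N.choose k : ℝ) * y ^ N =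
            (n.choose k : ℝ) * (y ^ (k:ℕ) * (1 + y) ^ (n - k)) := by
          exact_mod_cast h8
        rw [h9, hM]
        simp only
        have h10 : y ^ (k:ℕ) * (1 + y) ^ (n - k) = (1 + y) ^ n * p ^ (k:ℕ) := by
          have e : (1 + y) ^ n = (1 + y) ^ (n - (k:ℕ)) * (1 + y) ^ (k:ℕ) := by
            rw [← pow_add]
            congr 1
            have := k.2
            omega
          have e2 : y = (1 + y) * p := by
            rw [hy1', hy]
            field_simp
          have e3 : y ^ (k:ℕ) = (1 + y) ^ (k:ℕ) * p ^ (k:ℕ) := by rw [← mul_pow, ← e2]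
          rw [e, e3]
          ring
        rw [h10]
        ring
      rw [h6, sum_congr rfl fun k _ => h7 k, ← mul_sum, hfd M]
      ring
    rw [h4] at h3
    have hc0 : c 0 = u - d 0 := by
      simp only [hc, Nat.zero_lt_succ, dif_pos, if_true]
      rfl
    have hf0 : f (ev K 0) = d 0 := by
      rw [hfd, sum_eq_single 0]
      · rw [ev_zero, if_pos rfl, mul_one]
      · intro k _ hk
        rw [ev_zero, if_neg hk, mul_zero]
      · simp
    have h5 : ρ * (u - d 0) ≤ u - f M := by
      have hpos : 0 < (1 + y) ^ n := by positivity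
      rw [hc0] at h3
      have h6 : (u - d 0) * v ^ K ≤ (1 + y * v ^ 2) ^ n * (u - f M) := by
        have h7 : (1 + y) ^ n * ((u - d 0) * v ^ K) ≤ (1 + y) ^ n * ((1 + y * v ^ 2) ^ n * (u - f M)) := by
          linarith
        exact le_of_mul_le_mul_left h7 hpos
      rw [hρ, div_mul_eq_mul_div, div_le_iff₀ hden]
      linarith
    have h6 : u < (1 - ρ)⁻¹ * (f M - ρ * d 0) := by
      have := h2
      rw [hX, map_smul, map_sub, map_smul, hf0, smul_eq_mul, smul_eq_mul] at this
      exact this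
    have h7 : 0 < 1 - ρ := by linarith
    rw [inv_mul_eq_div, lt_div_iff₀ h7] at h6
    linarith
  rw [Finset.mem_convexHull'] at hmem
  obtain ⟨w, hw0, hw1, hw2⟩ := hmem
  have h7 : 0 < 1 - ρ := by linarith
  refine ⟨fun x => if x ≤ n then (1 - ρ) * w (ev K x) + (if x = 0 then ρ else 0) else 0, ?_, ?_, ?_⟩
  · intro x
    simp only
    split_ifs with h1 h2
    · have := hw0 (ev K x) (mem_image.2 ⟨x, by simp; omega, rfl⟩)
      positivity
    · have := hw0 (ev K x) (mem_image.2 ⟨x, by simp; omega, rfl⟩)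
      positivity
    · exact le_rfl
  · intro j hj
    have h1 : ∀ x ∈ range (n + 1), (if x ≤ n then (1 - ρ) * w (ev K x) + (if x = 0 then ρ else 0) else 0) *
        (x.choose j : ℝ) = (1 - ρ) * (w (ev K x) * ev K x ⟨j, by omega⟩) +
          (if x = 0 then ρ * ev K x ⟨j, by omega⟩ else 0) := by
      intro x hx
      rw [mem_range] at hx
      rw [if_pos (by omega : x ≤ n)]
      unfold ev
      split_ifs <;> ring
    rw [sum_congr rfl h1, sum_add_distrib, ← mul_sum, sum_ite_eq' (range (n + 1)) 0, if_pos (by simp)]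
    have h2 : ∑ x ∈ range (n + 1), w (ev K x) * ev K x ⟨j, by omega⟩ = X ⟨j, by omega⟩ := by
      have h3 := congrFun hw2 ⟨j, by omega⟩
      rw [hS, sum_image (fun a _ b _ h => ev_inj hK h), Finset.sum_apply] at h3
      rw [← h3]
      rfl
    rw [h2, hX]
    simp only [Pi.smul_apply, Pi.sub_apply, smul_eq_mul, hM]
    field_simp
    ring
  · simp only [Nat.zero_le, if_true]
    have := hw0 (ev K 0) (mem_image.2 ⟨0, by simp, rfl⟩)
    have h8 : 0 ≤ (1 - ρ) * w (ev K 0) := by positivity
    linarith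

end Q198.CC
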