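import Pool.Agent.Q198.CC.C2

/-! # Laws with a large probability of the empty set, and the sharp upper bound -/

set_option autoImplicit false

namespace Q198.CC

open Finset MeasureTheory Q198.CI

theorem exists_law {I : Finset ℕ} (hI : 1 ≤ I.card) {K : ℕ} (hK : 1 ≤ K) {p v : ℝ} (hp0 : 0 < p)
    (hp1 : p ≤ 1 / 2) (hv0 : 0 < v) (hv1 : v < 1) {p' : ℕ → ℝ} (h0 : ∀ n ∈ I, 0 ≤ p' n)
    (h1 : ∀ n ∈ I, p' n ≤ p) :
    ∃ w : Finset ℕ → ℝ, IsLaw I K p' w ∧
      v ^ K / (1 + p / (1 - p) * v ^ 2) ^ I.card ≤ w ∅ := by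
  have hp2 : 0 < 1 - p := by linarith
  have key : ∀ K' : ℕ, 1 ≤ K' → K' ≤ I.card → K' ≤ K → (K' = K ∨ K' = I.card) →
      ∃ w : Finset ℕ → ℝ, IsLaw I K p' w ∧ v ^ K / (1 + p / (1 - p) * v ^ 2) ^ I.card ≤ w ∅ := by
    intro K' h2 h3 h4 h5
    obtain ⟨q, hq0, hqm, hq⟩ := exists_counts h2 h3 hp0 hp1 hv0 hv1
    have h6 := law_of_q rfl hq0 hqm
    obtain ⟨w, hw, hw0⟩ := thin h6 hp0 h0 h1
    refine ⟨w, ⟨hw.1, fun T hT hTK => ?_⟩, ?_⟩
    · apply hw.2 T hT
      rcases h5 with h5 | h5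
      · omega
      · rw [h5]
        exact card_le_card hT
    · simp only [card_empty, Nat.choose_zero_right, Nat.cast_one, div_one] at hw0
      refine le_trans ?_ (hq.trans hw0)
      apply div_le_div_of_nonneg_right _ (by positivity)
      exact pow_le_pow_of_le_one hv0.le hv1.le h4
  rcases le_total K I.card with h | h
  · exact key K hK h le_rfl (Or.inl rfl)
  · exact key I.card hI le_rfl h (Or.inr rfl)

lemma law_affine {I : Finset ℕ} {K : ℕ} {p : ℕ → ℝ} {v : Finset ℕ → ℝ} (hv : IsLaw I K p v)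
    {U : Finset ℕ} (hU : U ⊆ I) (hUK : U.card ≤ K) (α β : ℕ → ℝ) :
    ∑ S ∈ I.powerset, v S * ∏ n ∈ U, (α n + β n * (if n ∈ S then 1 else 0)) =
      ∏ n ∈ U, (α n + β n * p n) := by
  classical
  have h1 : ∀ S ∈ I.powerset, v S * ∏ n ∈ U, (α n + β n * (if n ∈ S then 1 else 0)) =
      ∑ V ∈ U.powerset, (∏ n ∈ U \ V, α n) * (∏ n ∈ V, β n) * (if V ⊆ S then v S else 0) := by
    intro S _
    have h2 : ∏ n ∈ U, (α n + β n * (if n ∈ S then 1 else 0)) =
        ∏ n ∈ U, ((β n * (if n ∈ S then (1:ℝ) else 0)) + α n) := prod_congr rfl fun n _ => add_comm _ _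
    rw [h2, prod_add, mul_sum]
    refine sum_congr rfl fun V _ => ?_
    rw [prod_mul_distrib]
    by_cases h3 : V ⊆ S
    · rw [if_pos h3, prod_congr rfl (fun n hn => if_pos (h3 hn)), prod_const_one]
      ring
    · rw [if_neg h3]
      obtain ⟨n, hn, hnS⟩ := not_subset.1 h3
      have h9 : ∏ x ∈ V, (if x ∈ S then (1:ℝ) else 0) = 0 := prod_eq_zero hn (if_neg hnS)
      rw [h9]
      ring
  rw [sum_congr rfl h1, sum_comm]
  have h4 : ∀ V ∈ U.powerset, ∑ S ∈ I.powerset, (∏ n ∈ U \ V, α n) * (∏ n ∈ V, β n) *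
      (if V ⊆ S then v S else 0) = (∏ n ∈ V, (β n * p n)) * ∏ n ∈ U \ V, α n := by
    intro V hV
    rw [mem_powerset] at hV
    rw [← mul_sum, ← sum_filter]
    have e : I.powerset.filter (fun S => V ⊆ S) = Icc V I := by
      ext S
      simp only [mem_Icc, mem_filter, mem_powerset]
      exact and_comm
    rw [e, hv.2 V (hV.trans hU) ((card_le_card hV).trans hUK), prod_mul_distrib]
    ring
  rw [sum_congr rfl h4, ← prod_add]
  exact prod_congr rfl fun n _ => add_comm _ _

/-- the sets with at most `m` elements -/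
def smallSets (I : Finset ℕ) (m : ℕ) : Finset (Finset ℕ) := I.powerset.filter (fun T => T.card ≤ m)

theorem law_upper {I : Finset ℕ} {m : ℕ} {p : ℕ → ℝ} {v : Finset ℕ → ℝ} (hv : IsLaw I (2 * m) p v)
    (hp0 : ∀ n ∈ I, 0 ≤ p n) (hp1 : ∀ n ∈ I, p n < 1) :
    v ∅ * ∑ T ∈ smallSets I m, ∏ n ∈ T, (p n / (1 - p n)) ≤ 1 := by
  classical
  set y : ℕ → ℝ := fun n => p n / (1 - p n) with hy
  have hy0 : ∀ n ∈ I, 0 ≤ y n := fun n hn => div_nonneg (hp0 n hn) (by linarith [hp1 n hn])
  set h : ℕ → Finset ℕ → ℝ := fun n S => y n + (-(1 + y n)) * (if n ∈ S then 1 else 0) with hh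
  set f : Finset ℕ → ℝ := fun S => ∑ T ∈ smallSets I m, ∏ n ∈ T, h n S with hf
  have hf0 : f ∅ = ∑ T ∈ smallSets I m, ∏ n ∈ T, y n := by
    simp only [hf, hh]
    refine sum_congr rfl fun T _ => prod_congr rfl fun n _ => ?_
    simp
  have hmom : ∑ S ∈ I.powerset, v S * f S ^ 2 = ∑ T ∈ smallSets I m, ∏ n ∈ T, y n := by
    have h1 : ∀ S ∈ I.powerset, v S * f S ^ 2 = ∑ T ∈ smallSets I m, ∑ T' ∈ smallSets I m,
        v S * ((∏ n ∈ T, h n S) * ∏ n ∈ T', h n S) := by
      intro S _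
      rw [sq]
      simp only [hf]
      rw [sum_mul_sum, mul_sum]
      refine sum_congr rfl fun T _ => ?_
      rw [mul_sum]
    rw [sum_congr rfl h1, sum_comm]
    refine sum_congr rfl fun T hT => ?_
    rw [sum_comm]
    have h2 : ∀ T' ∈ smallSets I m, ∑ S ∈ I.powerset, v S * ((∏ n ∈ T, h n S) * ∏ n ∈ T', h n S) =
        if T = T' then ∏ n ∈ T, y n else 0 := by
      intro T' hT'
      unfold smallSets at hT hT'
      rw [mem_filter, mem_powerset] at hT hT'
      have hUI : T ∪ T' ⊆ I := union_subset hT.1 hT'.1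
      have hUc : (T ∪ T').card ≤ 2 * m := (card_union_le _ _).trans (by omega)
      set α : ℕ → ℝ := fun n => if n ∈ T ∩ T' then y n ^ 2 else y n with hα
      set β : ℕ → ℝ := fun n => if n ∈ T ∩ T' then 1 - y n ^ 2 else -(1 + y n) with hβ
      have h3 : ∀ S : Finset ℕ, (∏ n ∈ T, h n S) * ∏ n ∈ T', h n S =
          ∏ n ∈ T ∪ T', (α n + β n * (if n ∈ S then 1 else 0)) := by
        intro S
        rw [← prod_union_inter]
        have h4 : ∏ n ∈ T ∩ T', h n S = ∏ n ∈ T ∪ T', (if n ∈ T ∩ T' then h n S else 1) := by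
          rw [← prod_filter]
          congr 1
          ext n
          simp only [mem_filter, mem_inter, mem_union]
          tauto
        rw [h4, ← prod_mul_distrib]
        refine prod_congr rfl fun n _ => ?_
        simp only [hh, hα, hβ]
        split_ifs <;> ring
      simp_rw [h3]
      rw [law_affine hv hUI hUc]
      have h5 : ∀ n ∈ T ∪ T', α n + β n * p n = if n ∈ T ∩ T' then y n else 0 := by
        intro n hn
        have hn1 : 1 - p n ≠ 0 := by linarith [hp1 n (hUI hn)]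
        simp only [hα, hβ, hy]
        split_ifs
        · field_simp
          ring
        · field_simp
          ring
      rw [prod_congr rfl h5]
      split_ifs with h6
      · subst h6
        rw [union_self, inter_self]
        exact prod_congr rfl fun n hn => if_pos hn
      · have h7 : ∃ n ∈ T ∪ T', n ∉ T ∩ T' := by
          by_contra hcon
          push Not at hcon
          apply h6
          ext n
          constructor
          · intro hn
            exact (mem_inter.1 (hcon n (mem_union_left _ hn))).2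
          · intro hn
            exact (mem_inter.1 (hcon n (mem_union_right _ hn))).1
        obtain ⟨n, hn, hn'⟩ := h7
        exact prod_eq_zero hn (if_neg hn')
    rw [sum_congr rfl h2, sum_ite_eq, if_pos hT]
  have hpos : 1 ≤ f ∅ := by
    rw [hf0]
    have h1 : (∅ : Finset ℕ) ∈ smallSets I m := by
      unfold smallSets
      simp
    refine le_trans ?_ (single_le_sum (f := fun T => ∏ n ∈ T, y n) (fun T hT => ?_) h1)
    · simp
    · unfold smallSets at hT
      rw [mem_filter, mem_powerset] at hT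
      exact prod_nonneg fun n hn => hy0 n (hT.1 hn)
  have h8 : v ∅ * f ∅ ^ 2 ≤ f ∅ := by
    have h9 : v ∅ * f ∅ ^ 2 ≤ ∑ S ∈ I.powerset, v S * f S ^ 2 :=
      single_le_sum (f := fun S => v S * f S ^ 2)
        (fun S hS => mul_nonneg (hv.1 S (mem_powerset.1 hS)) (sq_nonneg _)) (empty_mem_powerset I)
    rw [hmom] at h9
    exact h9.trans hf0.ge
  have h9 : f ∅ * (v ∅ * f ∅) ≤ f ∅ * 1 := by linarith
  rw [← hf0]
  exact le_of_mul_le_mul_left h9 (by linarith)

theorem meas_upper {Ω : Type*} [MeasurableSpace Ω] (P : Measure Ω) [IsProbabilityMeasure P]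
    {E : ℕ → Set Ω} (hE : ∀ n, MeasurableSet (E n)) {I : Finset ℕ} {m : ℕ}
    {p : ℕ → ℝ} (hp : ∀ n ∈ I, 0 ≤ p n) (hp1 : ∀ n ∈ I, p n < 1)
    (hT : ∀ T ⊆ I, T.card ≤ 2 * m → P (⋂ n ∈ T, E n) = ENNReal.ofReal (∏ n ∈ T, p n)) {s : ℝ}
    (hs : 0 < s) (hsum : s ≤ ∑ T ∈ smallSets I m, ∏ n ∈ T, (p n / (1 - p n))) :
    P (⋂ n ∈ I, (E n)ᶜ) ≤ ENNReal.ofReal (1 / s) := by
  classical
  set D : Finset ℕ → Set Ω := fun S => ⋂ n ∈ I, {ω | ω ∈ E n ↔ n ∈ S} with hD
  have hDm : ∀ S, MeasurableSet (D S) := by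
    intro S
    refine Finset.measurableSet_biInter _ fun n _ => ?_
    by_cases h : n ∈ S
    · have : {ω | ω ∈ E n ↔ n ∈ S} = E n := by
        ext ω
        simp [h]
      rw [this]
      exact hE n
    · have : {ω | ω ∈ E n ↔ n ∈ S} = (E n)ᶜ := by
        ext ω
        simp [h]
      rw [this]
      exact (hE n).compl
  have hmemD : ∀ S ω, ω ∈ D S ↔ ∀ n ∈ I, (ω ∈ E n ↔ n ∈ S) := by
    intro S ω
    simp only [hD, Set.mem_iInter, Set.mem_ofPred_eq]
  have hlaw : IsLaw I (2 * m) p (fun S => (P (D S)).toReal) := by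
    constructor
    · intro S _
      exact ENNReal.toReal_nonneg
    · intro T hTI hTc
      have h1 : (⋂ n ∈ T, E n) = ⋃ S ∈ Icc T I, D S := by
        ext ω
        simp only [Set.mem_iInter, Set.mem_iUnion, hmemD]
        constructor
        · intro h
          refine ⟨I.filter (fun n => ω ∈ E n), ?_, ?_⟩
          · rw [mem_Icc]
            refine ⟨fun n hn => mem_filter.2 ⟨hTI hn, h n hn⟩, filter_subset _ _⟩
          · intro n hn
            rw [mem_filter]
            exact ⟨fun h2 => ⟨hn, h2⟩, fun h2 => h2.2⟩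
        · rintro ⟨S, hS, h⟩ n hn
          rw [mem_Icc] at hS
          exact (h n (hTI hn)).2 (hS.1 hn)
      have h2 : P (⋂ n ∈ T, E n) = ∑ S ∈ Icc T I, P (D S) := by
        rw [h1, measure_biUnion_finset]
        · intro S hS S' hS' hne
          rw [Function.onFun, Set.disjoint_left]
          intro ω h3 h4
          rw [hmemD] at h3 h4
          apply hne
          ext n
          have hSI := (mem_Icc.1 (mem_coe.1 hS)).2
          have hSI' := (mem_Icc.1 (mem_coe.1 hS')).2
          constructor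
          · intro h5
            exact (h4 n (hSI h5)).1 ((h3 n (hSI h5)).2 h5)
          · intro h5
            exact (h3 n (hSI' h5)).1 ((h4 n (hSI' h5)).2 h5)
        · intro S _
          exact hDm S
      rw [← ENNReal.toReal_sum (fun S _ => measure_ne_top P _), ← h2, hT T hTI hTc,
        ENNReal.toReal_ofReal (prod_nonneg fun n hn => hp n (hTI hn))]
  have h3 := law_upper hlaw hp hp1
  have h4 : (⋂ n ∈ I, (E n)ᶜ) = D ∅ := by
    ext ω
    simp only [Set.mem_iInter, Set.mem_compl_iff, hmemD, notMem_empty, iff_false]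
  rw [h4, ← ENNReal.ofReal_toReal (measure_ne_top P (D ∅))]
  apply ENNReal.ofReal_le_ofReal
  rw [le_div_iff₀ hs]
  exact (mul_le_mul_of_nonneg_left hsum ENNReal.toReal_nonneg).trans h3

end Q198.CC
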