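import Pool.Agent.Q198.CC.C3
import Pool.Agent.Q198.CI.T2

/-! # The upper bound with the exact constant -/

set_option autoImplicit false

namespace Q198.CC

open Finset MeasureTheory Filter Topology Q198.CI

/-- the constant -/
noncomputable def Lam (c : ℝ) : ℝ := min (c / 2) 1 * Real.exp (1 / min (c / 2) 1 - 1)

lemma exists_theta {c lam : ℝ} (hc : 0 < c) (hl : Lam c < lam) :
    ∃ θ : ℝ, 0 < θ ∧ θ < c / 2 ∧ 1 < θ * (1 + Real.log (lam / θ)) := by
  set τ : ℝ := min (c / 2) 1 with hτ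
  have hτ0 : 0 < τ := lt_min (by linarith) one_pos
  have hl0 : 0 < lam := lt_trans (by unfold Lam; positivity) hl
  have h1 : 1 < τ * (1 + Real.log (lam / τ)) := by
    have h2 : Real.exp (1 / τ - 1) < lam / τ := by
      rw [lt_div_iff₀ hτ0, mul_comm]
      exact hl
    have h3 := (Real.lt_log_iff_exp_lt (by positivity)).2 h2
    have h4 : τ * (1 / τ) < τ * (1 + Real.log (lam / τ)) := mul_lt_mul_of_pos_left (by linarith) hτ0
    rwa [mul_one_div_cancel hτ0.ne'] at h4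
  have hcont : ContinuousAt (fun θ : ℝ => θ * (1 + Real.log (lam / θ))) τ := by
    apply ContinuousAt.mul continuousAt_id
    apply ContinuousAt.add continuousAt_const
    apply ContinuousAt.log
    · exact continuousAt_const.div continuousAt_id hτ0.ne'
    · positivity
  have h2 : ∀ᶠ θ in 𝓝 τ, 1 < θ * (1 + Real.log (lam / θ)) := hcont.eventually (eventually_gt_nhds h1)
  have h3 : ∀ᶠ θ in 𝓝[<] τ, 1 < θ * (1 + Real.log (lam / θ)) ∧ 0 < θ ∧ θ < τ := by
    filter_upwards [nhdsWithin_le_nhds h2, nhdsWithin_le_nhds (eventually_gt_nhds hτ0), self_mem_nhdsWithin]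
      with θ ha hb hc
    exact ⟨ha, hb, hc⟩
  obtain ⟨θ, h4, h5, h6⟩ := h3.exists
  exact ⟨θ, h5, lt_of_lt_of_le h6 (min_le_left _ _), h4⟩

lemma exists_lam {θ lam : ℝ} (hθ : 0 < θ) (hl : 0 < lam) (h : 1 < θ * (1 + Real.log (lam / θ))) :
    ∃ l η : ℝ, 0 < l ∧ l < lam ∧ 0 < η ∧ 1 + 2 * η ≤ θ * (1 + Real.log (l / θ)) := by
  have hcont : ContinuousAt (fun l : ℝ => θ * (1 + Real.log (l / θ))) lam := by
    apply ContinuousAt.mul continuousAt_const
    apply ContinuousAt.add continuousAt_const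
    apply ContinuousAt.log
    · exact continuousAt_id.div continuousAt_const hθ.ne'
    · positivity
  have h2 : ∀ᶠ l in 𝓝 lam, 1 < θ * (1 + Real.log (l / θ)) := hcont.eventually (eventually_gt_nhds h)
  have h3 : ∀ᶠ l in 𝓝[<] lam, 1 < θ * (1 + Real.log (l / θ)) ∧ 0 < l ∧ l < lam := by
    filter_upwards [nhdsWithin_le_nhds h2, nhdsWithin_le_nhds (eventually_gt_nhds hl), self_mem_nhdsWithin]
      with θ ha hb hc
    exact ⟨ha, hb, hc⟩
  obtain ⟨l, h4, h5, h6⟩ := h3.exists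
  exact ⟨l, (θ * (1 + Real.log (l / θ)) - 1) / 2, h5, h6, by linarith, by linarith⟩

lemma factorial_le {m : ℕ} (hm : 1 ≤ m) : (m.factorial : ℝ) ≤ Real.exp 1 * m * ((m:ℝ) / Real.exp 1) ^ m := by
  induction m, hm using Nat.le_induction with
  | base =>
    have := Real.exp_pos 1
    norm_num
  | succ m hm ih =>
    have he := Real.exp_pos 1
    have hm0 : (0:ℝ) < m := by exact_mod_cast hm
    have h1 : Real.exp 1 ≤ (1 + 1 / (m:ℝ)) ^ (m + 1) := by
      rw [← Real.log_le_log_iff he (by positivity), Real.log_exp, Real.log_pow]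
      have h2 : 1 - (1 + 1 / (m:ℝ))⁻¹ ≤ Real.log (1 + 1 / (m:ℝ)) := Real.one_sub_inv_le_log_of_pos (by positivity)
      have h3 : 1 - (1 + 1 / (m:ℝ))⁻¹ = 1 / ((m:ℝ) + 1) := by
        field_simp
        ring
      rw [h3] at h2
      push_cast
      have h4 : ((m:ℝ) + 1) * (1 / ((m:ℝ) + 1)) ≤ ((m:ℝ) + 1) * Real.log (1 + 1 / (m:ℝ)) :=
        mul_le_mul_of_nonneg_left h2 (by positivity)
      rwa [mul_one_div_cancel (by positivity)] at h4
    have h2 : (m:ℝ) * ((m:ℝ) / Real.exp 1) ^ m ≤ (((m:ℝ) + 1) / Real.exp 1) ^ (m + 1) := by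
      have h3 : (((m:ℝ) + 1) / Real.exp 1) ^ (m + 1) =
          (1 + 1 / (m:ℝ)) ^ (m + 1) * ((m:ℝ) / Real.exp 1) ^ (m + 1) := by
        rw [← mul_pow]
        congr 1
        field_simp
      rw [h3]
      calc (m:ℝ) * ((m:ℝ) / Real.exp 1) ^ m = Real.exp 1 * ((m:ℝ) / Real.exp 1) ^ (m + 1) := by
            rw [pow_succ]
            field_simp
        _ ≤ _ := mul_le_mul_of_nonneg_right h1 (by positivity)
    rw [Nat.factorial_succ]
    push_cast
    calc ((m:ℝ) + 1) * (m.factorial : ℝ) ≤ ((m:ℝ) + 1) * (Real.exp 1 * m * ((m:ℝ) / Real.exp 1) ^ m) := by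
          gcongr
      _ = Real.exp 1 * ((m:ℝ) + 1) * (m * ((m:ℝ) / Real.exp 1) ^ m) := by ring
      _ ≤ _ := by gcongr

lemma choose_ge {L m : ℕ} (hm : 1 ≤ m) (hL : m ≤ L) {q : ℝ} (hq : 0 ≤ q) :
    ((L - m) * q * Real.exp 1 / m) ^ m / (Real.exp 1 * m) ≤ (L.choose m : ℝ) * q ^ m := by
  have he := Real.exp_pos 1
  have hm0 : (0:ℝ) < m := by exact_mod_cast hm
  have h1 : ((L:ℝ) - m) ^ m ≤ (m.factorial : ℝ) * (L.choose m : ℝ) := by
    have h2 : (L + 1 - m) ^ m ≤ L.descFactorial m := Nat.pow_sub_le_descFactorial L m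
    rw [Nat.descFactorial_eq_factorial_mul_choose] at h2
    have h3 : (((L + 1 - m : ℕ) : ℝ)) ^ m ≤ (m.factorial : ℝ) * (L.choose m : ℝ) := by exact_mod_cast h2
    refine le_trans ?_ h3
    apply pow_le_pow_left₀
    · have : (m:ℝ) ≤ L := by exact_mod_cast hL
      linarith
    · rw [Nat.cast_sub (by omega)]
      push_cast
      linarith
  have h2 := factorial_le hm
  rw [div_le_iff₀ (by positivity), div_pow, mul_pow, mul_pow, div_le_iff₀ (by positivity)]
  have h3 : ((L:ℝ) - m) ^ m ≤ Real.exp 1 * m * ((m:ℝ) / Real.exp 1) ^ m * (L.choose m : ℝ) :=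
    h1.trans (mul_le_mul_of_nonneg_right h2 (Nat.cast_nonneg _))
  calc ((L:ℝ) - m) ^ m * q ^ m * Real.exp 1 ^ m ≤
      (Real.exp 1 * m * ((m:ℝ) / Real.exp 1) ^ m * (L.choose m : ℝ)) * q ^ m * Real.exp 1 ^ m := by gcongr
    _ = _ := by
        rw [div_pow]
        field_simp

lemma sum_small {I : Finset ℕ} {m : ℕ} {y : ℕ → ℝ} {q : ℝ} (hq : 0 ≤ q) (hy : ∀ n ∈ I, q ≤ y n) :
    (I.card.choose m : ℝ) * q ^ m ≤ ∑ T ∈ smallSets I m, ∏ n ∈ T, y n := by
  have h1 : powersetCard m I ⊆ smallSets I m := by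
    intro T hT
    rw [mem_powersetCard] at hT
    unfold smallSets
    rw [mem_filter, mem_powerset]
    exact ⟨hT.1, hT.2.le⟩
  have h2 : ∑ T ∈ powersetCard m I, ∏ n ∈ T, y n ≤ ∑ T ∈ smallSets I m, ∏ n ∈ T, y n := by
    apply sum_le_sum_of_subset_of_nonneg h1
    intro T hT _
    unfold smallSets at hT
    rw [mem_filter, mem_powerset] at hT
    exact prod_nonneg fun n hn => hq.trans (hy n (hT.1 hn))
  refine le_trans ?_ h2
  have h3 : ∀ T ∈ powersetCard m I, q ^ m ≤ ∏ n ∈ T, y n := by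
    intro T hT
    rw [mem_powersetCard] at hT
    rw [← hT.2, ← prod_const]
    exact prod_le_prod (fun _ _ => hq) fun n hn => hy n (hT.1 hn)
  have h4 := card_nsmul_le_sum (powersetCard m I) (fun T => ∏ n ∈ T, y n) _ h3
  rwa [card_powersetCard, nsmul_eq_mul] at h4

end Q198.CC
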