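import Pool.Agent.Q198.CC.C4

/-! # All gaps are at most `λ log² x` for every `λ` above the constant -/

set_option autoImplicit false

namespace Q198.CC

open Finset MeasureTheory Filter Topology Q198.CI

lemma tendsto_log_nat' : Tendsto (fun x : ℕ => Real.log x) atTop atTop :=
  Real.tendsto_log_atTop.comp tendsto_natCast_atTop_atTop

/-- the number of places considered at `x` -/
noncomputable def ln (lam : ℝ) (x : ℕ) : ℕ := ⌊lam * Real.log x ^ 2⌋₊

lemma ev_sq (a b d : ℝ) (ha : 0 < a) : ∀ᶠ t : ℝ in atTop, b * t + d ≤ a * t ^ 2 := by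
  filter_upwards [eventually_ge_atTop (max 1 ((|b| + |d|) / a))] with t ht
  have h1 : 1 ≤ t := (le_max_left _ _).trans ht
  have h2 : (|b| + |d|) / a ≤ t := (le_max_right _ _).trans ht
  rw [div_le_iff₀ ha] at h2
  have h3 : b * t ≤ |b| * t := mul_le_mul_of_nonneg_right (le_abs_self b) (by linarith)
  have h4 : d ≤ |d| * t := (le_abs_self d).trans (le_mul_of_one_le_right (abs_nonneg d) h1)
  calc b * t + d ≤ |b| * t + |d| * t := by linarith
    _ = (|b| + |d|) * t := by ring
    _ ≤ (t * a) * t := by gcongr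
    _ = a * t ^ 2 := by ring

lemma log_sq_le (lam : ℝ) : ∀ᶠ x : ℕ in atTop, lam * Real.log x ^ 2 ≤ x := by
  have h1 : (fun x : ℝ => Real.log x ^ 2) =o[atTop] fun x => x := Real.isLittleO_pow_log_id_atTop (n := 2)
  have h2 := (h1.comp_tendsto tendsto_natCast_atTop_atTop)
  have h3 := Asymptotics.isLittleO_iff.1 h2 (show 0 < 1 / (|lam| + 1) by positivity)
  filter_upwards [h3] with x hx
  simp only [Function.comp] at hx
  rw [Real.norm_of_nonneg (by positivity), Real.norm_of_nonneg (Nat.cast_nonneg x)] at hx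
  have h4 : lam * Real.log x ^ 2 ≤ (|lam| + 1) * Real.log x ^ 2 := by
    apply mul_le_mul_of_nonneg_right _ (sq_nonneg _)
    linarith [le_abs_self lam]
  refine h4.trans ?_
  calc (|lam| + 1) * Real.log x ^ 2 ≤ (|lam| + 1) * (1 / (|lam| + 1) * x) := by gcongr
    _ = x := by field_simp

theorem empty_prob {Ω : Type*} [MeasurableSpace Ω] {P : Measure Ω} [IsProbabilityMeasure P]
    {κ : ℕ → ℕ} {E : ℕ → Set Ω} (hM : Model P κ E) {c lam : ℝ} (hc : 0 < c) (hl : Lam c < lam)
    (hκ : ∀ᶠ n : ℕ in atTop, c * Real.log n ≤ κ n) :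
    ∃ η : ℝ, 0 < η ∧ ∀ᶠ x : ℕ in atTop,
      P (⋂ n ∈ Ioc x (x + ln lam x), (E n)ᶜ) ≤ ENNReal.ofReal (1 / (x:ℝ) ^ (1 + η)) := by
  have hl0 : 0 < lam := lt_trans (by unfold Lam; positivity) hl
  obtain ⟨θ, hθ0, hθc, hθ⟩ := exists_theta hc hl
  obtain ⟨l, η, hl1, hl2, hη, hlη⟩ := exists_lam hθ0 hl0 hθ
  refine ⟨η, hη, ?_⟩
  have hlog := tendsto_log_nat'
  obtain ⟨n₀, hn₀⟩ := eventually_atTop.1 hκ
  set R : ℝ := |1 + Real.log (l / θ)| with hR
  -- eventual inequalities in `t = log x`
  have e1 := hlog.eventually (ev_sq (lam - l) (l + θ) 1 (by linarith))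
  have e2 := hlog.eventually_ge_atTop (1 / θ + 3)
  have e3 : ∀ᶠ t : ℝ in atTop, R + 1 + Real.log (θ * t) ≤ η * t := by
    have h1 : (fun x : ℝ => Real.log x) =o[atTop] fun x => x := Real.isLittleO_log_id_atTop
    have h2 := Asymptotics.isLittleO_iff.1 h1 (show 0 < η / 2 by positivity)
    filter_upwards [h2, eventually_ge_atTop (2 * (R + 1 + Real.log θ) / η), eventually_gt_atTop 1]
      with t ht1 ht2 ht3
    rw [Real.norm_of_nonneg (Real.log_nonneg ht3.le), Real.norm_of_nonneg (by linarith)] at ht1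
    rw [Real.log_mul hθ0.ne' (by linarith)]
    rw [div_le_iff₀ hη] at ht2
    linarith
  have e3' := hlog.eventually e3
  filter_upwards [e1, e2, e3', log_sq_le lam, eventually_ge_atTop n₀, eventually_ge_atTop 3]
    with x h1 h2 h3 h4 h5 h6
  set t : ℝ := Real.log x with ht
  have ht1 : 1 < t := one_lt_log h6
  have hx0 : (0:ℝ) < x := by
    have : 0 < x := by omega
    exact_mod_cast this
  set m : ℕ := ⌊θ * t⌋₊ with hm
  set L : ℕ := ln lam x with hL
  have hmt : (m:ℝ) ≤ θ * t := Nat.floor_le (by positivity)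
  have hmt' : θ * t < m + 1 := Nat.lt_floor_add_one _
  have hθt : 1 ≤ θ * t := by
    have h7 : θ * (1 / θ + 3) ≤ θ * t := mul_le_mul_of_nonneg_left h2 hθ0.le
    have h8 : θ * (1 / θ + 3) = 1 + 3 * θ := by
      field_simp
    linarith
  have hm1 : 1 ≤ m := Nat.le_floor (by simpa using hθt)
  have hLt : (L:ℝ) ≤ lam * t ^ 2 := Nat.floor_le (by positivity)
  have hLt' : lam * t ^ 2 < L + 1 := Nat.lt_floor_add_one _
  have hLm : l * (t * (t + 1)) ≤ (L:ℝ) - m := by nlinarith
  have hL1 : m ≤ L := by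
    have h7 : 0 ≤ l * (t * (t + 1)) := by positivity
    have h8 : (m:ℝ) ≤ L := by linarith
    exact_mod_cast h8
  have hLpos : 1 ≤ L := hm1.trans hL1
  -- the logarithm at the right end
  have hb : Real.log ((x + L : ℕ) : ℝ) ≤ t + 1 := by
    have h7 : ((x + L : ℕ) : ℝ) ≤ 2 * x := by
      push_cast
      linarith
    have h8 : Real.log ((x + L : ℕ) : ℝ) ≤ Real.log (2 * x) := by
      apply Real.log_le_log _ h7
      have : 0 < x + L := by omega
      exact_mod_cast this
    rw [Real.log_mul (by norm_num) hx0.ne'] at h8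
    have h9 := Real.log_two_lt_d9
    linarith
  set q : ℝ := 1 / (t + 1) with hq
  have hq0 : 0 < q := by positivity
  have hlogn : ∀ n ∈ Ioc x (x + L), 1 < Real.log n ∧ Real.log n ≤ t + 1 ∧ t ≤ Real.log n := by
    intro n hn
    rw [mem_Ioc] at hn
    refine ⟨one_lt_log (by omega), le_trans ?_ hb, ?_⟩
    · apply Real.log_le_log
      · have : 0 < n := by omega
        exact_mod_cast this
      · exact_mod_cast hn.2
    · apply Real.log_le_log hx0
      exact_mod_cast hn.1.le
  have hy : ∀ n ∈ Ioc x (x + L), q ≤ (1 / Real.log n) / (1 - 1 / Real.log n) := by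
    intro n hn
    obtain ⟨h7, h8, _⟩ := hlogn n hn
    have h9 : q ≤ 1 / Real.log n := one_div_le_one_div_of_le (by linarith) h8
    have h10 : 1 / Real.log n < 1 := by
      rw [div_lt_one (by linarith)]
      exact h7
    have h11 : 0 < 1 / Real.log n := by positivity
    refine h9.trans ?_
    rw [le_div_iff₀ (by linarith)]
    nlinarith
  have hcard : (Ioc x (x + L)).card = L := by
    rw [Nat.card_Ioc]
    omega
  have hS := sum_small (m := m) hq0.le hy
  rw [hcard] at hS
  have hS2 := (choose_ge hm1 hL1 hq0.le).trans hS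
  -- the lower bound for the sum
  set s : ℝ := ((L - m) * q * Real.exp 1 / m) ^ m / (Real.exp 1 * m) with hs
  have hm0 : (0:ℝ) < m := by exact_mod_cast hm1
  have hbase : l / θ * Real.exp 1 ≤ ((L:ℝ) - m) * q * Real.exp 1 / m := by
    rw [le_div_iff₀ hm0]
    have h7 : l / θ * m ≤ l * t := by
      rw [div_mul_eq_mul_div, div_le_iff₀ hθ0]
      nlinarith
    have h8 : l * t ≤ ((L:ℝ) - m) * q := by
      rw [hq, mul_one_div, le_div_iff₀ (by linarith)]
      linarith
    nlinarith [Real.exp_pos 1]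
  have hbase0 : 0 < l / θ * Real.exp 1 := by positivity
  have hslog : (1 + η) * t ≤ Real.log s := by
    have hden : 0 < Real.exp 1 * m := by positivity
    have h7 : (l / θ * Real.exp 1) ^ m / (Real.exp 1 * m) ≤ s :=
      div_le_div_of_nonneg_right (pow_le_pow_left₀ hbase0.le hbase m) hden.le
    refine le_trans ?_ (Real.log_le_log (by positivity) h7)
    rw [Real.log_div (by positivity) hden.ne', Real.log_pow, Real.log_mul (by positivity) (Real.exp_pos 1).ne',
      Real.log_exp, Real.log_mul (Real.exp_pos 1).ne' hm0.ne', Real.log_exp]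
    have h8 : Real.log m ≤ Real.log (θ * t) := Real.log_le_log hm0 hmt
    have h9 : θ * t * (Real.log (l / θ) + 1) - R ≤ m * (Real.log (l / θ) + 1) := by
      have h10 : (θ * t - m) * (Real.log (l / θ) + 1) ≤ R := by
        refine (le_abs_self _).trans ?_
        rw [abs_mul, abs_of_nonneg (by linarith : 0 ≤ θ * t - m), hR, add_comm 1]
        exact mul_le_of_le_one_left (abs_nonneg _) (by linarith)
      linarith
    have h10 : (1 + 2 * η) * t ≤ θ * (1 + Real.log (l / θ)) * t :=
      mul_le_mul_of_nonneg_right hlη (by linarith)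
    linarith
  have hs0 : 0 < s := by
    have : 0 < ((L:ℝ) - m) * q * Real.exp 1 / m := lt_of_lt_of_le hbase0 hbase
    positivity
  have h7 := meas_upper P hM.meas (I := Ioc x (x + L)) (m := m) (p := fun n => 1 / Real.log n)
    (fun n hn => by
      have := (hlogn n hn).1
      positivity)
    (fun n hn => by
      have := (hlogn n hn).1
      rw [div_lt_one (by linarith)]
      exact this)
    (fun T hT hTc => hM.indep T fun n hn => by
      have h8 := hT hn
      have h9 := (hlogn n h8).2.2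
      rw [mem_Ioc] at h8
      refine ⟨by omega, ?_⟩
      have h10 := hn₀ n (by omega)
      have h11 : (T.card : ℝ) ≤ 2 * m := by exact_mod_cast hTc
      have h12 : (T.card : ℝ) ≤ κ n := by
        have h13 : c * t ≤ c * Real.log n := mul_le_mul_of_nonneg_left h9 hc.le
        have h14 : 2 * θ * t ≤ c * t := mul_le_mul_of_nonneg_right (by linarith) (by linarith)
        linarith
      exact_mod_cast h12) hs0 hS2
  refine h7.trans (ENNReal.ofReal_le_ofReal ?_)
  apply one_div_le_one_div_of_le (by positivity)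
  rw [Real.rpow_def_of_pos hx0, ← Real.exp_log hs0]
  apply Real.exp_le_exp.2
  rw [← ht]
  linarith

theorem upper_lam {Ω : Type*} [MeasurableSpace Ω] {P : Measure Ω} [IsProbabilityMeasure P]
    {κ : ℕ → ℕ} {E : ℕ → Set Ω} (hM : Model P κ E) {c lam : ℝ} (hc : 0 < c) (hl : Lam c < lam)
    (hκ : ∀ᶠ n : ℕ in atTop, c * Real.log n ≤ κ n) :
    ∀ᵐ ω ∂P, ∀ᶠ x : ℕ in atTop, ∃ n : ℕ, x < n ∧ (n : ℝ) ≤ x + lam * Real.log x ^ 2 ∧ ω ∈ E n := by
  obtain ⟨η, hη, h1⟩ := empty_prob hM hc hl hκ
  have hl0 : 0 < lam := lt_trans (by unfold Lam; positivity) hl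
  obtain ⟨X, hX⟩ := eventually_atTop.1 h1
  set A : ℕ → Set Ω := fun x => if X ≤ x then ⋂ n ∈ Ioc x (x + ln lam x), (E n)ᶜ else ∅ with hA
  have h2 : ∀ x, P (A x) ≤ ENNReal.ofReal (1 / (x:ℝ) ^ (1 + η)) := by
    intro x
    simp only [hA]
    split_ifs with hx
    · exact hX x hx
    · simp
  have h3 : ∑' x, P (A x) ≠ ⊤ := ne_top_of_le_ne_top
    (Real.summable_one_div_nat_rpow.2 (by linarith : 1 < 1 + η)).tsum_ofReal_ne_top (ENNReal.tsum_le_tsum h2)
  filter_upwards [ae_eventually_notMem h3] with ω hω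
  filter_upwards [hω, eventually_ge_atTop X] with x hx hxX
  simp only [hA, if_pos hxX, Set.mem_iInter, not_forall, Set.mem_compl_iff, not_not] at hx
  obtain ⟨n, hn, hnE⟩ := hx
  rw [mem_Ioc] at hn
  refine ⟨n, hn.1, ?_, hnE⟩
  have h4 : (ln lam x : ℝ) ≤ lam * Real.log x ^ 2 := Nat.floor_le (by positivity)
  have h5 : (n:ℝ) ≤ ((x + ln lam x : ℕ) : ℝ) := by exact_mod_cast hn.2
  push_cast at h5
  linarith

end Q198.CC
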