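import Pool.Agent.Q198.CC.C5

/-! # Estimates for the extremal model -/

set_option autoImplicit false

namespace Q198.CC

open Finset MeasureTheory Filter Topology Q198.CI

lemma exists_v {c lam : ℝ} (hc : 0 < c) (hl0 : 0 < lam) (hl : lam < Lam c) :
    ∃ v : ℝ, 0 < v ∧ v < 1 ∧ c * Real.log (1 / v) + lam * v ^ 2 < 1 := by
  by_cases h1 : lam < 1
  · have hcont : ContinuousAt (fun v : ℝ => c * Real.log (1 / v) + lam * v ^ 2) 1 := by
      apply ContinuousAt.add
      · apply ContinuousAt.mul continuousAt_const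
        apply ContinuousAt.log
        · exact continuousAt_const.div continuousAt_id one_ne_zero
        · norm_num
      · exact continuousAt_const.mul (continuousAt_id.pow 2)
    have h2 : (fun v : ℝ => c * Real.log (1 / v) + lam * v ^ 2) 1 < 1 := by
      simp only [div_one, Real.log_one, mul_zero, one_pow, mul_one, zero_add]
      exact h1
    have h3 : ∀ᶠ v in 𝓝[<] (1:ℝ), c * Real.log (1 / v) + lam * v ^ 2 < 1 ∧ 0 < v ∧ v < 1 := by
      filter_upwards [nhdsWithin_le_nhds (hcont.eventually (eventually_lt_nhds h2)),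
        nhdsWithin_le_nhds (eventually_gt_nhds one_pos), self_mem_nhdsWithin] with v ha hb hc
      exact ⟨ha, hb, hc⟩
    obtain ⟨v, h4, h5, h6⟩ := h3.exists
    exact ⟨v, h5, h6, h4⟩
  · rw [not_lt] at h1
    have hc2 : c / 2 < 1 := by
      by_contra hcon
      rw [not_lt] at hcon
      have : Lam c = 1 := by
        unfold Lam
        rw [min_eq_right hcon]
        norm_num
      linarith
    have hL : Lam c = c / 2 * Real.exp (1 / (c / 2) - 1) := by
      unfold Lam
      rw [min_eq_left hc2.le]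
    rw [hL] at hl
    have hr : 0 < c / 2 / lam := by positivity
    have hr1 : c / 2 / lam < 1 := by
      rw [div_lt_one hl0]
      linarith
    refine ⟨Real.sqrt (c / 2 / lam), Real.sqrt_pos.2 hr, ?_, ?_⟩
    · rw [Real.sqrt_lt' one_pos]
      simpa using hr1
    · rw [Real.sq_sqrt hr.le, one_div, Real.log_inv, Real.log_sqrt hr.le, Real.log_div (by positivity) hl0.ne']
      have h2 : Real.log lam < Real.log (c / 2) + (1 / (c / 2) - 1) := by
        rw [← Real.log_exp (1 / (c / 2) - 1), ← Real.log_mul (by positivity) (Real.exp_pos _).ne']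
        exact Real.log_lt_log hl0 hl
      have h3 : c / 2 * (1 / (c / 2)) = 1 := by
        field_simp
      have h4 : lam * (c / 2 / lam) = c / 2 := by
        field_simp
      rw [h4]
      nlinarith

/-- the length of the blocks -/
noncomputable def bl (lam : ℝ) (i : ℕ) : ℕ := ⌈lam * (((i:ℝ) + 2) * Real.log 2) ^ 2⌉₊ + 2

/-- the order of independence in a scale -/
def bk (κ : ℕ → ℕ) (i : ℕ) : ℕ := max 1 ((Ico (2 ^ i) (2 ^ (i + 1))).sup κ)

/-- the probability of an empty block -/
noncomputable def br (κ : ℕ → ℕ) (v lam : ℝ) (i : ℕ) : ℝ :=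
  v ^ bk κ i / (1 + (1 / ((i:ℝ) * Real.log 2)) / (1 - 1 / ((i:ℝ) * Real.log 2)) * v ^ 2) ^ bl lam i

/-- the condition on a scale -/
def Qc (κ : ℕ → ℕ) (lam : ℝ) (i : ℕ) : Prop :=
  6 ≤ i ∧ 4 * bl lam i ≤ 2 ^ i ∧ ∃ v : ℝ, 0 < v ∧ v < 1 ∧ (i:ℝ) ≤ (2 ^ i / (2 * bl lam i)) * br κ v lam i

lemma bk_le {κ : ℕ → ℕ} {c : ℝ} (hc : 0 < c) (h : ∀ᶠ n : ℕ in atTop, (κ n : ℝ) ≤ c * Real.log n) :
    ∀ᶠ i : ℕ in atTop, (bk κ i : ℝ) ≤ c * (((i:ℝ) + 1) * Real.log 2) := by
  obtain ⟨n₀, hn₀⟩ := eventually_atTop.1 h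
  have h1 : Tendsto (fun i : ℕ => c * (((i:ℝ) + 1) * Real.log 2)) atTop atTop :=
    (((tendsto_natCast_atTop_atTop).atTop_add tendsto_const_nhds).atTop_mul_const (Real.log_pos (by norm_num))).const_mul_atTop hc
  filter_upwards [eventually_ge_atTop n₀, h1.eventually_ge_atTop 1] with i hi hi1
  have h2 : ∀ n ∈ Ico (2 ^ i) (2 ^ (i + 1)), κ n ≤ ⌊c * (((i:ℝ) + 1) * Real.log 2)⌋₊ := by
    intro n hn
    rw [mem_Ico] at hn
    have h3 : n₀ ≤ n := by
      have h4 : i < 2 ^ i := Nat.lt_two_pow_self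
      omega
    apply Nat.le_floor
    refine (hn₀ n h3).trans (mul_le_mul_of_nonneg_left ?_ hc.le)
    have h5 : Real.log n ≤ Real.log ((2:ℝ) ^ (i + 1)) := by
      apply Real.log_le_log
      · have : 0 < n := lt_of_lt_of_le (by positivity) hn.1
        exact_mod_cast this
      · exact_mod_cast hn.2.le
    rw [Real.log_pow] at h5
    push_cast at h5
    exact h5
  have h3 : bk κ i ≤ ⌊c * (((i:ℝ) + 1) * Real.log 2)⌋₊ := by
    unfold bk
    apply max_le
    · exact Nat.le_floor (by simpa using hi1)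
    · exact Finset.sup_le h2
  calc (bk κ i : ℝ) ≤ (⌊c * (((i:ℝ) + 1) * Real.log 2)⌋₊ : ℝ) := by exact_mod_cast h3
    _ ≤ _ := Nat.floor_le (by positivity)

theorem ev_Qc {κ : ℕ → ℕ} {c lam : ℝ} (hc : 0 < c) (hl0 : 0 < lam) (hl : lam < Lam c)
    (hκ : ∀ ε : ℝ, 0 < ε → ∀ᶠ n : ℕ in atTop, (κ n : ℝ) ≤ (c + ε) * Real.log n) :
    ∀ᶠ i : ℕ in atTop, Qc κ lam i := by
  obtain ⟨v, hv0, hv1, hv⟩ := exists_v hc hl0 hl
  set W : ℝ := Real.log (1 / v) with hW
  have hW0 : 0 < W := Real.log_pos (by rw [lt_div_iff₀ hv0]; linarith)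
  set δ : ℝ := 1 - (c * W + lam * v ^ 2) with hδ
  have hδ0 : 0 < δ := by rw [hδ]; linarith
  -- choice of ε
  set ε : ℝ := min (δ / (4 * (W + 1))) (δ / 4) with hε
  have hε0 : 0 < ε := lt_min (by positivity) (by positivity)
  have hεW : ε * W ≤ δ / 4 := by
    have h1 : ε ≤ δ / (4 * (W + 1)) := min_le_left _ _
    rw [le_div_iff₀ (by positivity)] at h1
    nlinarith
  have hε4 : ε ≤ δ / 4 := min_le_right _ _
  have hδ1 : δ ≤ 1 := by
    rw [hδ]
    have : 0 ≤ c * W + lam * v ^ 2 := by positivity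
    linarith
  have hl2 : 0 < Real.log 2 := Real.log_pos (by norm_num)
  have ht : Tendsto (fun i : ℕ => (i:ℝ) * Real.log 2) atTop atTop :=
    (tendsto_natCast_atTop_atTop).atTop_mul_const hl2
  have e1 := ht.eventually (ev_sq ε (4 * lam + (lam + ε)) (4 * lam + 3) hε0)
  have e2 : ∀ᶠ t : ℝ in atTop, Real.log (4 * (lam + ε)) + 3 * Real.log t ≤ ε * t := by
    have h1 : (fun x : ℝ => Real.log x) =o[atTop] fun x => x := Real.isLittleO_log_id_atTop
    have h2 := Asymptotics.isLittleO_iff.1 h1 (show 0 < ε / 6 by positivity)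
    filter_upwards [h2, eventually_ge_atTop (2 * Real.log (4 * (lam + ε)) / ε), eventually_gt_atTop 1]
      with t ht1 ht2 ht3
    rw [Real.norm_of_nonneg (Real.log_nonneg ht3.le), Real.norm_of_nonneg (by linarith)] at ht1
    rw [div_le_iff₀ hε0] at ht2
    linarith
  have e2' := ht.eventually e2
  have e3 := bk_le (κ := κ) (c := c + ε) (by linarith) (hκ ε hε0)
  have e4 := ht.eventually_ge_atTop (4 * ((c + ε) * W) / δ)
  filter_upwards [e1, e2', e3, e4, eventually_ge_atTop 6] with i h1 h2 h3 h4 h6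
  set t : ℝ := (i:ℝ) * Real.log 2 with htdef
  have hi6 : (6:ℝ) ≤ i := by exact_mod_cast h6
  have hlog2a : (1:ℝ) / 2 ≤ Real.log 2 := by
    have := Real.log_two_gt_d9
    linarith
  have hlog2b : Real.log 2 ≤ 1 := by
    have := Real.log_two_lt_d9
    linarith
  have ht3 : 3 ≤ t := by rw [htdef]; nlinarith
  set L : ℕ := bl lam i with hL
  have hLle : (L:ℝ) ≤ lam * (t + 2) ^ 2 + 3 := by
    rw [hL]
    unfold bl
    push_cast
    have h7 := (Nat.ceil_lt_add_one (show 0 ≤ lam * (((i:ℝ) + 2) * Real.log 2) ^ 2 by positivity)).le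
    have h8 : lam * (((i:ℝ) + 2) * Real.log 2) ^ 2 ≤ lam * (t + 2) ^ 2 := by
      apply mul_le_mul_of_nonneg_left _ hl0.le
      apply pow_le_pow_left₀ (by positivity)
      rw [htdef]
      nlinarith
    linarith
  have hL2 : (2:ℝ) ≤ L := by
    rw [hL]
    unfold bl
    push_cast
    have : (0:ℝ) ≤ (⌈lam * (((i:ℝ) + 2) * Real.log 2) ^ 2⌉₊ : ℝ) := Nat.cast_nonneg _
    linarith
  have hLt : (L:ℝ) ≤ (lam + ε) * (t * (t - 1)) := by nlinarith
  have hLt2 : (L:ℝ) ≤ (lam + ε) * t ^ 2 := by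
    refine hLt.trans ?_
    apply mul_le_mul_of_nonneg_left _ (by linarith)
    nlinarith
  have hit : (i:ℝ) ≤ 2 * t := by rw [htdef]; nlinarith
  have h2L : 2 * L * i ≤ Real.exp (ε * t) := by
    have h7 : 2 * (L:ℝ) * i ≤ 4 * (lam + ε) * t ^ 3 := by
      calc 2 * (L:ℝ) * i ≤ 2 * ((lam + ε) * t ^ 2) * (2 * t) := by gcongr
        _ = _ := by ring
    refine h7.trans ?_
    have h8 : Real.log (4 * (lam + ε) * t ^ 3) ≤ ε * t := by
      rw [Real.log_mul (by positivity) (by positivity), Real.log_pow]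
      push_cast
      exact h2
    exact (Real.log_le_iff_le_exp (by positivity)).1 h8
  have hexp : Real.exp t = 2 ^ i := by
    rw [htdef, mul_comm, Real.exp_mul, Real.exp_log (by norm_num), Real.rpow_natCast]
  refine ⟨h6, ?_, v, hv0, hv1, ?_⟩
  · have h7 : 4 * (L:ℝ) ≤ 2 ^ i := by
      calc 4 * (L:ℝ) ≤ 2 * L * i := by nlinarith
        _ ≤ Real.exp (ε * t) := h2L
        _ ≤ Real.exp t := Real.exp_le_exp.2 (by nlinarith)
        _ = 2 ^ i := hexp
    exact_mod_cast h7
  · set y : ℝ := (1 / t) / (1 - 1 / t) with hy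
    have hyt : y = 1 / (t - 1) := by
      rw [hy]
      have : t - 1 ≠ 0 := by linarith
      have h9 : 1 - 1 / t = (t - 1) / t := by
        field_simp
      rw [h9]
      field_simp
    have hy0 : 0 < y := by
      rw [hyt]
      apply one_div_pos.2
      linarith
    have hbr : Real.exp (-((1 - ε) * t)) ≤ br κ v lam i := by
      unfold br
      rw [← htdef, ← hy, ← hL, le_div_iff₀ (by positivity)]
      have h8 : (1 + y * v ^ 2) ^ L ≤ Real.exp (L * (y * v ^ 2)) := by
        rw [Real.exp_nat_mul]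
        apply pow_le_pow_left₀ (by positivity)
        linarith [Real.add_one_le_exp (y * v ^ 2)]
      have h9 : Real.exp (-(bk κ i * W)) = v ^ bk κ i := by
        rw [hW, one_div, Real.log_inv, mul_neg, neg_neg, Real.exp_nat_mul, Real.exp_log hv0]
      calc Real.exp (-((1 - ε) * t)) * (1 + y * v ^ 2) ^ L ≤
            Real.exp (-((1 - ε) * t)) * Real.exp (L * (y * v ^ 2)) := by gcongr
        _ = Real.exp (-((1 - ε) * t) + L * (y * v ^ 2)) := by rw [Real.exp_add]
        _ ≤ Real.exp (-(bk κ i * W)) := by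
            apply Real.exp_le_exp.2
            have h10 : (L:ℝ) * y ≤ (lam + ε) * t := by
              rw [hyt, mul_one_div, div_le_iff₀ (by linarith)]
              linarith
            have hvv : v ^ 2 ≤ 1 := pow_le_one₀ hv0.le hv1.le
            have h11 : (L:ℝ) * (y * v ^ 2) ≤ lam * v ^ 2 * t + ε * t := by
              have h12 : (L:ℝ) * (y * v ^ 2) ≤ (lam + ε) * t * v ^ 2 := by
                rw [← mul_assoc]
                exact mul_le_mul_of_nonneg_right h10 (sq_nonneg v)
              have h13 : ε * t * v ^ 2 ≤ ε * t := mul_le_of_le_one_right (by positivity) hvv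
              nlinarith
            have h12 : (bk κ i : ℝ) * W ≤ (c + ε) * W * t + (c + ε) * W := by
              have h13 : (bk κ i : ℝ) ≤ (c + ε) * (t + 1) := by
                refine h3.trans (mul_le_mul_of_nonneg_left ?_ (by linarith))
                rw [htdef]
                nlinarith
              nlinarith
            have h13 : (c + ε) * W ≤ δ / 4 * t := by
              rw [div_le_iff₀ hδ0] at h4
              linarith
            have h14 : ε * W * t ≤ δ / 4 * t := mul_le_mul_of_nonneg_right hεW (by linarith)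
            have h15 : ε * t ≤ δ / 4 * t := mul_le_mul_of_nonneg_right hε4 (by linarith)
            have h16 : (c * W + lam * v ^ 2) * t = (1 - δ) * t := by
              rw [hδ]
              ring
            nlinarith
        _ = v ^ bk κ i := h9
    have h17 : Real.exp (ε * t) * Real.exp (-t) * 2 ^ i = Real.exp (ε * t) := by
      rw [← hexp, mul_assoc, ← Real.exp_add]
      simp
    have h18 : (i:ℝ) * (2 * L) ≤ 2 ^ i * br κ v lam i := by
      calc (i:ℝ) * (2 * L) = 2 * L * i := by ring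
        _ ≤ Real.exp (ε * t) := h2L
        _ = 2 ^ i * Real.exp (-((1 - ε) * t)) := by
            rw [← hexp, ← Real.exp_add]
            congr 1
            ring
        _ ≤ _ := by gcongr
    rw [div_mul_eq_mul_div, le_div_iff₀ (by positivity)]
    exact h18

end Q198.CC
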