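import Pool.Agent.Q198.CC.C6
import Pool.Agent.Q198.CI.Glue

/-! # The extremal model -/

set_option autoImplicit false

namespace Q198.CC

open Finset MeasureTheory Filter Topology Q198.CI

/-- the constants approaching the exact constant -/
noncomputable def lamk (c : ℝ) (k : ℕ) : ℝ := Lam c * (1 - 1 / ((k:ℝ) + 2))

lemma Lam_pos {c : ℝ} (hc : 0 < c) : 0 < Lam c := by
  unfold Lam
  have : 0 < min (c / 2) 1 := lt_min (by linarith) one_pos
  positivity

lemma lamk_pos {c : ℝ} (hc : 0 < c) (k : ℕ) : 0 < lamk c k := by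
  unfold lamk
  apply mul_pos (Lam_pos hc)
  have h1 : 1 / ((k:ℝ) + 2) ≤ 1 / 2 := one_div_le_one_div_of_le (by norm_num) (by
    have : (0:ℝ) ≤ k := Nat.cast_nonneg k
    linarith)
  linarith

lemma lamk_lt {c : ℝ} (hc : 0 < c) (k : ℕ) : lamk c k < Lam c := by
  unfold lamk
  have h1 : (0:ℝ) < 1 / ((k:ℝ) + 2) := by positivity
  have h2 := Lam_pos hc
  nlinarith

lemma lamk_tendsto (c : ℝ) : Tendsto (lamk c) atTop (𝓝 (Lam c)) := by
  unfold lamk
  have h1 : Tendsto (fun k : ℕ => 1 / ((k:ℝ) + 2)) atTop (𝓝 0) := by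
    apply tendsto_const_nhds.div_atTop
    exact tendsto_natCast_atTop_atTop.atTop_add tendsto_const_nhds
  have h2 := (h1.const_sub 1).const_mul (Lam c)
  simpa using h2

open Classical in
/-- the diagonal choice -/
noncomputable def ki (κ : ℕ → ℕ) (c : ℝ) (i : ℕ) : ℕ :=
  Nat.findGreatest (fun k => Qc κ (lamk c k) i) i

lemma ki_spec {κ : ℕ → ℕ} {c : ℝ} (h : ∀ k, ∀ᶠ i : ℕ in atTop, Qc κ (lamk c k) i) :
    ∀ᶠ i : ℕ in atTop, Qc κ (lamk c (ki κ c i)) i := by
  classical
  filter_upwards [h 0] with i hi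
  unfold ki
  exact Nat.findGreatest_spec (P := fun k => Qc κ (lamk c k) i) (Nat.zero_le i) hi

lemma ki_tendsto {κ : ℕ → ℕ} {c : ℝ} (h : ∀ k, ∀ᶠ i : ℕ in atTop, Qc κ (lamk c k) i) :
    Tendsto (ki κ c) atTop atTop := by
  classical
  rw [tendsto_atTop]
  intro k
  filter_upwards [h k, eventually_ge_atTop k] with i hi hik
  unfold ki
  exact Nat.le_findGreatest hik hi

/-- the length of the blocks in a scale -/
noncomputable def Li (κ : ℕ → ℕ) (c : ℝ) (i : ℕ) : ℕ := bl (lamk c (ki κ c i)) i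

lemma Li_pos (κ : ℕ → ℕ) (c : ℝ) (i : ℕ) : 0 < Li κ c i := by
  unfold Li bl
  omega

/-- the block of an integer -/
noncomputable def bb (κ : ℕ → ℕ) (c : ℝ) (n : ℕ) : ℕ × ℕ := (Nat.log 2 n, n / Li κ c (Nat.log 2 n))

/-- the blocks -/
noncomputable def BI (κ : ℕ → ℕ) (c : ℝ) (β : ℕ × ℕ) : Finset ℕ :=
  (range (2 ^ (β.1 + 1))).filter (fun n => bb κ c n = β)

lemma mem_BI (κ : ℕ → ℕ) (c : ℝ) (n : ℕ) (β : ℕ × ℕ) : n ∈ BI κ c β ↔ bb κ c n = β := by
  unfold BI
  rw [mem_filter, mem_range]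
  constructor
  · exact fun h => h.2
  · intro h
    refine ⟨?_, h⟩
    have h1 : Nat.log 2 n = β.1 := congrArg Prod.fst h
    rw [← h1]
    exact Nat.lt_pow_succ_log_self (by norm_num) n

lemma BI_eq {κ : ℕ → ℕ} {c : ℝ} {i j : ℕ} (h1 : 2 ^ i ≤ j * Li κ c i)
    (h2 : (j + 1) * Li κ c i ≤ 2 ^ (i + 1)) :
    BI κ c (i, j) = Ico (j * Li κ c i) ((j + 1) * Li κ c i) := by
  have hL := Li_pos κ c i
  ext n
  rw [mem_BI, mem_Ico]
  unfold bb
  constructor
  · intro h
    have h3 : Nat.log 2 n = i := congrArg Prod.fst h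
    have h4 : n / Li κ c (Nat.log 2 n) = j := congrArg Prod.snd h
    rw [h3] at h4
    constructor
    · rw [← h4]
      exact Nat.div_mul_le_self n _
    · rw [← h4, mul_comm]
      exact Nat.lt_mul_div_succ n hL
  · rintro ⟨h3, h4⟩
    have h5 : Nat.log 2 n = i := Nat.log_eq_of_pow_le_of_lt_pow (h1.trans h3) (lt_of_lt_of_le h4 h2)
    rw [h5]
    have h6 : n / Li κ c i = j := Nat.div_eq_of_lt_le h3 h4
    rw [h6]

/-- the full blocks -/
def Full (κ : ℕ → ℕ) (c : ℝ) (β : ℕ × ℕ) : Prop :=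
  2 ^ β.1 ≤ β.2 * Li κ c β.1 ∧ (β.2 + 1) * Li κ c β.1 ≤ 2 ^ (β.1 + 1)

lemma block_laws (κ : ℕ → ℕ) (c : ℝ) : ∀ β : ℕ × ℕ, ∃ w : Finset ℕ → ℝ,
    IsLaw (BI κ c β) (bk κ β.1) cp w ∧ (Qc κ (lamk c (ki κ c β.1)) β.1 → Full κ c β →
      ∃ r : ℝ, r ≤ w ∅ ∧ (β.1:ℝ) ≤ (2 ^ β.1 / (2 * Li κ c β.1)) * r) := by
  rintro ⟨i, j⟩
  by_cases hQ : Qc κ (lamk c (ki κ c i)) i
  · by_cases hF : Full κ c (i, j)
    · obtain ⟨h6, h4, hex⟩ := hQ
      have hv := hex.choose_spec
      set v : ℝ := hex.choose with hvdef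
      have hB : BI κ c (i, j) = Ico (j * Li κ c i) ((j + 1) * Li κ c i) := BI_eq hF.1 hF.2
      have hcard : (BI κ c (i, j)).card = Li κ c i := by
        rw [hB, Nat.card_Ico, add_mul, one_mul, Nat.add_sub_cancel_left]
      have hsc := scale_le h6
      have hp0 : 0 < 1 / ((i:ℝ) * Real.log 2) := by
        apply one_div_pos.2
        linarith
      have hp1 : 1 / ((i:ℝ) * Real.log 2) ≤ 1 / 2 := one_div_le_one_div_of_le (by norm_num) (by linarith)
      obtain ⟨w, hw, hw0⟩ := exists_law (I := BI κ c (i, j)) (by rw [hcard]; exact Li_pos κ c i)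
        (K := bk κ i) (by unfold bk; exact le_max_left _ _) hp0 hp1 hv.1 hv.2.1 (p' := cp)
        (fun n _ => cp_nonneg n) (fun n hn => by
          rw [mem_BI] at hn
          exact cp_le_scale h6 (congrArg Prod.fst hn))
      rw [hcard] at hw0
      exact ⟨w, hw, fun _ _ => ⟨br κ v (lamk c (ki κ c i)) i, hw0, hv.2.2⟩⟩
    · exact ⟨_, law_prod _ cp_nonneg cp_le_one _, fun _ h => absurd h hF⟩
  · exact ⟨_, law_prod _ cp_nonneg cp_le_one _, fun h _ => absurd h hQ⟩

theorem model_exists (κ : ℕ → ℕ) {c : ℝ} (hc : 0 < c)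
    (hκ : ∀ ε : ℝ, 0 < ε → ∀ᶠ n : ℕ in atTop, (κ n : ℝ) ≤ (c + ε) * Real.log n) :
    ∃ (Ω : Type) (_ : MeasurableSpace Ω) (P : Measure Ω) (_ : IsProbabilityMeasure P)
      (E : ℕ → Set Ω), Model P κ E ∧ ∀ᵐ ω ∂P, ∀ lam : ℝ, lam < Lam c → ∀ᶠ X : ℕ in atTop,
        ∃ x : ℕ, (x:ℝ) + lam * Real.log X ^ 2 ≤ X ∧
          ∀ n : ℕ, x < n → (n:ℝ) ≤ x + lam * Real.log X ^ 2 → ω ∉ E n := by
  classical
  choose w hw hw2 using block_laws κ c
  obtain ⟨P, hP, E, F, hE, hF, hT, hFE, hFs⟩ := glue (bb κ c) (BI κ c) (fun n β => mem_BI κ c n β)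
    (fun β => bk κ β.1) cp_nonneg w hw
  refine ⟨ℕ × ℕ → Finset ℕ, inferInstance, P, hP, E, ⟨hE, fun T hTT => ?_⟩, ?_⟩
  · rw [hT T]
    · congr 1
      refine prod_congr rfl fun n hn => ?_
      unfold cp
      rw [if_pos (hTT n hn).1]
    · intro n hn
      refine (hTT n hn).2.trans ?_
      unfold bk
      refine le_trans ?_ (le_max_right _ _)
      apply le_sup (f := κ)
      rw [mem_Ico]
      exact ⟨Nat.pow_log_le_self 2 (by have := (hTT n hn).1; omega), Nat.lt_pow_succ_log_self (by norm_num) n⟩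
  · have hQ : ∀ k, ∀ᶠ i : ℕ in atTop, Qc κ (lamk c k) i := fun k =>
      ev_Qc hc (lamk_pos hc k) (lamk_lt hc k) hκ
    have hQi := ki_spec hQ
    obtain ⟨i₀, hi₀⟩ := eventually_atTop.1 hQi
    -- the full blocks of a scale
    set J : ℕ → Finset ℕ := fun i => Ico ((2 ^ i + Li κ c i - 1) / Li κ c i) (2 ^ (i + 1) / Li κ c i) with hJ
    have hJF : ∀ i, ∀ j ∈ J i, Full κ c (i, j) := by
      intro i j hj
      simp only [hJ, mem_Ico] at hj
      have hL := Li_pos κ c i
      constructor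
      · have h1 : (2 ^ i + Li κ c i - 1) / Li κ c i * Li κ c i ≤ j * Li κ c i := Nat.mul_le_mul_right _ hj.1
        have h2 : 2 ^ i + Li κ c i - 1 < ((2 ^ i + Li κ c i - 1) / Li κ c i + 1) * Li κ c i := by
          rw [mul_comm]
          exact Nat.lt_mul_div_succ _ hL
        rw [add_mul, one_mul] at h2
        show 2 ^ i ≤ j * Li κ c i
        omega
      · show (j + 1) * Li κ c i ≤ 2 ^ (i + 1)
        have h1 : (j + 1) * Li κ c i ≤ 2 ^ (i + 1) / Li κ c i * Li κ c i := Nat.mul_le_mul_right _ hj.2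
        exact h1.trans (Nat.div_mul_le_self _ _)
    have hJc : ∀ i, 4 * Li κ c i ≤ 2 ^ i → (2:ℝ) ^ i / (2 * Li κ c i) ≤ (J i).card := by
      intro i h4
      have hL := Li_pos κ c i
      have hL0 : (0:ℝ) < Li κ c i := by exact_mod_cast hL
      have h1 : 2 ^ (i + 1) < (2 ^ (i + 1) / Li κ c i + 1) * Li κ c i := by
        rw [mul_comm]
        exact Nat.lt_mul_div_succ _ hL
      have h2 : (2 ^ i + Li κ c i - 1) / Li κ c i * Li κ c i ≤ 2 ^ i + Li κ c i - 1 := Nat.div_mul_le_self _ _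
      set a : ℕ := (2 ^ i + Li κ c i - 1) / Li κ c i with ha
      set b : ℕ := 2 ^ (i + 1) / Li κ c i with hb
      have h1r : (2:ℝ) ^ (i + 1) < ((b:ℝ) + 1) * Li κ c i := by exact_mod_cast h1
      have h2r : (a:ℝ) * Li κ c i ≤ 2 ^ i + Li κ c i := by
        have h3 : a * Li κ c i ≤ 2 ^ i + Li κ c i := by omega
        exact_mod_cast h3
      have h4r : 4 * (Li κ c i : ℝ) ≤ 2 ^ i := by exact_mod_cast h4
      have h5 : ((b:ℝ) - a) ≤ ((J i).card : ℝ) := by
        simp only [hJ, Nat.card_Ico, ← ha, ← hb]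
        rcases le_total a b with h6 | h6
        · rw [Nat.cast_sub h6]
        · rw [Nat.sub_eq_zero_of_le h6]
          have : (b:ℝ) ≤ a := by exact_mod_cast h6
          push_cast
          linarith
      refine le_trans ?_ h5
      rw [div_le_iff₀ (by positivity)]
      rw [pow_succ] at h1r
      nlinarith
    set A : ℕ → Set (ℕ × ℕ → Finset ℕ) := fun i => if i₀ ≤ i then ⋂ β ∈ (J i).image (fun j => (i, j)), (F β)ᶜ else ∅
      with hA
    have hPA : ∀ i, P (A i) ≤ ENNReal.ofReal (Real.exp (-1) ^ i) := by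
      intro i
      simp only [hA]
      split_ifs with hi
      · have hQ' := hi₀ i hi
        have h4 : 4 * Li κ c i ≤ 2 ^ i := hQ'.2.1
        rw [hFs, prod_image (fun a _ b _ h => (Prod.mk.inj h).2)]
        have h5 : ∀ j ∈ J i, ENNReal.ofReal (1 - w (i, j) ∅) ≤ ENNReal.ofReal (Real.exp (-(i / (J i).card))) := by
          intro j hj
          apply ENNReal.ofReal_le_ofReal
          obtain ⟨r, hr1, hr2⟩ := hw2 (i, j) hQ' (hJF i j hj)
          simp only at hr2
          have hJ0 : (0:ℝ) < (J i).card := by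
            have : 0 < (J i).card := card_pos.2 ⟨j, hj⟩
            exact_mod_cast this
          have hL0 : (0:ℝ) < Li κ c i := by exact_mod_cast Li_pos κ c i
          have h6 : (i:ℝ) / (J i).card ≤ r := by
            rw [div_le_iff₀ hJ0]
            have hr0 : 0 ≤ r := by
              by_contra hcon
              rw [not_le] at hcon
              have h7 : (2:ℝ) ^ i / (2 * Li κ c i) * r < 0 := mul_neg_of_pos_of_neg (by positivity) hcon
              have h8 : (0:ℝ) ≤ i := Nat.cast_nonneg i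
              linarith
            calc (i:ℝ) ≤ 2 ^ i / (2 * Li κ c i) * r := hr2
              _ ≤ (J i).card * r := mul_le_mul_of_nonneg_right (hJc i h4) hr0
              _ = r * (J i).card := mul_comm _ _
          have h7 := Real.add_one_le_exp (-((i:ℝ) / (J i).card))
          linarith
        refine (prod_le_prod' h5).trans ?_
        rw [prod_const, ← ENNReal.ofReal_pow (Real.exp_pos _).le, ← Real.exp_nat_mul, ← Real.exp_nat_mul]
        apply ENNReal.ofReal_le_ofReal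
        apply Real.exp_le_exp.2
        rcases (J i).card.eq_zero_or_pos with h6 | h6
        · exfalso
          have h7 := hJc i h4
          rw [h6] at h7
          have hL0 : (0:ℝ) < Li κ c i := by exact_mod_cast Li_pos κ c i
          have h8 : (0:ℝ) < 2 ^ i / (2 * Li κ c i) := by positivity
          push_cast at h7
          linarith
        · have h7 : ((J i).card : ℝ) ≠ 0 := by exact_mod_cast h6.ne'
          rw [mul_neg, mul_div_cancel₀ _ h7]
          linarith
      · simp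
    have hsum : Summable (fun i : ℕ => Real.exp (-1) ^ i) :=
      summable_geometric_of_lt_one (Real.exp_pos _).le (by
        have := Real.exp_lt_exp.2 (show (-1:ℝ) < 0 by norm_num)
        rwa [Real.exp_zero] at this)
    have h3 : ∑' i, P (A i) ≠ ⊤ := ne_top_of_le_ne_top hsum.tsum_ofReal_ne_top (ENNReal.tsum_le_tsum hPA)
    filter_upwards [ae_eventually_notMem h3] with ω hω lam hlam
    have hev : ∀ᶠ i : ℕ in atTop, lam ≤ lamk c (ki κ c i) :=
      (((lamk_tendsto c).comp (ki_tendsto hQ)).eventually (eventually_gt_nhds hlam)).mono fun i hi => hi.le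
    have hgood : ∀ᶠ i : ℕ in atTop, lam ≤ lamk c (ki κ c i) ∧ ∃ j, Full κ c (i, j) ∧ ω ∈ F (i, j) := by
      filter_upwards [hω, hev, eventually_ge_atTop i₀] with i hi hi2 hi3
      refine ⟨hi2, ?_⟩
      simp only [hA, if_pos hi3, Set.mem_iInter, not_forall, Set.mem_compl_iff, not_not] at hi
      obtain ⟨β, hβ, hωβ⟩ := hi
      rw [mem_image] at hβ
      obtain ⟨j, hj, rfl⟩ := hβ
      exact ⟨j, hJF i j hj, hωβ⟩
    obtain ⟨i₁, hi₁⟩ := eventually_atTop.1 hgood
    filter_upwards [eventually_ge_atTop (2 ^ (i₁ + 1))] with X hX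
    have hX0 : X ≠ 0 := by
      have : 0 < 2 ^ (i₁ + 1) := by positivity
      omega
    have hlogX : i₁ + 1 ≤ Nat.log 2 X := (Nat.le_log_iff_pow_le (by norm_num) hX0).2 hX
    obtain ⟨i, hi⟩ : ∃ i, Nat.log 2 X = i + 1 := ⟨Nat.log 2 X - 1, by omega⟩
    obtain ⟨hlam2, j, hFull, hωF⟩ := hi₁ i (by omega)
    have hXlo : 2 ^ (i + 1) ≤ X := by
      rw [← hi]
      exact Nat.pow_log_le_self 2 hX0
    have hXhi : X < 2 ^ (i + 2) := by
      have := Nat.lt_pow_succ_log_self (b := 2) (by norm_num) X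
      rw [hi] at this
      exact this
    have hlogle : Real.log X ≤ ((i:ℝ) + 2) * Real.log 2 := by
      have h5 : Real.log X ≤ Real.log ((2:ℝ) ^ (i + 2)) := by
        apply Real.log_le_log
        · have : 0 < X := by omega
          exact_mod_cast this
        · exact_mod_cast hXhi.le
      rw [Real.log_pow] at h5
      push_cast at h5
      exact h5
    have hlog0 : 0 ≤ Real.log X := Real.log_natCast_nonneg X
    have hlen : lam * Real.log X ^ 2 + 2 ≤ Li κ c i := by
      have h5 : lamk c (ki κ c i) * Real.log X ^ 2 ≤ lamk c (ki κ c i) * (((i:ℝ) + 2) * Real.log 2) ^ 2 :=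
        mul_le_mul_of_nonneg_left (pow_le_pow_left₀ hlog0 hlogle 2) (lamk_pos hc _).le
      have h6 := Nat.le_ceil (lamk c (ki κ c i) * (((i:ℝ) + 2) * Real.log 2) ^ 2)
      have h7 : lam * Real.log X ^ 2 ≤ lamk c (ki κ c i) * Real.log X ^ 2 :=
        mul_le_mul_of_nonneg_right hlam2 (sq_nonneg _)
      unfold Li bl
      push_cast
      linarith
    have hB := BI_eq hFull.1 hFull.2
    refine ⟨j * Li κ c i, ?_, ?_⟩
    · have h5 : (((j + 1) * Li κ c i : ℕ) : ℝ) ≤ X := by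
        exact_mod_cast (le_trans hFull.2 hXlo)
      push_cast at h5 ⊢
      linarith
    · intro n hn1 hn2
      apply hFE (i, j) ω hωF n
      rw [hB, mem_Ico]
      refine ⟨hn1.le, ?_⟩
      have h5 : (n:ℝ) < (((j + 1) * Li κ c i : ℕ) : ℝ) := by
        push_cast at hn2 ⊢
        linarith
      exact_mod_cast h5

end Q198.CC
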