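import Pool.Agent.Q62.CC.Stm

/-!
# Project CC of helper62: the eigenfunctions for a weight (job CC-18)
-/

set_option autoImplicit false

open Set Filter Topology MeasureTheory
open scoped ENNReal ContDiff

namespace Pool.Agent.Q198.CC

open Pool.Agent.Q62.CC

theorem t_EIG (hp1 : S_HSB) (hp2 : S_INJ) : S_EIG := by
  intro m x₀ x₁ α β M c W
  have hsub : Icc α β ⊆ Ioo x₀ x₁ := fun x hx => ⟨lt_of_lt_of_le W.h0 hx.1, lt_of_le_of_lt hx.2 W.h1⟩
  have hmc : ContinuousOn m (Icc α β) := W.smooth.continuousOn.mono hsub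
  have hmpos : ∀ x ∈ Icc α β, 0 < m x := fun x hx => W.pos x (hsub hx)
  set r : ℝ → ℝ := fun x => √(m x) with hr
  have hrc : ContinuousOn r (Icc α β) := hmc.sqrt
  have hrpos : ∀ x ∈ Icc α β, 0 < r x := fun x hx => Real.sqrt_pos.2 (hmpos x hx)
  have hrr : ∀ x ∈ Icc α β, r x * r x = m x := fun x hx => Real.mul_self_sqrt (hmpos x hx).le
  have hGc : Continuous fun p : ℝ × ℝ => Gr α β p.1 p.2 := by
    unfold Gr
    fun_prop
  have hGs : ∀ x y, Gr α β x y = Gr α β y x := by
    intro x y
    unfold Gr
    rw [min_comm, max_comm]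
  have hae : ∀ {P : ℝ → Prop}, (∀ x ∈ Icc α β, P x) → ∀ᵐ x ∂(volume.restrict (Icc α β)), P x := by
    intro P h
    exact (ae_restrict_iff' measurableSet_Icc).2 (Eventually.of_forall h)
  have hKc : ContinuousOn (fun p : ℝ × ℝ => r p.1 * Gr α β p.1 p.2 * r p.2)
      (Icc α β ×ˢ Icc α β) := by
    refine ContinuousOn.mul (ContinuousOn.mul ?_ hGc.continuousOn) ?_
    · exact hrc.comp continuous_fst.continuousOn fun p hp => hp.1
    · exact hrc.comp continuous_snd.continuousOn fun p hp => hp.2
  obtain ⟨ι, hι, ψ, μ, hψc, hμ, hψe, hψn, hψo, hψp⟩ :=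
    hp1 α β (fun x y => r x * Gr α β x y * r y) W.hab hKc
      (by
        intro x _ y _
        show r x * Gr α β x y * r y = r y * Gr α β y x * r x
        rw [hGs x y]
        ring)
      (by
        intro g hg h0
        have hgi : IntegrableOn g (Icc α β) := hg.integrable one_le_two
        have hri : IntegrableOn (fun y => r y * g y) (Icc α β) :=
          hgi.continuousOn_mul hrc isCompact_Icc
        have hz : ∀ x ∈ Icc α β, ∫ y in Icc α β, Gr α β x y * (r y * g y) = 0 := by
          intro x hx
          have h1 := h0 x hx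
          have h2 : ∫ y in Icc α β, r x * Gr α β x y * r y * g y =
              r x * ∫ y in Icc α β, Gr α β x y * (r y * g y) := by
            rw [← integral_const_mul]
            exact integral_congr_ae (Eventually.of_forall fun y => by ring)
          rw [h2] at h1
          exact (mul_eq_zero.1 h1).resolve_left (hrpos x hx).ne'
        have h3 := hp2 α β (fun y => r y * g y) W.hab hri hz
        filter_upwards [h3, hae hrpos] with y hy hpy
        exact (mul_eq_zero.1 hy).resolve_left hpy.ne')
  refine ⟨ι, hι, fun i x => ψ i x / r x, μ, ?_, hμ, ?_, ?_, ?_, ?_⟩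
  · intro i
    exact (hψc i).div hrc fun x hx => (hrpos x hx).ne'
  · intro i x hx
    have h1 := hψe i x hx
    have h2 : ∫ y in Icc α β, r x * Gr α β x y * r y * ψ i y =
        r x * ∫ y in Icc α β, Gr α β x y * (m y * (ψ i y / r y)) := by
      rw [← integral_const_mul]
      refine integral_congr_ae (hae fun y hy => ?_)
      show r x * Gr α β x y * r y * ψ i y = r x * (Gr α β x y * (m y * (ψ i y / r y)))
      rw [← hrr y hy]
      field_simp [(hrpos y hy).ne']
    have h3 : r x * ∫ y in Icc α β, Gr α β x y * (m y * (ψ i y / r y)) = μ i * ψ i x := by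
      rw [← h2]
      exact h1
    have h4 := (hrpos x hx).ne'
    rw [eq_comm, mul_div_assoc', div_eq_iff h4, ← h3]
    ring
  · intro i
    rw [← hψn i]
    refine integral_congr_ae (hae fun y hy => ?_)
    show m y * (ψ i y / r y) ^ 2 = ψ i y ^ 2
    rw [← hrr y hy]
    field_simp [(hrpos y hy).ne']
  · intro i j hij
    rw [← hψo i j hij]
    refine integral_congr_ae (hae fun y hy => ?_)
    show m y * (ψ i y / r y * (ψ j y / r y)) = ψ i y * ψ j y
    rw [← hrr y hy]
    field_simp [(hrpos y hy).ne']
  · intro f hf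
    have hrf : MemLp (fun y => r y * f y) 2 (volume.restrict (Icc α β)) := by
      refine MemLp.of_le_mul (c := √M) hf ?_ (hae fun y hy => ?_)
      · exact (hrc.aestronglyMeasurable measurableSet_Icc).mul hf.aestronglyMeasurable
      · rw [norm_mul, Real.norm_of_nonneg (hrpos y hy).le]
        exact mul_le_mul_of_nonneg_right (Real.sqrt_le_sqrt (W.le y (hsub hy))) (norm_nonneg _)
    have h1 := hψp _ hrf
    have h2 : ∫ x in Icc α β, (r x * f x) ^ 2 = ∫ x in Icc α β, m x * f x ^ 2 := by
      refine integral_congr_ae (hae fun y hy => ?_)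
      show (r y * f y) ^ 2 = m y * f y ^ 2
      rw [← hrr y hy]
      ring
    have h3 : ∀ i, ∫ x in Icc α β, r x * f x * ψ i x =
        ∫ x in Icc α β, m x * (f x * (ψ i x / r x)) := by
      intro i
      refine integral_congr_ae (hae fun y hy => ?_)
      show r y * f y * ψ i y = m y * (f y * (ψ i y / r y))
      rw [← hrr y hy]
      field_simp [(hrpos y hy).ne']
    rw [h2] at h1
    have h4 : (fun i => (∫ x in Icc α β, m x * (f x * (ψ i x / r x))) ^ 2) =
        fun i => (∫ x in Icc α β, r x * f x * ψ i x) ^ 2 := by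
      funext i
      rw [h3 i]
    show HasSum (fun i => (∫ x in Icc α β, m x * (f x * (ψ i x / r x))) ^ 2) _
    rw [h4]
    exact h1

end Pool.Agent.Q198.CC
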