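import Pool.Agent.Q198.CC.C3

/-! # The absolute version of the maximum modulus inequality, for functions of a random set -/

set_option autoImplicit false

namespace Q198.CC

open Finset Complex

theorem mm_ineq {n D : ℕ} (hD : D ≤ n) {c : ℕ → ℝ} {y v B : ℝ} (hy0 : 0 < y) (hy1 : y ≤ 1)
    (hv0 : 0 < v) (hv1 : v < 1)
    (hB : ∀ z : ℂ, ‖z‖ = 1 → ‖(∑ k ∈ range (D + 1), (c k : ℂ) * (((y:ℂ) * z) ^ k *
      (1 + (y:ℂ) * z) ^ (D - k))) * (1 + (y:ℂ) * z) ^ (n - D)‖ ≤ B) :
    |c 0| * v ^ D * (1 + y) ^ n ≤ (1 + y * v ^ 2) ^ n * B := by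
  set a : ℝ := v * (1 + y) / (1 + y * v ^ 2) with ha
  have hden : 0 < 1 + y * v ^ 2 := by positivity
  have ha0 : 0 < a := by positivity
  have ha1 : a < 1 := by
    rw [ha, div_lt_one hden]
    nlinarith [mul_pos (sub_pos.2 hv1) (show 0 < 1 - y * v by nlinarith)]
  have hav : a / v * (1 + y * v ^ 2) = 1 + y := by
    rw [ha]
    field_simp
  set A : ℂ → ℂ := fun w => (a / v : ℝ) * (w + v) * (1 + (y * v : ℝ) * w) / (1 + (a:ℂ) * w) with hA
  set A' : ℂ → ℂ := fun w => (a / v : ℝ) * (1 + (v:ℂ) * w) * (1 + (y * v : ℝ) * w) / (1 + (a:ℂ) * w) with hA'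
  set F : ℂ → ℂ := fun w => (∑ k ∈ range (D + 1), (c k : ℂ) *
    (((y:ℂ) * w) ^ k * A w ^ (D - k))) * A' w ^ (n - D) with hF
  have hne : ∀ w : ℂ, ‖w‖ ≤ 1 → 1 + (a:ℂ) * w ≠ 0 := by
    intro w hw h
    have h1 : (a:ℂ) * w = -1 := by linear_combination h
    have h2 : ‖(a:ℂ) * w‖ = 1 := by rw [h1]; simp
    rw [norm_mul, norm_real, Real.norm_of_nonneg ha0.le] at h2
    nlinarith
  have hAd : DifferentiableOn ℂ A (Metric.closedBall 0 1) := by
    intro w hw
    rw [mem_closedBall_zero_iff] at hw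
    have := hne w hw
    refine DifferentiableAt.differentiableWithinAt ?_
    simp only [hA]
    fun_prop (disch := exact this)
  have hBd : DifferentiableOn ℂ A' (Metric.closedBall 0 1) := by
    intro w hw
    rw [mem_closedBall_zero_iff] at hw
    have := hne w hw
    refine DifferentiableAt.differentiableWithinAt ?_
    simp only [hA']
    fun_prop (disch := exact this)
  have hFd : DifferentiableOn ℂ F (Metric.closedBall 0 1) := by
    simp only [hF]
    apply DifferentiableOn.mul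
    · apply DifferentiableOn.fun_sum
      intro k _
      apply DifferentiableOn.const_mul
      apply DifferentiableOn.mul
      · fun_prop
      · exact hAd.pow _
    · exact hBd.pow _
  have hbd : ∀ w : ℂ, ‖w‖ = 1 → ‖F w‖ ≤ B := by
    intro w hw
    have h1 := hne w hw.le
    have h2 : ‖1 + (a:ℂ) * w‖ = ‖w + a‖ := norm_add_eq hw
    have h3 : ‖1 + (v:ℂ) * w‖ = ‖w + v‖ := norm_add_eq hw
    have h4 : w + (a:ℂ) ≠ 0 := by
      rw [← norm_pos_iff, ← h2, norm_pos_iff]
      exact h1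
    set z : ℂ := w * (1 + (a:ℂ) * w) / (w + a) with hz
    set b : ℂ := (w + a) / (1 + (a:ℂ) * w) with hb
    have hz1 : ‖z‖ = 1 := by
      rw [hz, norm_div, norm_mul, hw, h2, one_mul, div_self (norm_pos_iff.2 h4).ne']
    have hb1 : ‖b‖ = 1 := by
      rw [hb, norm_div, h2, div_self (norm_pos_iff.2 h4).ne']
    have hwz : w = z * b := by
      rw [hz, hb, div_mul_div_cancel₀ h4, mul_div_cancel_right₀ _ h1]
    have hAz : A w = (1 + (y:ℂ) * z) * b := by
      simp only [hA, hz, hb]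
      have hv' : (v:ℂ) ≠ 0 := by exact_mod_cast hv0.ne'
      have hav' : (a:ℂ) * (1 + (y:ℂ) * (v:ℂ) ^ 2) = (1 + (y:ℂ)) * v := by
        have : a * (1 + y * v ^ 2) = (1 + y) * v := by
          rw [ha]
          field_simp
        exact_mod_cast this
      push_cast
      field_simp
      linear_combination w * hav'
    have hBA : ‖A' w‖ = ‖1 + (y:ℂ) * z‖ := by
      have h5 : ‖A' w‖ = ‖A w‖ := by
        simp only [hA, hA', norm_div, norm_mul, h3]
      rw [h5, hAz, norm_mul, hb1, mul_one]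
    have hsum : ∑ k ∈ range (D + 1), (c k : ℂ) * (((y:ℂ) * w) ^ k * A w ^ (D - k)) =
        b ^ D * ∑ k ∈ range (D + 1), (c k : ℂ) *
          (((y:ℂ) * z) ^ k * (1 + (y:ℂ) * z) ^ (D - k)) := by
      rw [mul_sum]
      refine sum_congr rfl fun k hk => ?_
      rw [mem_range] at hk
      have e : b ^ D = b ^ k * b ^ (D - k) := by
        rw [← pow_add]
        congr 1
        omega
      have hyw : (y:ℂ) * w = (y * z) * b := by
        rw [hwz]
        ring
      rw [hAz, e, hyw, mul_pow _ b, mul_pow _ b]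
      ring
    have h6 : ‖F w‖ = ‖(∑ k ∈ range (D + 1), (c k : ℂ) * (((y:ℂ) * z) ^ k *
      (1 + (y:ℂ) * z) ^ (D - k))) * (1 + (y:ℂ) * z) ^ (n - D)‖ := by
      simp only [hF]
      rw [hsum, norm_mul, norm_mul, norm_pow, hb1, one_pow, one_mul, norm_pow, hBA, norm_mul, norm_pow]
    rw [h6]
    exact hB z hz1
  have hmax := Complex.norm_le_of_forall_mem_frontier_norm_le (U := Metric.ball (0:ℂ) 1) (f := F)
    (C := B) (z := 0) Metric.isBounded_ball
    (DifferentiableOn.diffContOnCl (by rw [closure_ball _ one_ne_zero]; exact hFd)) (by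
      intro w hw
      rw [frontier_ball _ one_ne_zero, mem_sphere_zero_iff_norm] at hw
      exact hbd w hw) (by
      apply subset_closure
      simp)
  have hF0 : F 0 = ((c 0 * (a ^ D * (a / v) ^ (n - D)) : ℝ) : ℂ) := by
    simp only [hF]
    rw [sum_eq_single 0]
    · simp only [hA, hA']
      have : (v:ℂ) ≠ 0 := by exact_mod_cast hv0.ne'
      push_cast
      simp [this]
      ring
    · intro k _ hk
      simp [hk]
    · intro h
      simp at h
  rw [hF0, norm_real, Real.norm_eq_abs, abs_mul, abs_of_nonneg (by positivity : 0 ≤ a ^ D * (a / v) ^ (n - D))] at hmax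
  have h8 : (1 + y) ^ n * v ^ D = (1 + y * v ^ 2) ^ n * (a ^ D * (a / v) ^ (n - D)) := by
    have e1 : a ^ D = (a / v) ^ D * v ^ D := by
      rw [← mul_pow, div_mul_cancel₀ _ hv0.ne']
    have e2 : (a / v) ^ n = (a / v) ^ D * (a / v) ^ (n - D) := by
      rw [← pow_add]
      congr 1
      omega
    rw [← hav, mul_pow, e1, e2]
    ring
  calc |c 0| * v ^ D * (1 + y) ^ n = (1 + y * v ^ 2) ^ n * (|c 0| * (a ^ D * (a / v) ^ (n - D))) := by
        linear_combination |c 0| * h8
    _ ≤ _ := mul_le_mul_of_nonneg_left hmax (by positivity)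

/-- `f` is a polynomial of degree at most `d` in the indicators of the elements of `I` -/
def IsPoly (I : Finset ℕ) (d : ℕ) (f : Finset ℕ → ℝ) : Prop :=
  ∃ c : Finset ℕ → ℝ, ∀ S ⊆ I, f S = ∑ T ∈ smallSets I d, c T * (if T ⊆ S then 1 else 0)

lemma mem_smallSets {I : Finset ℕ} {d : ℕ} {T : Finset ℕ} : T ∈ smallSets I d ↔ T ⊆ I ∧ T.card ≤ d := by
  unfold smallSets
  rw [mem_filter, mem_powerset]

lemma gen_set {J T : Finset ℕ} (hT : T ⊆ J) (Y : ℂ) :
    ∑ X ∈ J.powerset, Y ^ X.card * (if T ⊆ X then (1:ℂ) else 0) = Y ^ T.card * (1 + Y) ^ (J.card - T.card) := by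
  classical
  have h1 : ∏ n ∈ J, (Y + if n ∈ T then (0:ℂ) else 1) = Y ^ T.card * (1 + Y) ^ (J.card - T.card) := by
    rw [← prod_sdiff hT, mul_comm]
    congr 1
    · rw [prod_congr rfl (fun n hn => by rw [if_pos hn, add_zero]), prod_const]
    · rw [← card_sdiff_of_subset hT, prod_congr rfl (fun n hn => by rw [if_neg (mem_sdiff.1 hn).2, add_comm]),
        prod_const]
  rw [← h1, prod_add]
  refine sum_congr rfl fun X hX => ?_
  rw [mem_powerset] at hX
  rw [prod_const]
  congr 1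
  by_cases h : T ⊆ X
  · rw [if_pos h]
    symm
    apply prod_eq_one
    intro n hn
    rw [if_neg]
    exact fun h2 => (mem_sdiff.1 hn).2 (h h2)
  · rw [if_neg h]
    obtain ⟨n, hn, hnX⟩ := not_subset.1 h
    symm
    exact prod_eq_zero (mem_sdiff.2 ⟨hT hn, hnX⟩) (if_pos hn)

theorem set_ineq {J : Finset ℕ} {D : ℕ} (hD : D ≤ J.card) {q : Finset ℕ → ℝ} (hq : IsPoly J D q)
    {y v : ℝ} (hy0 : 0 < y) (hy1 : y ≤ 1) (hv0 : 0 < v) (hv1 : v < 1) :
    |q ∅| * v ^ D * (1 + y) ^ J.card ≤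
      (1 + y * v ^ 2) ^ J.card * ∑ X ∈ J.powerset, y ^ X.card * |q X| := by
  classical
  obtain ⟨c, hc⟩ := hq
  set C : ℕ → ℝ := fun k => ∑ T ∈ (smallSets J D).filter (fun T => T.card = k), c T with hC
  have hgen : ∀ Y : ℂ, ∑ X ∈ J.powerset, Y ^ X.card * ((q X : ℝ) : ℂ) =
      (∑ k ∈ range (D + 1), (C k : ℂ) * (Y ^ k * (1 + Y) ^ (D - k))) * (1 + Y) ^ (J.card - D) := by
    intro Y
    have h1 : ∀ X ∈ J.powerset, Y ^ X.card * ((q X : ℝ) : ℂ) =
        ∑ T ∈ smallSets J D, (c T : ℂ) * (Y ^ X.card * (if T ⊆ X then (1:ℂ) else 0)) := by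
      intro X hX
      rw [hc X (mem_powerset.1 hX)]
      push_cast
      rw [mul_sum]
      refine sum_congr rfl fun T _ => ?_
      split_ifs <;> push_cast <;> ring
    rw [sum_congr rfl h1, sum_comm]
    have h2 : ∀ T ∈ smallSets J D, ∑ X ∈ J.powerset, (c T : ℂ) * (Y ^ X.card * (if T ⊆ X then (1:ℂ) else 0)) =
        (c T : ℂ) * (Y ^ T.card * (1 + Y) ^ (D - T.card)) * (1 + Y) ^ (J.card - D) := by
      intro T hT
      rw [mem_smallSets] at hT
      rw [← mul_sum, gen_set hT.1]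
      have e : J.card - T.card = (D - T.card) + (J.card - D) := by
        have := card_le_card hT.1
        omega
      rw [e, pow_add]
      ring
    rw [sum_congr rfl h2, ← sum_mul]
    congr 1
    rw [← sum_fiberwise_of_maps_to (s := smallSets J D) (t := range (D + 1)) (g := fun T => T.card)
      (fun T hT => by
        rw [mem_smallSets] at hT
        rw [mem_range]
        omega)]
    refine sum_congr rfl fun k _ => ?_
    simp only [hC]
    push_cast
    rw [sum_mul]
    refine sum_congr rfl fun T hT => ?_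
    rw [(mem_filter.1 hT).2]
  have h0 : q ∅ = C 0 := by
    rw [hc ∅ (empty_subset _)]
    simp only [hC]
    rw [sum_filter]
    refine sum_congr rfl fun T _ => ?_
    by_cases h : T = ∅
    · subst h
      simp
    · have h3 : ¬ T ⊆ ∅ := fun h' => h (subset_empty.1 h')
      have h4 : T.card ≠ 0 := fun h' => h (card_eq_zero.1 h')
      rw [if_neg h3, if_neg h4, mul_zero]
  rw [h0]
  refine mm_ineq hD hy0 hy1 hv0 hv1 fun z hz => ?_
  rw [← hgen]
  refine (norm_sum_le _ _).trans (sum_le_sum fun X _ => ?_)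
  rw [norm_mul, norm_pow, norm_mul, hz, mul_one, norm_real, norm_real, Real.norm_of_nonneg hy0.le,
    Real.norm_eq_abs]

end Q198.CC
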