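import Pool.Agent.Q198.CC.L9

/-! # Every model has intervals of length `λ log² X` without elements for `λ < min(1, c/4)` -/

set_option autoImplicit false

namespace Q198.CC

open Finset MeasureTheory Filter Topology Q198.CI

theorem all_prob {Ω : Type*} [MeasurableSpace Ω] {P : Measure Ω} [IsProbabilityMeasure P]
    {κ : ℕ → ℕ} {E : ℕ → Set Ω} (hM : Model P κ E) {c lam : ℝ} (hl0 : 0 < lam) (hl1 : lam < 1)
    (hlc : lam < c / 4) (hκ : ∀ᶠ n : ℕ in atTop, c * Real.log n ≤ κ n) :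
    ∀ᶠ i : ℕ in atTop,
      P (⋂ j ∈ JJ (bl lam i) i, {ω | ∃ n ∈ Ico (j * bl lam i) ((j + 1) * bl lam i), ω ∈ E n}) ≤
        ENNReal.ofReal (1 / (i:ℝ) ^ 2) := by
  -- the constants
  obtain ⟨a, ha1, ha2, ha3⟩ : ∃ a : ℝ, lam < a ∧ a < 1 ∧ a < c / 4 := by
    obtain ⟨a, h1, h2⟩ := exists_between (lt_min hl1 hlc)
    exact ⟨a, h1, lt_of_lt_of_le h2 (min_le_left _ _), lt_of_lt_of_le h2 (min_le_right _ _)⟩
  have ha0 : 0 < a := by linarith
  have hc0 : 0 < c := by linarith
  set ε : ℝ := a - lam with hε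
  have hε0 : 0 < ε := by rw [hε]; linarith
  set r : ℝ := c / (4 * a) with hr
  have hr1 : 1 < r := by
    rw [hr, lt_div_iff₀ (by positivity)]
    linarith
  set θ : ℝ := (1 + r) / 2 with hθ
  have hθ1 : 1 < θ := by rw [hθ]; linarith
  have hθr : θ < r := by rw [hθ]; linarith
  have hθ0 : 0 < θ := by linarith
  set γ : ℝ := (c / 2) * ((θ - 1) / θ) - 2 * (θ - 1) * a with hγ
  have hγ0 : 0 < γ := by
    have h1 : γ = 2 * a * ((θ - 1) / θ) * (r - θ) := by
      rw [hγ, hr]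
      field_simp
      ring
    rw [h1]
    have : 0 < θ - 1 := by linarith
    have : 0 < r - θ := by linarith
    positivity
  have hl2 : 0 < Real.log 2 := Real.log_pos (by norm_num)
  have ht : Tendsto (fun i : ℕ => (i:ℝ) * Real.log 2) atTop atTop :=
    (tendsto_natCast_atTop_atTop).atTop_mul_const hl2
  obtain ⟨n₀, hn₀⟩ := eventually_atTop.1 hκ
  have e1 := ht.eventually (ev_sq ε (4 * lam + (lam + ε)) (4 * lam + 3) hε0)
  have e2 : ∀ᶠ t : ℝ in atTop, 256 * θ ^ 2 * t ^ 4 ≤ Real.exp (γ * t) := by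
    have h1 := isLittleO_pow_exp_pos_mul_atTop 4 hγ0
    have h2 := Asymptotics.isLittleO_iff.1 h1 (show (0:ℝ) < 1 / (256 * θ ^ 2) by positivity)
    filter_upwards [h2, eventually_gt_atTop 0] with t ht1 ht2
    rw [Real.norm_of_nonneg (by positivity), Real.norm_of_nonneg (Real.exp_pos _).le, div_mul_eq_mul_div,
      one_mul, le_div_iff₀ (by positivity)] at ht1
    linarith
  have e3 : ∀ᶠ t : ℝ in atTop, 32 * t ^ 4 ≤ Real.exp ((1 - a) * t) := by
    have h1 := isLittleO_pow_exp_pos_mul_atTop 4 (show 0 < 1 - a by linarith)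
    have h2 := Asymptotics.isLittleO_iff.1 h1 (show (0:ℝ) < 1 / 32 by norm_num)
    filter_upwards [h2, eventually_gt_atTop 0] with t ht1 ht2
    rw [Real.norm_of_nonneg (by positivity), Real.norm_of_nonneg (Real.exp_pos _).le] at ht1
    linarith
  have e2' := ht.eventually e2
  have e3' := ht.eventually e3
  have e4 := ht.eventually_ge_atTop (8 / c + 4)
  filter_upwards [e1, e2', e3', e4, eventually_ge_atTop n₀, eventually_ge_atTop 6] with i h1 h2 h3 h4 h5 h6
  set t : ℝ := (i:ℝ) * Real.log 2 with htdef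
  have hi6 : (6:ℝ) ≤ i := by exact_mod_cast h6
  have hlog2a : (1:ℝ) / 2 ≤ Real.log 2 := by
    have := Real.log_two_gt_d9
    linarith
  have hlog2b : Real.log 2 ≤ 1 := by
    have := Real.log_two_lt_d9
    linarith
  have ht4 : 4 ≤ t := by
    have : 0 < 8 / c := by positivity
    linarith
  have htc : 8 ≤ c * t := by
    have h7 : c * (8 / c + 4) ≤ c * t := mul_le_mul_of_nonneg_left h4 hc0.le
    have h8 : c * (8 / c + 4) = 8 + 4 * c := by
      field_simp
    linarith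
  have hit : (i:ℝ) ≤ 2 * t := by rw [htdef]; nlinarith
  set L : ℕ := bl lam i with hL
  have hLle : (L:ℝ) ≤ lam * (t + 2) ^ 2 + 3 := by
    rw [hL]
    unfold bl
    push_cast
    have h7 := (Nat.ceil_lt_add_one (show 0 ≤ lam * (((i:ℝ) + 2) * Real.log 2) ^ 2 by positivity)).le
    have h8 : lam * (((i:ℝ) + 2) * Real.log 2) ^ 2 ≤ lam * (t + 2) ^ 2 := by
      apply mul_le_mul_of_nonneg_left _ hl0.le
      apply pow_le_pow_left₀ (by positivity)
      rw [htdef]
      nlinarith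
    linarith
  have hLpos : 0 < L := by
    rw [hL]
    unfold bl
    omega
  have hLr : (1:ℝ) ≤ L := by exact_mod_cast hLpos
  have hLt : (L:ℝ) ≤ a * (t * (t - 1)) := by
    have h7 : lam + ε = a := by rw [hε]; ring
    rw [h7] at h1
    have h8 : ε = a - lam := hε
    nlinarith
  have hLt2 : (L:ℝ) ≤ t ^ 2 := by nlinarith
  have hexp : Real.exp t = 2 ^ i := by
    rw [htdef, mul_comm, Real.exp_mul, Real.exp_log (by norm_num), Real.rpow_natCast]
  have h4L : 4 * L ≤ 2 ^ i := by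
    have h7 : 4 * (L:ℝ) ≤ 2 ^ i := by
      calc 4 * (L:ℝ) ≤ 32 * t ^ 4 := by nlinarith
        _ ≤ Real.exp ((1 - a) * t) := h3
        _ ≤ Real.exp t := Real.exp_le_exp.2 (by nlinarith)
        _ = 2 ^ i := hexp
    exact_mod_cast h7
  -- the degree
  set m : ℕ := ⌊c * t / 2⌋₊ - 1 with hm
  have hfl : 1 ≤ ⌊c * t / 2⌋₊ := Nat.le_floor (by push_cast; linarith)
  have hm1 : (m:ℝ) ≤ c * t / 2 - 1 := by
    rw [hm, Nat.cast_sub hfl]
    have := Nat.floor_le (show 0 ≤ c * t / 2 by positivity)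
    push_cast
    linarith
  have hm2 : c * t / 2 - 2 ≤ (m:ℝ) := by
    rw [hm, Nat.cast_sub hfl]
    have := Nat.lt_floor_add_one (c * t / 2)
    push_cast
    linarith
  -- the blocks
  set I : ℕ → Finset ℕ := fun j => Ico (j * L) ((j + 1) * L) with hI
  have hIsc : ∀ j ∈ JJ L i, ∀ n ∈ I j, 3 ≤ n ∧ t ≤ Real.log n ∧ n₀ ≤ n := by
    intro j hj n hn
    simp only [hI, mem_Ico] at hn
    obtain ⟨h7, h8⟩ := JJ_full hLpos hj
    have h9 : 2 ^ i ≤ n := h7.trans hn.1
    have h11 : i < 2 ^ i := Nat.lt_two_pow_self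
    refine ⟨by omega, ?_, by omega⟩
    have h12 : Real.log ((2:ℝ) ^ i) ≤ Real.log n := by
      apply Real.log_le_log (by positivity)
      exact_mod_cast h9
    rwa [Real.log_pow] at h12
  have hcard : ∀ j, (I j).card = L := by
    intro j
    simp only [hI, Nat.card_Ico, add_mul, one_mul, Nat.add_sub_cancel_left]
  have hcpeq : ∀ n, 3 ≤ n → cp n = 1 / Real.log n := fun n hn => by
    unfold cp
    rw [if_pos hn]
  have hcpt : ∀ j ∈ JJ L i, ∀ n ∈ I j, cp n ≤ 1 / t := by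
    intro j hj n hn
    obtain ⟨h7, h8, _⟩ := hIsc j hj n hn
    rw [hcpeq n h7]
    exact one_div_le_one_div_of_le (by linarith) h8
  have ht1 : 1 / t < 1 := by
    rw [div_lt_one (by linarith)]
    linarith
  have hcp1 : ∀ j ∈ JJ L i, ∀ n ∈ I j, cp n < 1 := fun j hj n hn => lt_of_le_of_lt (hcpt j hj n hn) ht1
  have hdis : ∀ j ∈ JJ L i, ∀ k ∈ JJ L i, j ≠ k → Disjoint (I j) (I k) := by
    intro j _ k _ hjk
    rw [disjoint_left]
    intro n hn hn'
    simp only [hI, mem_Ico] at hn hn'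
    apply hjk
    have h7 : n / L = j := Nat.div_eq_of_lt_le hn.1 hn.2
    have h8 : n / L = k := Nat.div_eq_of_lt_le hn'.1 hn'.2
    rw [← h7, ← h8]
  have hsum : ∀ j ∈ JJ L i, ∑ n ∈ I j, cp n ≤ a * t := by
    intro j hj
    have h8 := sum_le_card_nsmul (I j) cp (1 / t) (hcpt j hj)
    rw [hcard, nsmul_eq_mul] at h8
    refine h8.trans ?_
    rw [mul_one_div, div_le_iff₀ (by linarith)]
    nlinarith
  have hT : ∀ j ∈ JJ L i, ∀ k ∈ JJ L i, ∀ T ⊆ I j ∪ I k, T.card ≤ 2 * m + 1 →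
      P (⋂ n ∈ T, E n) = ENNReal.ofReal (∏ n ∈ T, cp n) := by
    intro j hj k hk T hT hTc
    have h7 : ∀ n ∈ T, 3 ≤ n ∧ t ≤ Real.log n ∧ n₀ ≤ n := by
      intro n hn
      rcases mem_union.1 (hT hn) with h | h
      · exact hIsc j hj n h
      · exact hIsc k hk n h
    rw [hM.indep T fun n hn => ⟨(h7 n hn).1, ?_⟩]
    · congr 1
      exact prod_congr rfl fun n hn => (hcpeq n (h7 n hn).1).symm
    · have h8 := hn₀ n (h7 n hn).2.2
      have h9 : (T.card : ℝ) ≤ 2 * m + 1 := by exact_mod_cast hTc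
      have h10 := (h7 n hn).2.1
      have h12 : c * t ≤ c * Real.log n := mul_le_mul_of_nonneg_left h10 hc0.le
      have h11 : (T.card : ℝ) ≤ κ n := by linarith
      exact_mod_cast h11
  -- the tail
  set τ₀ : ℝ := θ ^ 2 * Real.exp (-(γ * t)) with hτ₀
  have hτ₀0 : 0 < τ₀ := by positivity
  have hθm : Real.exp ((c * t / 2) * ((θ - 1) / θ)) ≤ θ ^ 2 * θ ^ m := by
    have h7 : (θ - 1) / θ ≤ Real.log θ := by
      have := Real.one_sub_inv_le_log_of_pos hθ0
      have h8 : 1 - θ⁻¹ = (θ - 1) / θ := by field_simp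
      linarith
    have h8 : 0 ≤ Real.log θ := Real.log_nonneg hθ1.le
    rw [← pow_add, ← Real.log_le_log_iff (Real.exp_pos _) (by positivity), Real.log_exp, Real.log_pow]
    push_cast
    calc c * t / 2 * ((θ - 1) / θ) ≤ c * t / 2 * Real.log θ := mul_le_mul_of_nonneg_left h7 (by positivity)
      _ ≤ (2 + m) * Real.log θ := mul_le_mul_of_nonneg_right (by linarith) h8
  have hτb : ∀ s : ℝ, s ≤ 2 * (a * t) → Real.exp ((θ - 1) * s) / θ ^ m ≤ τ₀ := by
    intro s hs
    rw [div_le_iff₀ (by positivity)]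
    have h7 : Real.exp ((θ - 1) * s) ≤ Real.exp ((θ - 1) * (2 * (a * t))) := by
      apply Real.exp_le_exp.2
      exact mul_le_mul_of_nonneg_left hs (by linarith)
    have h8 : Real.exp ((θ - 1) * (2 * (a * t))) = Real.exp (-(γ * t)) * Real.exp ((c * t / 2) * ((θ - 1) / θ)) := by
      rw [← Real.exp_add]
      congr 1
      rw [hγ]
      ring
    rw [h8] at h7
    refine h7.trans ?_
    calc Real.exp (-(γ * t)) * Real.exp ((c * t / 2) * ((θ - 1) / θ)) ≤ Real.exp (-(γ * t)) * (θ ^ 2 * θ ^ m) := by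
          gcongr
      _ = τ₀ * θ ^ m := by rw [hτ₀]; ring
  set τ : ℝ := 2 * L * τ₀ with hτ
  have hτ0 : 0 < τ := by positivity
  have hττ : 2 * τ₀ ≤ τ := by
    rw [hτ]
    nlinarith
  have hτi : 16 * τ ≤ 1 / 2 * (1 / (i:ℝ) ^ 2) := by
    have hi0 : (0:ℝ) < i := by linarith
    rw [mul_one_div, le_div_iff₀ (by positivity)]
    have h7 : 256 * θ ^ 2 * t ^ 4 * Real.exp (-(γ * t)) ≤ 1 := by
      calc 256 * θ ^ 2 * t ^ 4 * Real.exp (-(γ * t)) ≤ Real.exp (γ * t) * Real.exp (-(γ * t)) := by gcongr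
        _ = 1 := by rw [← Real.exp_add]; simp
    calc 16 * τ * (i:ℝ) ^ 2 ≤ 16 * (2 * t ^ 2 * τ₀) * (2 * t) ^ 2 := by
          rw [hτ]
          gcongr
      _ = 1 / 2 * (256 * θ ^ 2 * t ^ 4 * Real.exp (-(γ * t))) := by
          rw [hτ₀]
          ring
      _ ≤ 1 / 2 * 1 := by gcongr
      _ = 1 / 2 := by ring
  have hi2 : 1 / (i:ℝ) ^ 2 ≤ 1 := by
    rw [div_le_one (by positivity)]
    exact one_le_pow₀ (by linarith)
  have hτ2 : τ ≤ 1 / 2 := by linarith
  have hτ₀2 : τ₀ ≤ 1 / 2 := by linarith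
  -- the events
  set A : ℕ → Set Ω := fun j => ⋂ n ∈ I j, (E n)ᶜ with hA
  have hAm : ∀ j, MeasurableSet (A j) := fun j => Finset.measurableSet_biInter _ fun n _ => (hM.meas n).compl
  set q : ℕ → ℝ := fun j => ∏ n ∈ I j, (1 - cp n) with hq
  have hq0 : ∀ j ∈ JJ L i, 0 < q j := fun j hj => prod_pos fun n hn => by linarith [hcp1 j hj n hn]
  have hlow : ∀ j ∈ JJ L i, q j * (1 - τ) ≤ P.real (A j) := by
    intro j hj
    obtain ⟨v, hv, hve⟩ := meas_law P hM.meas (I := I j) (K := 2 * m + 1) (p := cp) (fun n _ => cp_nonneg n)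
      (fun T hTI hTc => hT j hj j hj T (hTI.trans subset_union_left) hTc)
    have h7 := law_lower hv (fun n _ => cp_nonneg n) (hcp1 j hj) hθ1.le (hτb _ (by
      have := hsum j hj
      have h8 : 0 ≤ a * t := by positivity
      linarith)) hτ₀2
    rw [hcard] at h7
    rw [hve]
    exact h7
  have hup : ∀ j ∈ JJ L i, ∀ k ∈ JJ L i, j ≠ k → P.real (A j ∩ A k) ≤ q j * q k * (1 + 2 * τ) := by
    intro j hj k hk hjk
    have hd := hdis j hj k hk hjk
    have hcpU : ∀ n ∈ I j ∪ I k, cp n < 1 := by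
      intro n hn
      rcases mem_union.1 hn with h | h
      · exact hcp1 j hj n h
      · exact hcp1 k hk n h
    have hsU : ∑ n ∈ I j ∪ I k, cp n ≤ 2 * (a * t) := by
      rw [sum_union hd]
      linarith [hsum j hj, hsum k hk]
    have h7 := DD_ge (I := I j ∪ I k) (p := cp) (fun n _ => cp_nonneg n) hcpU m hθ1.le
    have h8 := hτb _ hsU
    have hprod : ∏ n ∈ I j ∪ I k, (1 - cp n)⁻¹ = (q j * q k)⁻¹ := by
      rw [prod_inv_distrib, prod_union hd]
    have hqq : 0 < q j * q k := mul_pos (hq0 j hj) (hq0 k hk)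
    rw [hprod] at h7
    have h9 : (q j * q k)⁻¹ * (1 - τ₀) ≤ DD (I j ∪ I k) m cp := by
      refine le_trans ?_ h7
      apply mul_le_mul_of_nonneg_left (by linarith) (by positivity)
    have h10 := meas_upper P hM.meas (I := I j ∪ I k) (m := m) (p := cp) (fun n _ => cp_nonneg n) hcpU
      (fun T hTU hTc => hT j hj k hk T hTU (by omega)) (s := (q j * q k)⁻¹ * (1 - τ₀))
      (mul_pos (by positivity) (by linarith)) h9
    have h11 : A j ∩ A k = ⋂ n ∈ I j ∪ I k, (E n)ᶜ := by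
      ext ω
      simp only [hA, Set.mem_inter_iff, Set.mem_iInter, mem_union]
      constructor
      · rintro ⟨h12, h13⟩ n (h14 | h14)
        · exact h12 n h14
        · exact h13 n h14
      · intro h12
        exact ⟨fun n hn => h12 n (Or.inl hn), fun n hn => h12 n (Or.inr hn)⟩
    rw [h11, measureReal_def]
    refine (ENNReal.toReal_le_of_le_ofReal (by
      have : 0 < 1 - τ₀ := by linarith
      positivity) h10).trans ?_
    have h12 : 1 / ((q j * q k)⁻¹ * (1 - τ₀)) = q j * q k * (1 / (1 - τ₀)) := by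
      have : 1 - τ₀ ≠ 0 := by linarith
      field_simp
    rw [h12]
    apply mul_le_mul_of_nonneg_left _ hqq.le
    rw [div_le_iff₀ (by linarith)]
    nlinarith
  have hJc := JJ_card hLpos h4L
  have hJ0 : (JJ L i).Nonempty := by
    rw [← card_pos]
    have h7 : (0:ℝ) < (JJ L i).card := lt_of_lt_of_le (by positivity) hJc
    exact_mod_cast h7
  have key := second_ind (P := P) (B := JJ L i) hAm hq0 hτ0.le hτ2 hlow hup hJ0
  -- the sum of the probabilities
  have hqge : ∀ j ∈ JJ L i, Real.exp (-(a * t)) ≤ q j := by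
    intro j hj
    have h7 : ∀ n ∈ I j, Real.exp (-(1 / (t - 1))) ≤ 1 - cp n := by
      intro n hn
      have h8 := hcpt j hj n hn
      have h9 : cp n < 1 := lt_of_le_of_lt h8 ht1
      refine le_trans (Real.exp_le_exp.2 (neg_le_neg ?_)) (one_sub_ge h9)
      rw [div_le_div_iff₀ (by linarith) (by linarith)]
      have h10 : t * cp n ≤ 1 := by
        rw [le_div_iff₀ (by linarith)] at h8
        linarith
      nlinarith
    have h8 : ∏ _n ∈ I j, Real.exp (-(1 / (t - 1))) ≤ ∏ n ∈ I j, (1 - cp n) :=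
      Finset.prod_le_prod (fun _ _ => (Real.exp_pos _).le) h7
    refine le_trans ?_ h8
    rw [prod_const, hcard, ← Real.exp_nat_mul]
    apply Real.exp_le_exp.2
    rw [mul_neg, neg_le_neg_iff, mul_one_div, div_le_iff₀ (by linarith)]
    linarith
  have hsq : Real.exp ((1 - a) * t) / (2 * L) ≤ ∑ j ∈ JJ L i, q j := by
    have h7 := card_nsmul_le_sum (JJ L i) q _ hqge
    rw [nsmul_eq_mul] at h7
    refine le_trans ?_ h7
    have h8 : Real.exp t / (2 * L) ≤ (JJ L i).card := by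
      rw [hexp]
      exact hJc
    calc Real.exp ((1 - a) * t) / (2 * L) = Real.exp t / (2 * L) * Real.exp (-(a * t)) := by
          rw [div_mul_eq_mul_div, ← Real.exp_add]
          congr 2
          ring
      _ ≤ _ := mul_le_mul_of_nonneg_right h8 (Real.exp_pos _).le
  have h2s : 2 / (∑ j ∈ JJ L i, q j) ≤ 1 / 2 * (1 / (i:ℝ) ^ 2) := by
    have hi0 : (0:ℝ) < i := by linarith
    have h7 : 0 < Real.exp ((1 - a) * t) / (2 * L) := by positivity
    refine (div_le_div_of_nonneg_left (by norm_num) h7 hsq).trans ?_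
    rw [div_div_eq_mul_div, div_le_iff₀ (Real.exp_pos _), mul_one_div, div_mul_eq_mul_div, le_div_iff₀ (by positivity)]
    calc 2 * (2 * (L:ℝ)) * (i:ℝ) ^ 2 ≤ 2 * (2 * t ^ 2) * (2 * t) ^ 2 := by gcongr
      _ = 1 / 2 * (32 * t ^ 4) := by ring
      _ ≤ _ := by gcongr
  have hev : (⋂ j ∈ JJ L i, {ω | ∃ n ∈ Ico (j * L) ((j + 1) * L), ω ∈ E n}) = ⋂ j ∈ JJ L i, (A j)ᶜ := by
    ext ω
    simp only [hA, hI, Set.mem_iInter, Set.mem_ofPred_eq, Set.mem_compl_iff, not_forall, not_not]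
    constructor
    · intro h j hj
      obtain ⟨n, hn, hnE⟩ := h j hj
      exact ⟨n, hn, hnE⟩
    · intro h j hj
      obtain ⟨n, hn, hnE⟩ := h j hj
      exact ⟨n, hn, hnE⟩
  rw [hev, ← ofReal_measureReal]
  apply ENNReal.ofReal_le_ofReal
  linarith

theorem all_lower {Ω : Type*} [MeasurableSpace Ω] {P : Measure Ω} [IsProbabilityMeasure P]
    {κ : ℕ → ℕ} {E : ℕ → Set Ω} (hM : Model P κ E) {c : ℝ}
    (hκ : ∀ ε : ℝ, 0 < ε → ∀ᶠ n : ℕ in atTop, (c - ε) * Real.log n ≤ κ n) :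
    ∀ᵐ ω ∂P, ∀ lam : ℝ, lam < min 1 (c / 4) → ∀ᶠ X : ℕ in atTop,
        ∃ x : ℕ, (x:ℝ) + lam * Real.log X ^ 2 ≤ X ∧
          ∀ n : ℕ, x < n → (n:ℝ) ≤ x + lam * Real.log X ^ 2 → ω ∉ E n := by
  have hmain : ∀ l : ℝ, l < min 1 (c / 4) → ∀ᵐ ω ∂P, ∀ᶠ X : ℕ in atTop,
        ∃ x : ℕ, (x:ℝ) + l * Real.log X ^ 2 ≤ X ∧
          ∀ n : ℕ, x < n → (n:ℝ) ≤ x + l * Real.log X ^ 2 → ω ∉ E n := by
    intro l hl
    rcases le_or_gt l 0 with hl0 | hl0
    · refine Eventually.of_forall fun ω => Eventually.of_forall fun X => ⟨0, ?_, ?_⟩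
      · have h1 : l * Real.log X ^ 2 ≤ 0 := mul_nonpos_of_nonpos_of_nonneg hl0 (sq_nonneg _)
        have h2 : (0:ℝ) ≤ X := Nat.cast_nonneg X
        push_cast
        linarith
      · intro n hn hn2
        exfalso
        have h1 : l * Real.log X ^ 2 ≤ 0 := mul_nonpos_of_nonpos_of_nonneg hl0 (sq_nonneg _)
        have h2 : (0:ℝ) < n := by exact_mod_cast hn
        push_cast at hn2
        linarith
    · have hl1 : l < 1 := lt_of_lt_of_le hl (min_le_left _ _)
      have hlc : l < c / 4 := lt_of_lt_of_le hl (min_le_right _ _)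
      have hprob := all_prob hM (c := c - 2 * (c / 4 - l)) hl0 hl1 (by linarith)
        (hκ (2 * (c / 4 - l)) (by linarith))
      obtain ⟨i₀, hi₀⟩ := eventually_atTop.1 hprob
      set A : ℕ → Set Ω := fun i => if i₀ ≤ i then
        ⋂ j ∈ JJ (bl l i) i, {ω | ∃ n ∈ Ico (j * bl l i) ((j + 1) * bl l i), ω ∈ E n} else ∅ with hA
      have hPA : ∀ i, P (A i) ≤ ENNReal.ofReal (1 / (i:ℝ) ^ 2) := by
        intro i
        simp only [hA]
        split_ifs with hi
        · exact hi₀ i hi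
        · simp
      have hsum : Summable (fun i : ℕ => 1 / (i:ℝ) ^ 2) := Real.summable_one_div_nat_pow.2 (by norm_num)
      have h3 : ∑' i, P (A i) ≠ ⊤ := ne_top_of_le_ne_top hsum.tsum_ofReal_ne_top (ENNReal.tsum_le_tsum hPA)
      filter_upwards [ae_eventually_notMem h3] with ω hω
      have hgood : ∀ᶠ i : ℕ in atTop, ∃ j ∈ JJ (bl l i) i,
          ∀ n ∈ Ico (j * bl l i) ((j + 1) * bl l i), ω ∉ E n := by
        filter_upwards [hω, eventually_ge_atTop i₀] with i hi hi3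
        simp only [hA, if_pos hi3, Set.mem_iInter, not_forall, Set.mem_ofPred_eq, not_exists, not_and] at hi
        obtain ⟨j, hj, h⟩ := hi
        exact ⟨j, hj, h⟩
      obtain ⟨i₁, hi₁⟩ := eventually_atTop.1 hgood
      filter_upwards [eventually_ge_atTop (2 ^ (i₁ + 1))] with X hX
      have hX0 : X ≠ 0 := by
        have : 0 < 2 ^ (i₁ + 1) := by positivity
        omega
      have hlogX : i₁ + 1 ≤ Nat.log 2 X := (Nat.le_log_iff_pow_le (by norm_num) hX0).2 hX
      obtain ⟨i, hi⟩ : ∃ i, Nat.log 2 X = i + 1 := ⟨Nat.log 2 X - 1, by omega⟩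
      obtain ⟨j, hj, hfree⟩ := hi₁ i (by omega)
      have hLpos : 0 < bl l i := by
        unfold bl
        omega
      obtain ⟨hF1, hF2⟩ := JJ_full hLpos hj
      have hXlo : 2 ^ (i + 1) ≤ X := by
        rw [← hi]
        exact Nat.pow_log_le_self 2 hX0
      have hXhi : X < 2 ^ (i + 2) := by
        have := Nat.lt_pow_succ_log_self (b := 2) (by norm_num) X
        rw [hi] at this
        exact this
      have hlogle : Real.log X ≤ ((i:ℝ) + 2) * Real.log 2 := by
        have h5 : Real.log X ≤ Real.log ((2:ℝ) ^ (i + 2)) := by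
          apply Real.log_le_log
          · have : 0 < X := by omega
            exact_mod_cast this
          · exact_mod_cast hXhi.le
        rw [Real.log_pow] at h5
        push_cast at h5
        exact h5
      have hlog0 : 0 ≤ Real.log X := Real.log_natCast_nonneg X
      have hlen : l * Real.log X ^ 2 + 2 ≤ bl l i := by
        have h5 : l * Real.log X ^ 2 ≤ l * (((i:ℝ) + 2) * Real.log 2) ^ 2 :=
          mul_le_mul_of_nonneg_left (pow_le_pow_left₀ hlog0 hlogle 2) hl0.le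
        have h6 := Nat.le_ceil (l * (((i:ℝ) + 2) * Real.log 2) ^ 2)
        unfold bl
        push_cast
        linarith
      refine ⟨j * bl l i, ?_, ?_⟩
      · have h5 : (((j + 1) * bl l i : ℕ) : ℝ) ≤ X := by
          exact_mod_cast (le_trans hF2 hXlo)
        push_cast at h5 ⊢
        linarith
      · intro n hn1 hn2
        apply hfree
        rw [mem_Ico]
        refine ⟨hn1.le, ?_⟩
        have h5 : (n:ℝ) < (((j + 1) * bl l i : ℕ) : ℝ) := by
          push_cast at hn2 ⊢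
          linarith
        exact_mod_cast h5
  -- all constants at once
  set lk : ℕ → ℝ := fun k => min 1 (c / 4) - 1 / ((k:ℝ) + 1) with hlk
  have hall : ∀ᵐ ω ∂P, ∀ k : ℕ, ∀ᶠ X : ℕ in atTop,
        ∃ x : ℕ, (x:ℝ) + lk k * Real.log X ^ 2 ≤ X ∧
          ∀ n : ℕ, x < n → (n:ℝ) ≤ x + lk k * Real.log X ^ 2 → ω ∉ E n := by
    rw [ae_all_iff]
    intro k
    apply hmain
    simp only [hlk]
    have : (0:ℝ) < 1 / ((k:ℝ) + 1) := by positivity
    linarith
  filter_upwards [hall] with ω hω lam hlam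
  obtain ⟨k, hk⟩ := exists_nat_one_div_lt (show 0 < min 1 (c / 4) - lam by linarith)
  filter_upwards [hω k] with X hX
  obtain ⟨x, hx1, hx2⟩ := hX
  have h1 : lam ≤ lk k := by
    simp only [hlk]
    linarith
  have h2 : lam * Real.log X ^ 2 ≤ lk k * Real.log X ^ 2 := mul_le_mul_of_nonneg_right h1 (sq_nonneg _)
  exact ⟨x, by linarith, fun n hn1 hn2 => hx2 n hn1 (by linarith)⟩

end Q198.CC
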