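import Pool.Agent.Q198.CC.L5
import Pool.Agent.Q198.CC.C7

/-! # The limit superior of the normalised gaps, and the constant -/

set_option autoImplicit false

namespace Q198.CC

open Finset MeasureTheory Filter Topology Q198.CI

/-- the limit superior of the gaps of `A`, divided by the square of the logarithm -/
noncomputable def LC (A : Set ℕ) : EReal :=
  limsup (fun k : ℕ => ((((Nat.nth (· ∈ A) (k + 1) : ℝ) - Nat.nth (· ∈ A) k) /
    Real.log (Nat.nth (· ∈ A) k) ^ 2 : ℝ) : EReal)) atTop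

lemma inf_of_upper {A : Set ℕ} {lam : ℝ}
    (h : ∀ᶠ x : ℕ in atTop, ∃ n : ℕ, x < n ∧ (n:ℝ) ≤ x + lam * Real.log x ^ 2 ∧ n ∈ A) : A.Infinite := by
  obtain ⟨x₀, hx₀⟩ := eventually_atTop.1 h
  rw [Set.infinite_iff_exists_gt]
  intro a
  obtain ⟨n, hn, _, hnA⟩ := hx₀ (max x₀ a) (le_max_left _ _)
  exact ⟨n, hnA, lt_of_le_of_lt (le_max_right _ _) hn⟩

lemma LC_le {A : Set ℕ} {lam : ℝ}
    (h : ∀ᶠ x : ℕ in atTop, ∃ n : ℕ, x < n ∧ (n:ℝ) ≤ x + lam * Real.log x ^ 2 ∧ n ∈ A) :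
    LC A ≤ (lam : EReal) := by
  have hinf := inf_of_upper h
  have hmono : StrictMono (Nat.nth (· ∈ A)) := Nat.nth_strictMono hinf
  obtain ⟨x₀, hx₀⟩ := eventually_atTop.1 h
  apply limsup_le_of_le (by isBoundedDefault)
  filter_upwards [eventually_ge_atTop (max x₀ 2)] with k hk
  have hk1 : x₀ ≤ Nat.nth (· ∈ A) k := ((le_max_left _ _).trans hk).trans (hmono.id_le k)
  have hk2 : 2 ≤ Nat.nth (· ∈ A) k := ((le_max_right _ _).trans hk).trans (hmono.id_le k)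
  obtain ⟨n, hn1, hn2, hnA⟩ := hx₀ _ hk1
  have h1 : Nat.nth (· ∈ A) (k + 1) ≤ n := by
    classical
    have h2 : Nat.nth (· ∈ A) (Nat.count (· ∈ A) n) = n := Nat.nth_count (p := (· ∈ A)) hnA
    rw [← h2] at hn1 ⊢
    exact hmono.monotone (hmono.lt_iff_lt.1 hn1)
  have h2 : (Nat.nth (· ∈ A) (k + 1) : ℝ) ≤ n := by exact_mod_cast h1
  have hlog : 0 < Real.log (Nat.nth (· ∈ A) k) := Real.log_pos (by
    have : (2:ℝ) ≤ (Nat.nth (· ∈ A) k : ℝ) := by exact_mod_cast hk2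
    linarith)
  rw [EReal.coe_le_coe_iff, div_le_iff₀ (by positivity)]
  linarith

lemma le_LC {A : Set ℕ} (hinf : A.Infinite) {lam : ℝ} (hlam : 0 < lam)
    (h : ∀ᶠ X : ℕ in atTop, ∃ x : ℕ, (x:ℝ) + lam * Real.log X ^ 2 ≤ X ∧
      ∀ n : ℕ, x < n → (n:ℝ) ≤ x + lam * Real.log X ^ 2 → n ∉ A) : (lam : EReal) ≤ LC A := by
  classical
  have hmono : StrictMono (Nat.nth (· ∈ A)) := Nat.nth_strictMono hinf
  have hmem : ∀ k, Nat.nth (· ∈ A) k ∈ A := fun k => Nat.nth_mem_of_infinite hinf k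
  apply le_limsup_of_frequently_le _ (by isBoundedDefault)
  rw [frequently_atTop]
  intro k₀
  set k₁ : ℕ := max k₀ 2 with hk₁
  have hlt : Tendsto (fun X : ℕ => lam * Real.log X ^ 2) atTop atTop :=
    ((tendsto_pow_atTop (two_ne_zero)).comp tendsto_log_nat').const_mul_atTop hlam
  obtain ⟨X, ⟨x, hx1, hx2⟩, hX2⟩ := (h.and (hlt.eventually_ge_atTop (Nat.nth (· ∈ A) k₁ : ℝ))).exists
  have hax : Nat.nth (· ∈ A) k₁ ≤ x := by
    by_contra hcon
    rw [not_le] at hcon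
    refine hx2 _ hcon ?_ (hmem k₁)
    have : (0:ℝ) ≤ x := Nat.cast_nonneg x
    linarith
  have hcount : k₁ + 1 ≤ Nat.count (· ∈ A) (x + 1) := by
    have h1 : Nat.count (· ∈ A) (Nat.nth (· ∈ A) k₁ + 1) = k₁ + 1 := Nat.count_nth_succ_of_infinite hinf k₁
    rw [← h1]
    exact Nat.count_monotone _ (by omega)
  obtain ⟨k, hk⟩ : ∃ k, Nat.count (· ∈ A) (x + 1) = k + 1 := ⟨Nat.count (· ∈ A) (x + 1) - 1, by omega⟩
  have hak : Nat.nth (· ∈ A) k < x + 1 := Nat.nth_lt_of_lt_count (by omega)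
  have hak1 : x + 1 ≤ Nat.nth (· ∈ A) (k + 1) := by
    rw [← hk]
    exact Nat.le_nth_count hinf (x + 1)
  have hgap : (x:ℝ) + lam * Real.log X ^ 2 < (Nat.nth (· ∈ A) (k + 1) : ℝ) := by
    by_contra hcon
    rw [not_lt] at hcon
    exact hx2 _ (by omega) hcon (hmem (k + 1))
  refine ⟨k, by omega, ?_⟩
  have hk2 : 2 ≤ Nat.nth (· ∈ A) k := (show 2 ≤ k by omega).trans (hmono.id_le k)
  have hk2r : (2:ℝ) ≤ (Nat.nth (· ∈ A) k : ℝ) := by exact_mod_cast hk2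
  have hakx : (Nat.nth (· ∈ A) k : ℝ) ≤ x := by exact_mod_cast Nat.lt_succ_iff.1 hak
  have hakX : (Nat.nth (· ∈ A) k : ℝ) ≤ X := by
    have : 0 ≤ lam * Real.log X ^ 2 := by positivity
    linarith
  have hlog : 0 < Real.log (Nat.nth (· ∈ A) k) := Real.log_pos (by linarith)
  have hlog2 : Real.log (Nat.nth (· ∈ A) k) ≤ Real.log X := Real.log_le_log (by linarith) hakX
  rw [EReal.coe_le_coe_iff, le_div_iff₀ (by positivity)]
  have h3 : lam * Real.log (Nat.nth (· ∈ A) k) ^ 2 ≤ lam * Real.log X ^ 2 := by gcongr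
  linarith

lemma le_LC_of {A : Set ℕ} (hinf : A.Infinite) {m : ℝ} (hm : 0 < m)
    (h : ∀ lam : ℝ, lam < m → ∀ᶠ X : ℕ in atTop, ∃ x : ℕ, (x:ℝ) + lam * Real.log X ^ 2 ≤ X ∧
      ∀ n : ℕ, x < n → (n:ℝ) ≤ x + lam * Real.log X ^ 2 → n ∉ A) : (m : EReal) ≤ LC A := by
  by_contra hcon
  rw [not_le] at hcon
  obtain ⟨r, hr1, hr2⟩ := EReal.lt_iff_exists_real_btwn.1 (max_lt hcon (EReal.coe_lt_coe_iff.2 (show m / 2 < m by linarith)))
  have h1 : m / 2 < r := EReal.coe_lt_coe_iff.1 (lt_of_le_of_lt (le_max_right _ _) hr1)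
  have h2 : r < m := EReal.coe_lt_coe_iff.1 hr2
  have h3 := le_LC hinf (show 0 < r by linarith) (h r h2)
  exact absurd (lt_of_le_of_lt (le_max_left _ _) hr1) (not_lt.2 h3)

lemma LC_le_of {A : Set ℕ} {m : ℝ}
    (h : ∀ lam : ℝ, m < lam → ∀ᶠ x : ℕ in atTop, ∃ n : ℕ, x < n ∧ (n:ℝ) ≤ x + lam * Real.log x ^ 2 ∧ n ∈ A) :
    LC A ≤ (m : EReal) := by
  by_contra hcon
  rw [not_le] at hcon
  obtain ⟨r, hr1, hr2⟩ := EReal.lt_iff_exists_real_btwn.1 hcon
  exact absurd hr2 (not_lt.2 (LC_le (h r (EReal.coe_lt_coe_iff.1 hr1))))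

/-! ### The function `τ exp(1/τ - 1)` -/

lemma gfun_anti {a b : ℝ} (ha : 0 < a) (hab : a < b) (hb : b ≤ 1) :
    b * Real.exp (1 / b - 1) < a * Real.exp (1 / a - 1) := by
  have hb0 : 0 < b := by linarith
  rw [← Real.exp_log hb0, ← Real.exp_add]
  conv_rhs => rw [← Real.exp_log ha, ← Real.exp_add]
  rw [Real.exp_log hb0, Real.exp_log ha]
  apply Real.exp_lt_exp.2
  have h1 : Real.log (b / a) < b / a - 1 := Real.log_lt_sub_one_of_pos (by positivity) (by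
    intro h
    rw [div_eq_one_iff_eq ha.ne'] at h
    linarith)
  rw [Real.log_div hb0.ne' ha.ne'] at h1
  have h2 : b / a - 1 ≤ 1 / a - 1 / b := by
    have h3 : b / a - 1 = (b - a) / a := by field_simp
    have h4 : 1 / a - 1 / b = (b - a) / (a * b) := by field_simp
    rw [h3, h4]
    apply div_le_div_of_nonneg_left (by linarith) (by positivity)
    nlinarith
  linarith

lemma gfun_exists {l : ℝ} (hl : 1 ≤ l) : ∃ τ : ℝ, 0 < τ ∧ τ ≤ 1 ∧ τ * Real.exp (1 / τ - 1) = l := by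
  set τ₀ : ℝ := 1 / (2 * Real.exp 1 * l) with hτ₀
  have he := Real.exp_pos 1
  have he1 : 1 ≤ Real.exp 1 := Real.one_le_exp (by norm_num)
  have h0 : 0 < τ₀ := by positivity
  have h1 : τ₀ ≤ 1 := by
    rw [hτ₀, div_le_one (by positivity)]
    nlinarith
  have hcont : ContinuousOn (fun τ : ℝ => τ * Real.exp (1 / τ - 1)) (Set.Icc τ₀ 1) := by
    apply ContinuousOn.mul continuousOn_id
    apply ContinuousOn.rexp
    apply ContinuousOn.sub _ continuousOn_const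
    apply ContinuousOn.div continuousOn_const continuousOn_id
    intro x hx
    have : 0 < x := lt_of_lt_of_le h0 hx.1
    exact this.ne'
  have h2 : l ≤ τ₀ * Real.exp (1 / τ₀ - 1) := by
    have h3 := Real.quadratic_le_exp_of_nonneg (show 0 ≤ 1 / τ₀ by positivity)
    have h4 : (1 / τ₀) ^ 2 / 2 ≤ Real.exp (1 / τ₀) := by
      have : 0 ≤ 1 / τ₀ := by positivity
      linarith
    rw [Real.exp_sub]
    have h5 : l = τ₀ * ((1 / τ₀) ^ 2 / 2 / Real.exp 1) := by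
      rw [hτ₀]
      field_simp
    calc l = τ₀ * ((1 / τ₀) ^ 2 / 2 / Real.exp 1) := h5
      _ ≤ _ := by gcongr
  have h3 : (fun τ : ℝ => τ * Real.exp (1 / τ - 1)) 1 ≤ l := by
    simp only [div_one, sub_self, Real.exp_zero, mul_one]
    exact hl
  obtain ⟨τ, hτ, hτl⟩ := intermediate_value_Icc' h1 hcont ⟨h3, h2⟩
  exact ⟨τ, lt_of_lt_of_le h0 hτ.1, hτ.2, hτl⟩

lemma Lam_of_ge {c : ℝ} (hc : 2 ≤ c) : Lam c = 1 := by
  unfold Lam
  rw [min_eq_right (by linarith)]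
  norm_num

lemma Lam_of_le {c : ℝ} (hc : c ≤ 2) : Lam c = c / 2 * Real.exp (1 / (c / 2) - 1) := by
  unfold Lam
  rw [min_eq_left (by linarith)]

lemma Lam_anti {a b : ℝ} (ha : 0 < a) (hab : a < b) (ha2 : a < 2) : Lam b < Lam a := by
  rcases le_total b 2 with hb | hb
  · rw [Lam_of_le hb, Lam_of_le ha2.le]
    exact gfun_anti (by linarith) (by linarith) (by linarith)
  · rw [Lam_of_ge hb, Lam_of_le ha2.le]
    have := gfun_anti (a := a / 2) (b := 1) (by linarith) (by linarith) le_rfl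
    simpa using this

lemma Lam_cont {c : ℝ} (hc : 0 < c) : ContinuousAt Lam c := by
  unfold Lam
  have h1 : ContinuousAt (fun c : ℝ => min (c / 2) 1) c :=
    (continuous_id.div_const 2).continuousAt.min continuousAt_const
  have h2 : min (c / 2) 1 ≠ 0 := (lt_min (by linarith) one_pos).ne'
  exact h1.mul (((continuousAt_const.div h1 h2).sub continuousAt_const).rexp)

end Q198.CC
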