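import Pool.Agent.Q198.CC.L6

/-! # The model with small gaps -/

set_option autoImplicit false

namespace Q198.CC

open Finset MeasureTheory Filter Topology Q198.CI

/-- the product of the laws of the blocks -/
noncomputable def gP (I : ℕ → Finset ℕ) (w : ℕ → Finset ℕ → ℝ) : Measure (ℕ → Finset ℕ) :=
  Measure.infinitePi (fun β => bm (I β) (w β))

section
variable (b : ℕ → ℕ) (I : ℕ → Finset ℕ) (K : ℕ → ℕ) {p : ℕ → ℝ} (w : ℕ → Finset ℕ → ℝ)
  (hw : ∀ β, IsLaw (I β) (K β) p (w β))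

include hw

lemma gP_prob : IsProbabilityMeasure (gP I w) := by
  have : ∀ β, IsProbabilityMeasure (bm (I β) (w β)) := fun β => bm_prob (hw β)
  unfold gP
  infer_instance

lemma gP_block (β : ℕ) (A : Set (Finset ℕ)) : gP I w {ω | ω β ∈ A} = bm (I β) (w β) A := by
  have : ∀ β, IsProbabilityMeasure (bm (I β) (w β)) := fun β => bm_prob (hw β)
  have e : {ω : ℕ → Finset ℕ | ω β ∈ A} = Set.pi (({β} : Finset ℕ) : Set ℕ) (fun _ => A) := by
    ext ω
    simp
  unfold gP
  rw [e, Measure.infinitePi_pi _ (fun β _ => MeasurableSet.of_discrete), prod_singleton]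

lemma gP_indep (hI : ∀ n β, n ∈ I β ↔ b n = β) (hp : ∀ n, 0 ≤ p n) (T : Finset ℕ)
    (hT : ∀ n ∈ T, T.card ≤ K (b n)) :
    gP I w (⋂ n ∈ T, {ω | n ∈ ω (b n)}) = ENNReal.ofReal (∏ n ∈ T, p n) := by
  classical
  have : ∀ β, IsProbabilityMeasure (bm (I β) (w β)) := fun β => bm_prob (hw β)
  have e : (⋂ n ∈ T, {ω : ℕ → Finset ℕ | n ∈ ω (b n)}) =
      Set.pi (T.image b : Finset ℕ) (fun β => {S : Finset ℕ | T.filter (fun n => b n = β) ⊆ S}) := by
    ext ω
    simp only [Set.mem_iInter, Set.mem_ofPred_eq, Set.mem_pi, coe_image, Set.mem_image, mem_coe]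
    constructor
    · rintro h β ⟨m, hm, rfl⟩ n hn
      rw [mem_filter] at hn
      have := h n hn.1
      rw [hn.2] at this
      exact this
    · intro h n hn
      exact h (b n) ⟨n, hn, rfl⟩ (mem_filter.2 ⟨hn, rfl⟩)
  unfold gP
  rw [e, Measure.infinitePi_pi _ (fun β _ => MeasurableSet.of_discrete)]
  have h1 : ∀ β ∈ T.image b, bm (I β) (w β) {S : Finset ℕ | T.filter (fun n => b n = β) ⊆ S} =
      ENNReal.ofReal (∏ n ∈ T.filter (fun n => b n = β), p n) := by
    intro β hβ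
    rw [mem_image] at hβ
    obtain ⟨m, hm, rfl⟩ := hβ
    apply bm_superset (hw (b m))
    · intro n hn
      rw [mem_filter] at hn
      exact (hI n (b m)).2 hn.2
    · exact (card_filter_le _ _).trans (hT m hm)
  rw [prod_congr rfl h1, ← ENNReal.ofReal_prod_of_nonneg (fun β _ => prod_nonneg fun n _ => hp n)]
  congr 1
  exact prod_fiberwise_of_maps_to (fun n hn => mem_image_of_mem b hn) p

end

open Classical in
lemma bm_set {I : Finset ℕ} {w : Finset ℕ → ℝ} (hw : ∀ S ⊆ I, 0 ≤ w S) (A : Finset ℕ → Prop) :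
    bm I w {S | A S} = ENNReal.ofReal (∑ S ∈ I.powerset.filter A, w S) := by
  rw [bm_apply, ENNReal.ofReal_sum_of_nonneg (fun S hS => hw S (mem_powerset.1 (mem_filter.1 hS).1)), sum_filter]
  refine sum_congr rfl fun S _ => ?_
  by_cases h : A S
  · rw [if_pos h, Set.indicator_of_mem (by exact h)]
    simp
  · rw [if_neg h, Set.indicator_of_notMem (by exact h)]
    simp

/-- the blocks of the scales -/
def SI (i : ℕ) : Finset ℕ := (range (2 ^ (i + 1))).filter (fun n => Nat.log 2 n = i)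

lemma mem_SI (n i : ℕ) : n ∈ SI i ↔ Nat.log 2 n = i := by
  unfold SI
  rw [mem_filter, mem_range]
  constructor
  · exact fun h => h.2
  · intro h
    refine ⟨?_, h⟩
    rw [← h]
    exact Nat.lt_pow_succ_log_self (by norm_num) n

lemma SI_eq {i : ℕ} (hi : 1 ≤ i) : SI i = Ico (2 ^ i) (2 ^ (i + 1)) := by
  ext n
  rw [mem_SI, mem_Ico]
  constructor
  · intro h
    have hn : n ≠ 0 := by
      rintro rfl
      simp at h
      omega
    rw [← h]
    exact ⟨Nat.pow_log_le_self 2 hn, Nat.lt_pow_succ_log_self (by norm_num) n⟩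
  · rintro ⟨h1, h2⟩
    exact Nat.log_eq_of_pow_le_of_lt_pow h1 h2

/-- the constants approaching the lower constant -/
noncomputable def lamd (c : ℝ) (k : ℕ) : ℝ := c / 4 + 1 / ((k:ℝ) + 1)

lemma lamd_gt (c : ℝ) (k : ℕ) : c / 4 < lamd c k := by
  unfold lamd
  have : (0:ℝ) < 1 / ((k:ℝ) + 1) := by positivity
  linarith

lemma lamd_tendsto (c : ℝ) : Tendsto (lamd c) atTop (𝓝 (c / 4)) := by
  unfold lamd
  have := (tendsto_one_div_add_atTop_nhds_zero_nat (𝕜 := ℝ)).const_add (c / 4)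
  simpa using this

open Classical in
/-- the diagonal choice -/
noncomputable def kd (κ : ℕ → ℕ) (c : ℝ) (i : ℕ) : ℕ :=
  Nat.findGreatest (fun k => Qd κ (lamd c k) i) i

lemma kd_spec {κ : ℕ → ℕ} {c : ℝ} (h : ∀ k, ∀ᶠ i : ℕ in atTop, Qd κ (lamd c k) i) :
    ∀ᶠ i : ℕ in atTop, Qd κ (lamd c (kd κ c i)) i := by
  classical
  filter_upwards [h 0] with i hi
  unfold kd
  exact Nat.findGreatest_spec (P := fun k => Qd κ (lamd c k) i) (Nat.zero_le i) hi

lemma kd_tendsto {κ : ℕ → ℕ} {c : ℝ} (h : ∀ k, ∀ᶠ i : ℕ in atTop, Qd κ (lamd c k) i) :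
    Tendsto (kd κ c) atTop atTop := by
  classical
  rw [tendsto_atTop]
  intro k
  filter_upwards [h k, eventually_ge_atTop k] with i hi hik
  unfold kd
  exact Nat.le_findGreatest hik hi

open Classical in
lemma scale_laws (κ : ℕ → ℕ) (c : ℝ) : ∀ i : ℕ, ∃ w : Finset ℕ → ℝ,
    IsLaw (SI i) (bk4 κ i) cp w ∧ (Qd κ (lamd c (kd κ c i)) i →
      ∑ S ∈ (SI i).powerset.filter (fun S => ∃ x, Ico x (x + ll (lamd c (kd κ c i)) i) ⊆ SI i ∧
        Disjoint S (Ico x (x + ll (lamd c (kd κ c i)) i))), w S ≤ 1 / (i:ℝ) ^ 2 + (1 / 2) ^ i) := by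
  intro i
  by_cases h : Qd κ (lamd c (kd κ c i)) i
  · obtain ⟨w, hw, hw2⟩ := scale_exists h
    rw [← SI_eq (by have := h.1; omega)] at hw hw2
    exact ⟨w, hw, fun _ => hw2⟩
  · exact ⟨_, pwt_law (fun n _ => cp_nonneg n) (fun n _ => cp_le_one n) _, fun h' => absurd h' h⟩

theorem model_small (κ : ℕ → ℕ) {c : ℝ} (hc : 0 ≤ c)
    (hκ : ∀ ε : ℝ, 0 < ε → ∀ᶠ n : ℕ in atTop, (κ n : ℝ) ≤ (c + ε) * Real.log n) :
    ∃ (Ω : Type) (_ : MeasurableSpace Ω) (P : Measure Ω) (_ : IsProbabilityMeasure P)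
      (E : ℕ → Set Ω), Model P κ E ∧ ∀ᵐ ω ∂P, ∀ lam : ℝ, c / 4 < lam → ∀ᶠ x : ℕ in atTop,
        ∃ n : ℕ, x < n ∧ (n:ℝ) ≤ x + lam * Real.log x ^ 2 ∧ ω ∈ E n := by
  classical
  choose w hw hw2 using scale_laws κ c
  have hPp := gP_prob SI (bk4 κ) w hw
  set P := gP SI w with hP
  set E : ℕ → Set (ℕ → Finset ℕ) := fun n => {ω | n ∈ ω (Nat.log 2 n)} with hE
  have hEm : ∀ n, MeasurableSet (E n) := by
    intro n
    have h1 : MeasurableSet {S : Finset ℕ | n ∈ S} := MeasurableSet.of_discrete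
    have h2 : Measurable (fun ω : ℕ → Finset ℕ => ω (Nat.log 2 n)) := measurable_pi_apply _
    exact h2 h1
  have hM' : Model P (fun n => bk4 κ (Nat.log 2 n)) E := by
    refine ⟨hEm, fun T hTT => ?_⟩
    have h1 := gP_indep (Nat.log 2) SI (bk4 κ) w hw (fun n β => mem_SI n β) cp_nonneg T
      (fun n hn => (hTT n hn).2)
    refine h1.trans ?_
    congr 1
    refine prod_congr rfl fun n hn => ?_
    unfold cp
    rw [if_pos (hTT n hn).1]
  refine ⟨ℕ → Finset ℕ, inferInstance, P, hPp, E, ⟨hEm, fun T hTT => ?_⟩, ?_⟩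
  · apply hM'.indep T
    intro n hn
    refine ⟨(hTT n hn).1, (hTT n hn).2.trans ?_⟩
    unfold bk4 bk
    refine le_trans ?_ ((le_max_right _ _).trans (le_max_right _ _))
    apply le_sup (f := κ)
    rw [mem_Ico]
    exact ⟨Nat.pow_log_le_self 2 (by have := (hTT n hn).1; omega), Nat.lt_pow_succ_log_self (by norm_num) n⟩
  · have hQ : ∀ k, ∀ᶠ i : ℕ in atTop, Qd κ (lamd c k) i := fun k => ev_Qd hc (lamd_gt c k) hκ
    have hQi := kd_spec hQ
    obtain ⟨i₀, hi₀⟩ := eventually_atTop.1 hQi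
    set L : ℕ → ℕ := fun i => ll (lamd c (kd κ c i)) i with hL
    -- the bad events
    set A1 : ℕ → Set (ℕ → Finset ℕ) := fun i => if i₀ ≤ i then
      {ω | ω i ∈ {S : Finset ℕ | ∃ x, Ico x (x + L i) ⊆ SI i ∧ Disjoint S (Ico x (x + L i))}} else ∅ with hA1
    set A2 : ℕ → Set (ℕ → Finset ℕ) := fun i => if i₀ ≤ i then
      ⋂ n ∈ Ioc (2 ^ (i + 1) - 1 - L i / 2) (2 ^ (i + 1) - 1), (E n)ᶜ else ∅ with hA2
    set A3 : ℕ → Set (ℕ → Finset ℕ) := fun i => if i₀ ≤ i then
      ⋂ n ∈ Ioc (2 ^ (i + 1) - 1) (2 ^ (i + 1) - 1 + L i / 2), (E n)ᶜ else ∅ with hA3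
    have hP1 : ∀ i, P (A1 i) ≤ ENNReal.ofReal (1 / (i:ℝ) ^ 2 + (1 / 2) ^ i) := by
      intro i
      simp only [hA1]
      split_ifs with hi
      · have h1 := gP_block SI (bk4 κ) w hw i {S : Finset ℕ | ∃ x, Ico x (x + L i) ⊆ SI i ∧
          Disjoint S (Ico x (x + L i))}
        rw [← hP] at h1
        rw [h1, bm_set (hw i).1]
        exact ENNReal.ofReal_le_ofReal (hw2 i (hi₀ i hi))
      · simp
    have hbd : ∀ i, i₀ ≤ i → ∀ a b : ℕ, 2 ≤ a → b = a + L i / 2 → b ≤ 2 ^ (i + 2) →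
        P (⋂ n ∈ Ioc a b, (E n)ᶜ) ≤ ENNReal.ofReal (1 / (i:ℝ) ^ (3 / 2 : ℝ)) := by
      intro i hi a b ha hb hb2
      obtain ⟨h6, h1, h2, h3, h4, h5, _⟩ := hi₀ i hi
      obtain ⟨ht3, hit, hti⟩ := tt_bounds h6
      have hlog2b : Real.log 2 ≤ 1 := by
        have := Real.log_two_lt_d9
        linarith
      have hh : (0:ℝ) < ((L i / 2 : ℕ) : ℝ) := lt_of_lt_of_le (by linarith) h4
      have hh' : 0 < L i / 2 := by exact_mod_cast hh
      have hlogb : Real.log b ≤ tt i + 2 := by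
        have h7 : Real.log b ≤ Real.log ((2:ℝ) ^ (i + 2)) := by
          apply Real.log_le_log
          · have : 0 < b := by omega
            exact_mod_cast this
          · exact_mod_cast hb2
        rw [Real.log_pow] at h7
        push_cast at h7
        have e : ((i:ℝ) + 2) * Real.log 2 = tt i + 2 * Real.log 2 := by
          unfold tt
          ring
        rw [e] at h7
        linarith
      have hba : (b:ℝ) - a = ((L i / 2 : ℕ) : ℝ) := by
        rw [hb]
        push_cast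
        ring
      have h7 := interval_empty hM' (m := 2) (by norm_num) ha (show a < b by omega)
        (fun n _ => by
          unfold bk4
          exact le_max_left _ _) (by
          rw [hba]
          push_cast
          refine le_trans ?_ h4
          linarith)
      refine h7.trans (ENNReal.ofReal_le_ofReal (le_trans ?_ h5))
      rw [hba]
      have h8 : 0 ≤ Real.log b := Real.log_natCast_nonneg b
      have h9 : Real.exp 2 * (2 * (2:ℕ)) * Real.log b / ((L i / 2 : ℕ) : ℝ) ≤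
          Real.exp 2 * 4 * (tt i + 2) / ((L i / 2 : ℕ) : ℝ) := by
        apply div_le_div_of_nonneg_right _ hh.le
        push_cast
        have := Real.exp_pos 2
        nlinarith
      have h10 : 0 ≤ Real.exp 2 * (2 * (2:ℕ)) * Real.log b / ((L i / 2 : ℕ) : ℝ) := by positivity
      have h11 := pow_le_pow_left₀ h10 h9 2
      linarith
    have hsz : ∀ i, i₀ ≤ i → L i + 4 ≤ 2 ^ i := fun i hi => (hi₀ i hi).2.2.2.1
    have hP2 : ∀ i, P (A2 i) ≤ ENNReal.ofReal (1 / (i:ℝ) ^ (3 / 2 : ℝ)) := by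
      intro i
      simp only [hA2]
      split_ifs with hi
      · have h1 := hsz i hi
        have e1 : 2 ^ (i + 1) = 2 * 2 ^ i := by rw [pow_succ]; ring
        have e2 : 2 ^ (i + 2) = 4 * 2 ^ i := by rw [pow_add]; ring
        apply hbd i hi
        · omega
        · omega
        · omega
      · simp
    have hP3 : ∀ i, P (A3 i) ≤ ENNReal.ofReal (1 / (i:ℝ) ^ (3 / 2 : ℝ)) := by
      intro i
      simp only [hA3]
      split_ifs with hi
      · have h1 := hsz i hi
        have e1 : 2 ^ (i + 1) = 2 * 2 ^ i := by rw [pow_succ]; ring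
        have e2 : 2 ^ (i + 2) = 4 * 2 ^ i := by rw [pow_add]; ring
        apply hbd i hi
        · omega
        · omega
        · omega
      · simp
    have hs1 : Summable (fun i : ℕ => 1 / (i:ℝ) ^ 2 + (1 / 2 : ℝ) ^ i) :=
      (Real.summable_one_div_nat_pow.2 (by norm_num)).add
        (summable_geometric_of_lt_one (by norm_num) (by norm_num))
    have hs2 : Summable (fun i : ℕ => 1 / (i:ℝ) ^ (3 / 2 : ℝ)) :=
      Real.summable_one_div_nat_rpow.2 (by norm_num)
    have h1 : ∑' i, P (A1 i) ≠ ⊤ := ne_top_of_le_ne_top hs1.tsum_ofReal_ne_top (ENNReal.tsum_le_tsum hP1)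
    have h2 : ∑' i, P (A2 i) ≠ ⊤ := ne_top_of_le_ne_top hs2.tsum_ofReal_ne_top (ENNReal.tsum_le_tsum hP2)
    have h3 : ∑' i, P (A3 i) ≠ ⊤ := ne_top_of_le_ne_top hs2.tsum_ofReal_ne_top (ENNReal.tsum_le_tsum hP3)
    filter_upwards [ae_eventually_notMem h1, ae_eventually_notMem h2, ae_eventually_notMem h3]
      with ω hω1 hω2 hω3 lam hlam
    have hev : ∀ᶠ i : ℕ in atTop, lamd c (kd κ c i) ≤ lam :=
      (((lamd_tendsto c).comp (kd_tendsto hQ)).eventually (eventually_lt_nhds hlam)).mono fun i hi => hi.le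
    have hgood : ∀ᶠ i : ℕ in atTop, i₀ ≤ i ∧ ω ∉ A1 i ∧ ω ∉ A2 i ∧ ω ∉ A3 i ∧ lamd c (kd κ c i) ≤ lam := by
      filter_upwards [hω1, hω2, hω3, hev, eventually_ge_atTop i₀] with i a b c d e
      exact ⟨e, a, b, c, d⟩
    obtain ⟨i₁, hi₁⟩ := eventually_atTop.1 hgood
    filter_upwards [eventually_ge_atTop (2 ^ i₁)] with x hx
    have hx0 : x ≠ 0 := by
      have : 0 < 2 ^ i₁ := by positivity
      omega
    have hlogx : i₁ ≤ Nat.log 2 x := (Nat.le_log_iff_pow_le (by norm_num) hx0).2 hx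
    obtain ⟨i, hi⟩ : ∃ i, Nat.log 2 x = i := ⟨_, rfl⟩
    obtain ⟨hii, hn1, hn2, hn3, hlm⟩ := hi₁ i (by omega)
    have hxlo : 2 ^ i ≤ x := by
      rw [← hi]
      exact Nat.pow_log_le_self 2 hx0
    have hxhi : x < 2 ^ (i + 1) := by
      rw [← hi]
      exact Nat.lt_pow_succ_log_self (by norm_num) x
    obtain ⟨h6, hQ1, _, hQ3, hQ4, _, _⟩ := hi₀ i hii
    obtain ⟨ht3, hit, hti⟩ := tt_bounds h6
    have htx : tt i ≤ Real.log x := by
      have h5 : Real.log ((2:ℝ) ^ i) ≤ Real.log x := by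
        apply Real.log_le_log (by positivity)
        exact_mod_cast hxlo
      rw [Real.log_pow] at h5
      exact h5
    have hlamd0 : 0 < lamd c (kd κ c i) := lt_of_le_of_lt (by linarith) (lamd_gt c _)
    have hlen : (L i : ℝ) ≤ lam * Real.log x ^ 2 := by
      have h5 : (L i : ℝ) ≤ lamd c (kd κ c i) * tt i ^ 2 := Nat.floor_le (by positivity)
      refine h5.trans ?_
      apply mul_le_mul hlm (pow_le_pow_left₀ (by linarith) htx 2) (sq_nonneg _) (by linarith)
    have hmain : ∃ n, x + 1 ≤ n ∧ n ≤ x + L i ∧ ω ∈ E n := by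
      have hQ3' : L i + 4 ≤ 2 ^ i := hQ3
      have hQ1' : 1 ≤ L i := hQ1
      have e1 : 2 ^ (i + 1) = 2 * 2 ^ i := by rw [pow_succ]; ring
      by_cases hcase : x + 1 + L i ≤ 2 ^ (i + 1)
      · by_contra hcon
        push Not at hcon
        apply hn1
        simp only [hA1, if_pos hii]
        refine ⟨x + 1, ?_, ?_⟩
        · rw [SI_eq (by omega)]
          intro n hn
          rw [mem_Ico] at hn ⊢
          omega
        · rw [disjoint_right]
          intro n hn hnω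
          rw [mem_Ico] at hn
          apply hcon n (by omega) (by omega)
          have hlogn : Nat.log 2 n = i := Nat.log_eq_of_pow_le_of_lt_pow (by omega) (by omega)
          show n ∈ ω (Nat.log 2 n)
          rw [hlogn]
          exact hnω
      · rw [not_le] at hcase
        by_cases h7 : L i / 2 ≤ 2 ^ (i + 1) - 1 - x
        · simp only [hA2, if_pos hii, Set.mem_iInter, not_forall, Set.mem_compl_iff, not_not] at hn2
          obtain ⟨n, hn, hnE⟩ := hn2
          rw [mem_Ioc] at hn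
          exact ⟨n, by omega, by omega, hnE⟩
        · simp only [hA3, if_pos hii, Set.mem_iInter, not_forall, Set.mem_compl_iff, not_not] at hn3
          obtain ⟨n, hn, hnE⟩ := hn3
          rw [mem_Ioc] at hn
          exact ⟨n, by omega, by omega, hnE⟩
    obtain ⟨n, hn4, hn5, hnE⟩ := hmain
    refine ⟨n, by omega, ?_, hnE⟩
    have h8 : (n:ℝ) ≤ ((x + L i : ℕ) : ℝ) := by exact_mod_cast hn5
    push_cast at h8
    linarith

end Q198.CC
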