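import Pool.Agent.Q198.CC.L11
import Pool.Agent.Q198.CC.L10
import Pool.Agent.Q198.CC.L7

/-! # The exact range of the constant -/

set_option autoImplicit false

namespace Q198.CC

open Finset MeasureTheory Filter Topology Q198.CI

theorem all_upper {Ω : Type*} [MeasurableSpace Ω] {P : Measure Ω} [IsProbabilityMeasure P]
    {κ : ℕ → ℕ} {E : ℕ → Set Ω} (hM : Model P κ E) {c : ℝ} (hc : 0 < c)
    (hκ : ∀ ε : ℝ, 0 < ε → ∀ᶠ n : ℕ in atTop, (c - ε) * Real.log n ≤ κ n) :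
    ∀ᵐ ω ∂P, ∀ lam : ℝ, Lam c < lam → ∀ᶠ x : ℕ in atTop,
      ∃ n : ℕ, x < n ∧ (n : ℝ) ≤ x + lam * Real.log x ^ 2 ∧ ω ∈ E n := by
  have hmain : ∀ lam : ℝ, Lam c < lam → ∀ᵐ ω ∂P, ∀ᶠ x : ℕ in atTop,
      ∃ n : ℕ, x < n ∧ (n : ℝ) ≤ x + lam * Real.log x ^ 2 ∧ ω ∈ E n := by
    intro lam hlam
    have h1 : ∀ᶠ c' in 𝓝[<] c, Lam c' < lam ∧ 0 < c' ∧ c' < c := by
      filter_upwards [nhdsWithin_le_nhds ((Lam_cont hc).eventually (eventually_lt_nhds hlam)),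
        nhdsWithin_le_nhds (eventually_gt_nhds hc), self_mem_nhdsWithin] with x h1 h2 h3
      exact ⟨h1, h2, h3⟩
    obtain ⟨c', h2, h3, h4⟩ := h1.exists
    refine upper_lam hM h3 h2 ?_
    filter_upwards [hκ (c - c') (by linarith)] with n hn
    have e : c - (c - c') = c' := by ring
    rwa [e] at hn
  have hall : ∀ᵐ ω ∂P, ∀ k : ℕ, ∀ᶠ x : ℕ in atTop,
      ∃ n : ℕ, x < n ∧ (n : ℝ) ≤ x + (Lam c + 1 / ((k:ℝ) + 1)) * Real.log x ^ 2 ∧ ω ∈ E n := by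
    rw [ae_all_iff]
    intro k
    apply hmain
    have : (0:ℝ) < 1 / ((k:ℝ) + 1) := by positivity
    linarith
  filter_upwards [hall] with ω hω lam hlam
  obtain ⟨k, hk⟩ := exists_nat_one_div_lt (show 0 < lam - Lam c by linarith)
  filter_upwards [hω k] with x hx
  obtain ⟨n, hn1, hn2, hn3⟩ := hx
  refine ⟨n, hn1, hn2.trans ?_, hn3⟩
  have h2 : (Lam c + 1 / ((k:ℝ) + 1)) * Real.log x ^ 2 ≤ lam * Real.log x ^ 2 :=
    mul_le_mul_of_nonneg_right (by linarith) (sq_nonneg _)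
  linarith

theorem all_range {Ω : Type*} [MeasurableSpace Ω] {P : Measure Ω} [IsProbabilityMeasure P]
    {κ : ℕ → ℕ} {E : ℕ → Set Ω} (hM : Model P κ E) {c : ℝ} (hc : 0 < c)
    (hκ : ∀ ε : ℝ, 0 < ε → ∀ᶠ n : ℕ in atTop, (c - ε) * Real.log n ≤ κ n) :
    ∀ᵐ ω ∂P, {n | ω ∈ E n}.Infinite ∧ ((min 1 (c / 4) : ℝ) : EReal) ≤ LC {n | ω ∈ E n} ∧
      LC {n | ω ∈ E n} ≤ (Lam c : EReal) := by
  filter_upwards [all_upper hM hc hκ, all_lower hM hκ] with ω h1 h2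
  have hinf : {n | ω ∈ E n}.Infinite := inf_of_upper (A := {n | ω ∈ E n}) (h1 (Lam c + 1) (by linarith))
  refine ⟨hinf, ?_, ?_⟩
  · exact le_LC_of hinf (lt_min one_pos (by linarith)) h2
  · exact LC_le_of h1

lemma model_mono {Ω : Type*} [MeasurableSpace Ω] {P : Measure Ω} {κ κ' : ℕ → ℕ} {E : ℕ → Set Ω}
    (h : ∀ n, κ n ≤ κ' n) (hM : Model P κ' E) : Model P κ E :=
  ⟨hM.meas, fun T hT => hM.indep T fun n hn => ⟨(hT n hn).1, (hT n hn).2.trans (h n)⟩⟩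

/-- the order raised to `c log n` -/
noncomputable def kup (κ : ℕ → ℕ) (c : ℝ) (n : ℕ) : ℕ := max (κ n) ⌈c * Real.log n⌉₊

lemma kup_ge (κ : ℕ → ℕ) (c : ℝ) (n : ℕ) : κ n ≤ kup κ c n := le_max_left _ _

lemma kup_lower (κ : ℕ → ℕ) (c : ℝ) : ∀ ε : ℝ, 0 < ε → ∀ᶠ n : ℕ in atTop, (c - ε) * Real.log n ≤ kup κ c n := by
  intro ε hε
  refine Eventually.of_forall fun n => ?_
  have h1 : c * Real.log n ≤ (⌈c * Real.log n⌉₊ : ℝ) := Nat.le_ceil _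
  have h2 : ((⌈c * Real.log n⌉₊ : ℕ) : ℝ) ≤ kup κ c n := by
    exact_mod_cast le_max_right _ _
  have h3 : 0 ≤ ε * Real.log n := mul_nonneg hε.le (Real.log_natCast_nonneg n)
  linarith

lemma kup_upper {κ : ℕ → ℕ} {c c' : ℝ} (hc' : 0 ≤ c') (hcc : c ≤ c')
    (hκ : ∀ ε : ℝ, 0 < ε → ∀ᶠ n : ℕ in atTop, (κ n : ℝ) ≤ (c + ε) * Real.log n) :
    ∀ ε : ℝ, 0 < ε → ∀ᶠ n : ℕ in atTop, (kup κ c' n : ℝ) ≤ (c' + ε) * Real.log n := by
  intro ε hε
  filter_upwards [hκ ε hε, tendsto_log_nat'.eventually_ge_atTop (1 / ε)] with n h1 h2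
  have h0 : 0 ≤ Real.log n := Real.log_natCast_nonneg n
  unfold kup
  rw [Nat.cast_max]
  apply max_le
  · refine h1.trans ?_
    exact mul_le_mul_of_nonneg_right (by linarith) h0
  · have h3 := (Nat.ceil_lt_add_one (show 0 ≤ c' * Real.log n by positivity)).le
    rw [div_le_iff₀ hε] at h2
    linarith

/-- the value `l` is attained in some model of order `κ` -/
def Att (κ : ℕ → ℕ) (l : ℝ) : Prop :=
  ∃ (Ω : Type) (_ : MeasurableSpace Ω) (P : Measure Ω) (_ : IsProbabilityMeasure P)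
    (E : ℕ → Set Ω), Model P κ E ∧ ∀ᵐ ω ∂P, {n | ω ∈ E n}.Infinite ∧ LC {n | ω ∈ E n} = (l : EReal)

theorem att_low {κ : ℕ → ℕ} {c l : ℝ} (hc : 0 ≤ c)
    (hκ : ∀ ε : ℝ, 0 < ε → ∀ᶠ n : ℕ in atTop, (κ n : ℝ) ≤ (c + ε) * Real.log n) (hl0 : 0 < l) (hl1 : l < 1)
    (hl : c / 4 ≤ l) : Att κ l := by
  have hc' : (0:ℝ) < 4 * l := by linarith
  obtain ⟨Ω, mΩ, P, hP, E, hM, hE⟩ := model_small (kup κ (4 * l)) hc'.le (kup_upper hc'.le (by linarith) hκ)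
  refine ⟨Ω, mΩ, P, hP, E, model_mono (kup_ge κ (4 * l)) hM, ?_⟩
  filter_upwards [hE, all_range hM hc' (kup_lower κ (4 * l))] with ω h1 h2
  have e : 4 * l / 4 = l := by ring
  rw [e] at h1 h2
  refine ⟨h2.1, le_antisymm ?_ ?_⟩
  · exact LC_le_of h1
  · have h3 := h2.2.1
    rwa [min_eq_right hl1.le] at h3

theorem att_one {κ : ℕ → ℕ} {c : ℝ}
    (hκ : ∀ ε : ℝ, 0 < ε → ∀ᶠ n : ℕ in atTop, (κ n : ℝ) ≤ (c + ε) * Real.log n) : Att κ 1 := by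
  set c' : ℝ := max c 4 with hc'
  have h4 : 4 ≤ c' := le_max_right _ _
  have hcc : c ≤ c' := le_max_left _ _
  obtain ⟨Ω, mΩ, P, hP, E, hM, hE⟩ := model_small (kup κ c') (by linarith) (kup_upper (by linarith) hcc hκ)
  refine ⟨Ω, mΩ, P, hP, E, model_mono (kup_ge κ c') hM, ?_⟩
  filter_upwards [all_range hM (show 0 < c' by linarith) (kup_lower κ c')] with ω h2
  rw [Lam_of_ge (by linarith), min_eq_left (by linarith)] at h2
  exact ⟨h2.1, le_antisymm h2.2.2 h2.2.1⟩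

theorem att_high {κ : ℕ → ℕ} {c l : ℝ}
    (hκ : ∀ ε : ℝ, 0 < ε → ∀ᶠ n : ℕ in atTop, (κ n : ℝ) ≤ (c + ε) * Real.log n) (hl1 : 1 < l)
    (hl : 0 < c → l ≤ Lam c) : Att κ l := by
  obtain ⟨τ, hτ0, hτ1, hτ⟩ := gfun_exists hl1.le
  set c' : ℝ := 2 * τ with hc'
  have hc'0 : 0 < c' := by rw [hc']; linarith
  have hLam : Lam c' = l := by
    rw [Lam_of_le (by rw [hc']; linarith)]
    have e : c' / 2 = τ := by rw [hc']; ring
    rw [e, hτ]
  have hcc : c ≤ c' := by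
    by_contra hcon
    rw [not_le] at hcon
    have hc0 : 0 < c := by linarith
    have hc'2 : c' < 2 := by
      by_contra h2
      rw [not_lt] at h2
      rw [Lam_of_ge h2] at hLam
      linarith
    have := Lam_anti hc'0 hcon hc'2
    have := hl hc0
    linarith
  obtain ⟨Ω, mΩ, P, hP, E, hM, hE⟩ := model_exists (kup κ c') hc'0 (kup_upper hc'0.le hcc hκ)
  refine ⟨Ω, mΩ, P, hP, E, model_mono (kup_ge κ c') hM, ?_⟩
  filter_upwards [hE, all_range hM hc'0 (kup_lower κ c')] with ω h1 h2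
  rw [hLam] at h1 h2
  exact ⟨h2.1, le_antisymm h2.2.2 (le_LC_of h2.1 (by linarith) h1)⟩

theorem att_of {κ : ℕ → ℕ} {c l : ℝ} (hc : 0 ≤ c)
    (hκ : ∀ ε : ℝ, 0 < ε → ∀ᶠ n : ℕ in atTop, (κ n : ℝ) ≤ (c + ε) * Real.log n) (hl0 : 0 < l)
    (hl1 : min 1 (c / 4) ≤ l) (hl2 : 0 < c → l ≤ Lam c) : Att κ l := by
  rcases lt_trichotomy l 1 with h | h | h
  · apply att_low hc hκ hl0 h
    rcases min_le_iff.1 hl1 with h1 | h1
    · linarith
    · exact h1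
  · rw [h]
    exact att_one hκ
  · exact att_high hκ h hl2

lemma lim_lower {κ : ℕ → ℕ} {c : ℝ} (h : Tendsto (fun n : ℕ => (κ n : ℝ) / Real.log n) atTop (𝓝 c)) :
    ∀ ε : ℝ, 0 < ε → ∀ᶠ n : ℕ in atTop, (c - ε) * Real.log n ≤ κ n := by
  intro ε hε
  filter_upwards [h.eventually (eventually_gt_nhds (show c - ε < c by linarith)),
    tendsto_log_nat'.eventually_gt_atTop 0] with n h1 h2
  rw [lt_div_iff₀ h2] at h1
  exact h1.le

lemma lim_upper {κ : ℕ → ℕ} {c : ℝ} (h : Tendsto (fun n : ℕ => (κ n : ℝ) / Real.log n) atTop (𝓝 c)) :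
    ∀ ε : ℝ, 0 < ε → ∀ᶠ n : ℕ in atTop, (κ n : ℝ) ≤ (c + ε) * Real.log n := by
  intro ε hε
  filter_upwards [h.eventually (eventually_lt_nhds (show c < c + ε by linarith)),
    tendsto_log_nat'.eventually_gt_atTop 0] with n h1 h2
  rw [div_lt_iff₀ h2] at h1
  exact h1.le

lemma ae_exists' {Ω : Type} [MeasurableSpace Ω] {P : Measure Ω} [IsProbabilityMeasure P] {p : Ω → Prop}
    (h : ∀ᵐ ω ∂P, p ω) : ∃ ω, p ω := by
  have : (ae P).NeBot := by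
    rw [ae_neBot]
    exact IsProbabilityMeasure.ne_zero P
  exact h.exists

theorem att_iff {κ : ℕ → ℕ} {c : ℝ} (hc : 0 < c)
    (h : Tendsto (fun n : ℕ => (κ n : ℝ) / Real.log n) atTop (𝓝 c)) (l : ℝ) :
    Att κ l ↔ min 1 (c / 4) ≤ l ∧ l ≤ Lam c := by
  constructor
  · rintro ⟨Ω, mΩ, P, hP, E, hM, hE⟩
    obtain ⟨ω, h1, h2⟩ := ae_exists' (hE.and (all_range hM hc (lim_lower h)))
    rw [h1.2] at h2
    exact ⟨EReal.coe_le_coe_iff.1 h2.2.1, EReal.coe_le_coe_iff.1 h2.2.2⟩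
  · rintro ⟨h1, h2⟩
    exact att_of hc.le (lim_upper h) (lt_of_lt_of_le (lt_min one_pos (by linarith)) h1) h1 fun _ => h2

theorem all_one_iff {κ : ℕ → ℕ} {c : ℝ} (hc : 0 < c)
    (h : Tendsto (fun n : ℕ => (κ n : ℝ) / Real.log n) atTop (𝓝 c)) :
    (∀ (Ω : Type) (_ : MeasurableSpace Ω) (P : Measure Ω) (_ : IsProbabilityMeasure P)
      (E : ℕ → Set Ω), Model P κ E → ∀ᵐ ω ∂P, LC {n | ω ∈ E n} = 1) ↔ 4 ≤ c := by
  constructor
  · intro hall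
    by_contra hcon
    rw [not_le] at hcon
    have h1 : c / 4 < 1 := by linarith
    obtain ⟨Ω, mΩ, P, hP, E, hM, hE⟩ := (att_iff hc h (c / 4)).2 ⟨min_le_right _ _, by
      have h2 : 1 ≤ Lam c := by
        rcases le_or_gt 2 c with h3 | h3
        · rw [Lam_of_ge h3]
        · have := Lam_anti hc h3 h3
          rw [Lam_of_ge le_rfl] at this
          exact this.le
      linarith⟩
    obtain ⟨ω, h2, h3⟩ := ae_exists' (hE.and (hall Ω mΩ P hP E hM))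
    rw [h2.2] at h3
    have h4 : c / 4 = 1 := by exact_mod_cast h3
    linarith
  · intro h4 Ω mΩ P hP E hM
    filter_upwards [all_range hM hc (lim_lower h)] with ω h2
    rw [Lam_of_ge (by linarith), min_eq_left (by linarith)] at h2
    exact le_antisymm h2.2.2 h2.2.1

theorem all_le_one_iff {κ : ℕ → ℕ} {c : ℝ} (hc : 0 < c)
    (h : Tendsto (fun n : ℕ => (κ n : ℝ) / Real.log n) atTop (𝓝 c)) :
    (∀ (Ω : Type) (_ : MeasurableSpace Ω) (P : Measure Ω) (_ : IsProbabilityMeasure P)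
      (E : ℕ → Set Ω), Model P κ E → ∀ᵐ ω ∂P, LC {n | ω ∈ E n} ≤ 1) ↔ 2 ≤ c := by
  constructor
  · intro hall
    by_contra hcon
    rw [not_le] at hcon
    have h1 : 1 < Lam c := by
      have := Lam_anti hc hcon hcon
      rwa [Lam_of_ge le_rfl] at this
    obtain ⟨Ω, mΩ, P, hP, E, hM, hE⟩ := (att_iff hc h (Lam c)).2 ⟨(min_le_left _ _).trans h1.le, le_rfl⟩
    obtain ⟨ω, h2, h3⟩ := ae_exists' (hE.and (hall Ω mΩ P hP E hM))
    rw [h2.2] at h3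
    have h4 : Lam c ≤ 1 := by exact_mod_cast h3
    linarith
  · intro h4 Ω mΩ P hP E hM
    filter_upwards [all_range hM hc (lim_lower h)] with ω h2
    rw [Lam_of_ge (by linarith)] at h2
    exact h2.2.2

end Q198.CC
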