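import Pool.Agent.Q198.CC.L1

/-! # Polynomials in the indicators of the elements of a random set -/

set_option autoImplicit false

namespace Q198.CC

open Finset Q198.CI

lemma IsPoly.single {I T : Finset ℕ} {d : ℕ} (hT : T ⊆ I) (hd : T.card ≤ d) (a : ℝ) :
    IsPoly I d (fun S => a * (if T ⊆ S then 1 else 0)) := by
  classical
  refine ⟨fun T' => if T' = T then a else 0, fun S _ => ?_⟩
  simp only
  rw [sum_eq_single T]
  · rw [if_pos rfl]
  · intro T' _ h
    rw [if_neg h, zero_mul]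
  · intro h
    exact absurd (mem_smallSets.2 ⟨hT, hd⟩) h

lemma IsPoly.congr {I : Finset ℕ} {d : ℕ} {f g : Finset ℕ → ℝ} (hf : IsPoly I d f)
    (h : ∀ S ⊆ I, g S = f S) : IsPoly I d g := by
  obtain ⟨c, hc⟩ := hf
  exact ⟨c, fun S hS => by rw [h S hS, hc S hS]⟩

lemma IsPoly.add {I : Finset ℕ} {d : ℕ} {f g : Finset ℕ → ℝ} (hf : IsPoly I d f) (hg : IsPoly I d g) :
    IsPoly I d (fun S => f S + g S) := by
  obtain ⟨c, hc⟩ := hf
  obtain ⟨c', hc'⟩ := hg
  refine ⟨fun T => c T + c' T, fun S hS => ?_⟩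
  simp only
  rw [hc S hS, hc' S hS, ← sum_add_distrib]
  exact sum_congr rfl fun T _ => by ring

lemma IsPoly.smul {I : Finset ℕ} {d : ℕ} {f : Finset ℕ → ℝ} (hf : IsPoly I d f) (a : ℝ) :
    IsPoly I d (fun S => a * f S) := by
  obtain ⟨c, hc⟩ := hf
  refine ⟨fun T => a * c T, fun S hS => ?_⟩
  simp only
  rw [hc S hS, mul_sum]
  exact sum_congr rfl fun T _ => by ring

lemma IsPoly.zero (I : Finset ℕ) (d : ℕ) : IsPoly I d (fun _ => 0) :=
  ⟨fun _ => 0, fun S _ => by simp⟩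

lemma IsPoly.sum {ι : Type*} {I : Finset ℕ} {d : ℕ} (s : Finset ι) {f : ι → Finset ℕ → ℝ}
    (h : ∀ i ∈ s, IsPoly I d (f i)) : IsPoly I d (fun S => ∑ i ∈ s, f i S) := by
  classical
  induction s using Finset.induction_on with
  | empty => simpa using IsPoly.zero I d
  | insert a s ha ih =>
    have h1 := (h a (mem_insert_self a s)).add (ih fun i hi => h i (mem_insert_of_mem hi))
    refine h1.congr fun S _ => ?_
    rw [sum_insert ha]

lemma IsPoly.mul {I : Finset ℕ} {d d' : ℕ} {f g : Finset ℕ → ℝ} (hf : IsPoly I d f) (hg : IsPoly I d' g) :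
    IsPoly I (d + d') (fun S => f S * g S) := by
  classical
  obtain ⟨c, hc⟩ := hf
  obtain ⟨c', hc'⟩ := hg
  have h1 : IsPoly I (d + d') (fun S => ∑ T ∈ smallSets I d, ∑ T' ∈ smallSets I d',
      (c T * c' T') * (if T ∪ T' ⊆ S then 1 else 0)) := by
    refine IsPoly.sum _ fun T hT => IsPoly.sum _ fun T' hT' => ?_
    rw [mem_smallSets] at hT hT'
    exact IsPoly.single (union_subset hT.1 hT'.1) ((card_union_le _ _).trans (by omega)) _
  refine h1.congr fun S hS => ?_
  rw [hc S hS, hc' S hS, sum_mul_sum]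
  refine sum_congr rfl fun T _ => sum_congr rfl fun T' _ => ?_
  by_cases h2 : T ⊆ S
  · by_cases h3 : T' ⊆ S
    · rw [if_pos h2, if_pos h3, if_pos (union_subset h2 h3)]
      ring
    · rw [if_neg h3, if_neg fun h => h3 (subset_union_right.trans h)]
      ring
  · rw [if_neg h2, if_neg fun h => h2 (subset_union_left.trans h)]
    ring

lemma IsPoly.mono {I : Finset ℕ} {d d' : ℕ} (h : d ≤ d') {f : Finset ℕ → ℝ} (hf : IsPoly I d f) :
    IsPoly I d' f := by
  obtain ⟨c, hc⟩ := hf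
  have h1 : IsPoly I d' (fun S => ∑ T ∈ smallSets I d, c T * (if T ⊆ S then 1 else 0)) := by
    refine IsPoly.sum _ fun T hT => ?_
    rw [mem_smallSets] at hT
    exact IsPoly.single hT.1 (hT.2.trans h) _
  exact h1.congr hc

lemma IsPoly.const (I : Finset ℕ) (d : ℕ) (a : ℝ) : IsPoly I d (fun _ => a) := by
  refine (IsPoly.single (I := I) (T := ∅) (d := d) (empty_subset _) (by simp) a).congr fun S _ => ?_
  simp

lemma IsPoly.affine {I : Finset ℕ} {T : Finset ℕ} (hT : T ⊆ I) (α β : ℕ → ℝ) :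
    IsPoly I T.card (fun S => ∏ n ∈ T, (α n + β n * (if n ∈ S then 1 else 0))) := by
  classical
  induction T using Finset.induction_on with
  | empty => simpa using IsPoly.const I 0 1
  | insert a s ha ih =>
    rw [card_insert_of_notMem ha, add_comm]
    have h1 := ih ((subset_insert a s).trans hT)
    have h2 : IsPoly I 1 (fun S => α a + β a * (if a ∈ S then 1 else 0)) := by
      refine ((IsPoly.const I 1 (α a)).add (IsPoly.single (I := I) (T := {a}) (d := 1)
        (singleton_subset_iff.2 (hT (mem_insert_self a s))) (by simp) (β a))).congr fun S _ => ?_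
      simp
    refine (h2.mul h1).congr fun S _ => ?_
    rw [prod_insert ha]

lemma IsPoly.restrict {I J Y : Finset ℕ} {d : ℕ} {f : Finset ℕ → ℝ} (hf : IsPoly I d f) (hJ : J ⊆ I)
    (hY : Y ⊆ I \ J) : IsPoly J d (fun X => f (X ∪ Y)) := by
  classical
  obtain ⟨c, hc⟩ := hf
  have h1 : IsPoly J d (fun X => ∑ T ∈ smallSets I d, (c T * (if T \ J ⊆ Y then 1 else 0)) *
      (if T ∩ J ⊆ X then 1 else 0)) := by
    refine IsPoly.sum _ fun T hT => ?_
    rw [mem_smallSets] at hT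
    exact IsPoly.single inter_subset_right ((card_le_card inter_subset_left).trans hT.2) _
  refine h1.congr fun X hX => ?_
  rw [hc (X ∪ Y) (union_subset (hX.trans hJ) (hY.trans sdiff_subset))]
  refine sum_congr rfl fun T _ => ?_
  have h2 : T ⊆ X ∪ Y ↔ T \ J ⊆ Y ∧ T ∩ J ⊆ X := by
    constructor
    · intro h
      constructor
      · intro n hn
        rw [mem_sdiff] at hn
        rcases mem_union.1 (h hn.1) with h3 | h3
        · exact absurd (hX h3) hn.2
        · exact h3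
      · intro n hn
        rw [mem_inter] at hn
        rcases mem_union.1 (h hn.1) with h3 | h3
        · exact h3
        · exact absurd hn.2 (mem_sdiff.1 (hY h3)).2
    · rintro ⟨h3, h4⟩ n hn
      by_cases h5 : n ∈ J
      · exact mem_union_left _ (h4 (mem_inter.2 ⟨hn, h5⟩))
      · exact mem_union_right _ (h3 (mem_sdiff.2 ⟨hn, h5⟩))
  by_cases h3 : T \ J ⊆ Y
  · by_cases h4 : T ∩ J ⊆ X
    · rw [if_pos h3, if_pos h4, if_pos (h2.2 ⟨h3, h4⟩)]
      ring
    · rw [if_neg h4, if_neg fun h => h4 (h2.1 h).2]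
      ring
  · rw [if_neg h3, if_neg fun h => h3 (h2.1 h).1]
    ring

lemma law_poly {I : Finset ℕ} {K : ℕ} {p : ℕ → ℝ} {v w : Finset ℕ → ℝ} (hv : IsLaw I K p v)
    (hw : IsLaw I K p w) {f : Finset ℕ → ℝ} (hf : IsPoly I K f) :
    ∑ S ∈ I.powerset, v S * f S = ∑ S ∈ I.powerset, w S * f S := by
  classical
  obtain ⟨c, hc⟩ := hf
  have key : ∀ u : Finset ℕ → ℝ, IsLaw I K p u → ∑ S ∈ I.powerset, u S * f S =
      ∑ T ∈ smallSets I K, c T * ∏ n ∈ T, p n := by
    intro u hu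
    have h1 : ∀ S ∈ I.powerset, u S * f S = ∑ T ∈ smallSets I K, c T * (if T ⊆ S then u S else 0) := by
      intro S hS
      rw [hc S (mem_powerset.1 hS), mul_sum]
      refine sum_congr rfl fun T _ => ?_
      split_ifs <;> ring
    rw [sum_congr rfl h1, sum_comm]
    refine sum_congr rfl fun T hT => ?_
    rw [mem_smallSets] at hT
    rw [← mul_sum, ← sum_filter]
    have e : I.powerset.filter (fun S => T ⊆ S) = Icc T I := by
      ext S
      simp only [mem_Icc, mem_filter, mem_powerset]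
      exact and_comm
    rw [e, hu.2 T hT.1 hT.2]
  rw [key v hv, key w hw]

/-- the product weight -/
noncomputable def pwt (I : Finset ℕ) (p : ℕ → ℝ) (S : Finset ℕ) : ℝ := (∏ n ∈ S, p n) * ∏ n ∈ I \ S, (1 - p n)

lemma pwt_nonneg {I : Finset ℕ} {p : ℕ → ℝ} (h0 : ∀ n ∈ I, 0 ≤ p n) (h1 : ∀ n ∈ I, p n ≤ 1) {S : Finset ℕ}
    (hS : S ⊆ I) : 0 ≤ pwt I p S :=
  mul_nonneg (prod_nonneg fun n hn => h0 n (hS hn))
    (prod_nonneg fun n hn => by linarith [h1 n (mem_sdiff.1 hn).1])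

lemma pwt_sum_prod (I : Finset ℕ) (p f g : ℕ → ℝ) :
    ∑ S ∈ I.powerset, pwt I p S * ((∏ n ∈ S, f n) * ∏ n ∈ I \ S, g n) =
      ∏ n ∈ I, (p n * f n + (1 - p n) * g n) := by
  rw [prod_add]
  refine sum_congr rfl fun S _ => ?_
  unfold pwt
  rw [prod_mul_distrib, prod_mul_distrib]
  ring

lemma pwt_law {I : Finset ℕ} {p : ℕ → ℝ} (h0 : ∀ n ∈ I, 0 ≤ p n) (h1 : ∀ n ∈ I, p n ≤ 1) (K : ℕ) :
    IsLaw I K p (pwt I p) := by
  classical
  refine ⟨fun S hS => pwt_nonneg h0 h1 hS, fun T hT _ => ?_⟩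
  have h2 : ∑ S ∈ Icc T I, pwt I p S = ∑ S ∈ I.powerset, pwt I p S * ((∏ n ∈ S, (1:ℝ)) *
      ∏ n ∈ I \ S, (if n ∈ T then (0:ℝ) else 1)) := by
    have e : Icc T I = I.powerset.filter (fun S => T ⊆ S) := by
      ext S
      simp only [mem_Icc, mem_filter, mem_powerset]
      exact and_comm
    rw [e, sum_filter]
    refine sum_congr rfl fun S hS => ?_
    rw [prod_const_one, one_mul]
    by_cases h : T ⊆ S
    · rw [if_pos h, prod_eq_one, mul_one]
      intro n hn
      rw [if_neg]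
      exact fun h3 => (mem_sdiff.1 hn).2 (h h3)
    · rw [if_neg h]
      obtain ⟨n, hn, hnS⟩ := not_subset.1 h
      have h4 : ∏ n ∈ I \ S, (if n ∈ T then (0:ℝ) else 1) = 0 :=
        prod_eq_zero (mem_sdiff.2 ⟨hT hn, hnS⟩) (if_pos hn)
      rw [h4, mul_zero]
  rw [h2, pwt_sum_prod, ← prod_sdiff hT]
  have h3 : ∏ n ∈ I \ T, (p n * 1 + (1 - p n) * (if n ∈ T then (0:ℝ) else 1)) = 1 := by
    apply prod_eq_one
    intro n hn
    rw [if_neg (mem_sdiff.1 hn).2]
    ring
  rw [h3, one_mul]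
  refine prod_congr rfl fun n hn => ?_
  rw [if_pos hn]
  ring

lemma pwt_total (I : Finset ℕ) (p : ℕ → ℝ) : ∑ S ∈ I.powerset, pwt I p S = 1 := by
  have h1 := pwt_sum_prod I p (fun _ => 1) (fun _ => 1)
  simp only [prod_const_one, mul_one] at h1
  rw [h1]
  apply prod_eq_one
  intro n _
  ring

/-- sums over the subsets of a disjoint union -/
lemma sum_powerset_union' {A C : Finset ℕ} (h : Disjoint A C) (F : Finset ℕ → ℝ) :
    ∑ S ∈ (A ∪ C).powerset, F S = ∑ X ∈ A.powerset, ∑ Y ∈ C.powerset, F (X ∪ Y) := by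
  classical
  rw [← sum_product']
  symm
  refine sum_bij' (fun z _ => z.1 ∪ z.2) (fun S _ => (S ∩ A, S ∩ C)) ?_ ?_ ?_ ?_ ?_
  · rintro ⟨X, Y⟩ hz
    simp only [mem_product, mem_powerset] at hz ⊢
    exact union_subset_union hz.1 hz.2
  · intro S hS
    simp only [mem_product, mem_powerset]
    exact ⟨inter_subset_right, inter_subset_right⟩
  · rintro ⟨X, Y⟩ hz
    simp only [mem_product, mem_powerset] at hz
    have h1 : Disjoint X C := h.mono_left hz.1
    have h2 : Disjoint Y A := (h.mono_right hz.2).symm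
    simp only [Prod.mk.injEq]
    constructor
    · rw [union_inter_distrib_right, inter_eq_left.2 hz.1, disjoint_iff_inter_eq_empty.1 h2, union_empty]
    · rw [union_inter_distrib_right, inter_eq_left.2 hz.2, disjoint_iff_inter_eq_empty.1 h1, empty_union]
  · intro S hS
    rw [mem_powerset] at hS
    simp only
    rw [← inter_union_distrib_left, inter_eq_left.2 hS]
  · rintro ⟨X, Y⟩ _
    rfl

lemma pwt_union {A C X Y : Finset ℕ} (h : Disjoint A C) (p : ℕ → ℝ) (hX : X ⊆ A) (hY : Y ⊆ C) :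
    pwt (A ∪ C) p (X ∪ Y) = pwt A p X * pwt C p Y := by
  classical
  unfold pwt
  have h1 : Disjoint X Y := h.mono hX hY
  have h2 : (A ∪ C) \ (X ∪ Y) = (A \ X) ∪ (C \ Y) := by
    ext n
    simp only [mem_sdiff, mem_union]
    constructor
    · rintro ⟨h3 | h3, h4⟩
      · exact Or.inl ⟨h3, fun h5 => h4 (Or.inl h5)⟩
      · exact Or.inr ⟨h3, fun h5 => h4 (Or.inr h5)⟩
    · rintro (⟨h3, h4⟩ | ⟨h3, h4⟩)
      · refine ⟨Or.inl h3, ?_⟩
        rintro (h5 | h5)
        · exact h4 h5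
        · exact (disjoint_left.1 h h3) (hY h5)
      · refine ⟨Or.inr h3, ?_⟩
        rintro (h5 | h5)
        · exact (disjoint_left.1 h (hX h5)) h3
        · exact h4 h5
  rw [prod_union h1, h2, prod_union (h.mono sdiff_subset sdiff_subset)]
  ring

end Q198.CC
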