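import Pool.Agent.Q198.CC.L2

/-! # Small sets of configurations and the dual problem -/

set_option autoImplicit false

namespace Q198.CC

open Finset Q198.CI

lemma pwt_const (J X : Finset ℕ) (hX : X ⊆ J) {p : ℝ} (hp1 : p < 1) :
    pwt J (fun _ => p) X = (1 - p) ^ J.card * (p / (1 - p)) ^ X.card := by
  unfold pwt
  rw [prod_const, prod_const, card_sdiff_of_subset hX, div_pow]
  have h1 : 1 - p ≠ 0 := by linarith
  have h2 : (1 - p) ^ J.card = (1 - p) ^ (J.card - X.card) * (1 - p) ^ X.card := by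
    rw [← pow_add]
    congr 1
    have := card_le_card hX
    omega
  rw [h2]
  field_simp

open Classical in
theorem l1_single {I J : Finset ℕ} {d : ℕ} {p v : ℝ} (hJ : J ⊆ I) (hd : d ≤ J.card) (hp0 : 0 < p)
    (hp1 : p ≤ 1 / 2) (hv0 : 0 < v) (hv1 : v < 1) {q : Finset ℕ → ℝ} (hq : IsPoly I d q) :
    ∑ S ∈ I.powerset.filter (fun S => Disjoint S J), pwt I (fun _ => p) S * |q S| ≤
      (1 - p + p * v ^ 2) ^ J.card / v ^ d * ∑ S ∈ I.powerset, pwt I (fun _ => p) S * |q S| := by
  have hp2 : 0 < 1 - p := by linarith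
  set y : ℝ := p / (1 - p) with hy
  have hy0 : 0 < y := by positivity
  have hy1 : y ≤ 1 := by
    rw [hy, div_le_one hp2]
    linarith
  have hyy : 1 + y = (1 - p)⁻¹ := by
    rw [hy]
    field_simp
    ring
  have hyv : 1 + y * v ^ 2 = (1 - p + p * v ^ 2) * (1 - p)⁻¹ := by
    rw [hy]
    field_simp
  have hdis : Disjoint J (I \ J) := disjoint_sdiff
  have hun : J ∪ (I \ J) = I := union_sdiff_of_subset hJ
  have e1 : ∑ S ∈ I.powerset, pwt I (fun _ => p) S * |q S| =
      ∑ Y ∈ (I \ J).powerset, pwt (I \ J) (fun _ => p) Y *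
        ∑ X ∈ J.powerset, pwt J (fun _ => p) X * |q (X ∪ Y)| := by
    conv_lhs => rw [← hun]
    rw [sum_powerset_union' hdis, sum_comm]
    refine sum_congr rfl fun Y hY => ?_
    rw [mul_sum]
    refine sum_congr rfl fun X hX => ?_
    rw [pwt_union hdis _ (mem_powerset.1 hX) (mem_powerset.1 hY)]
    ring
  have e2 : ∑ S ∈ I.powerset.filter (fun S => Disjoint S J), pwt I (fun _ => p) S * |q S| =
      ∑ Y ∈ (I \ J).powerset, pwt (I \ J) (fun _ => p) Y * ((1 - p) ^ J.card * |q Y|) := by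
    have h1 : I.powerset.filter (fun S => Disjoint S J) = (I \ J).powerset := by
      ext S
      rw [mem_filter, mem_powerset, mem_powerset, subset_sdiff]
    rw [h1]
    refine sum_congr rfl fun Y hY => ?_
    have h2 := pwt_union hdis (fun _ => p) (empty_subset J) (mem_powerset.1 hY)
    rw [hun, empty_union, pwt_const J ∅ (empty_subset _) (by linarith), card_empty, pow_zero, mul_one] at h2
    rw [h2]
    ring
  rw [e1, e2, mul_sum]
  refine sum_le_sum fun Y hY => ?_
  rw [mem_powerset] at hY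
  have hpY : 0 ≤ pwt (I \ J) (fun _ => p) Y := pwt_nonneg (fun _ _ => hp0.le) (fun _ _ => by linarith) hY
  have h1 := set_ineq hd (hq.restrict hJ hY) hy0 hy1 hv0 hv1
  simp only [empty_union] at h1
  have h2 : ∑ X ∈ J.powerset, pwt J (fun _ => p) X * |q (X ∪ Y)| =
      (1 - p) ^ J.card * ∑ X ∈ J.powerset, y ^ X.card * |q (X ∪ Y)| := by
    rw [mul_sum]
    refine sum_congr rfl fun X hX => ?_
    rw [pwt_const J X (mem_powerset.1 hX) (by linarith)]
    ring
  rw [h2]
  have h3 : (1 - p) ^ J.card * |q Y| ≤ (1 - p + p * v ^ 2) ^ J.card / v ^ d *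
      ((1 - p) ^ J.card * ∑ X ∈ J.powerset, y ^ X.card * |q (X ∪ Y)|) := by
    rw [hyy, hyv, mul_pow, inv_pow] at h1
    have hpos : 0 < (1 - p) ^ J.card := by positivity
    have hv : 0 < v ^ d := by positivity
    have h4 : |q Y| * v ^ d ≤ (1 - p + p * v ^ 2) ^ J.card * ∑ X ∈ J.powerset, y ^ X.card * |q (X ∪ Y)| := by
      have h5 := mul_le_mul_of_nonneg_right h1 hpos.le
      have h6 : |q Y| * v ^ d * ((1 - p) ^ J.card)⁻¹ * (1 - p) ^ J.card = |q Y| * v ^ d := by
        field_simp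
      have h7 : (1 - p + p * v ^ 2) ^ J.card * ((1 - p) ^ J.card)⁻¹ *
          (∑ X ∈ J.powerset, y ^ X.card * |q (X ∪ Y)|) * (1 - p) ^ J.card =
          (1 - p + p * v ^ 2) ^ J.card * ∑ X ∈ J.powerset, y ^ X.card * |q (X ∪ Y)| := by
        field_simp
      rwa [h6, h7] at h5
    rw [div_mul_eq_mul_div, le_div_iff₀ hv]
    calc (1 - p) ^ J.card * |q Y| * v ^ d = (1 - p) ^ J.card * (|q Y| * v ^ d) := by ring
      _ ≤ (1 - p) ^ J.card * ((1 - p + p * v ^ 2) ^ J.card * ∑ X ∈ J.powerset, y ^ X.card * |q (X ∪ Y)|) :=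
          mul_le_mul_of_nonneg_left h4 hpos.le
      _ = _ := by ring
  calc pwt (I \ J) (fun _ => p) Y * ((1 - p) ^ J.card * |q Y|) ≤ pwt (I \ J) (fun _ => p) Y *
        ((1 - p + p * v ^ 2) ^ J.card / v ^ d *
      ((1 - p) ^ J.card * ∑ X ∈ J.powerset, y ^ X.card * |q (X ∪ Y)|)) := mul_le_mul_of_nonneg_left h3 hpY
    _ = _ := by ring

open Classical in
theorem l1_many {I : Finset ℕ} {F : Finset (Finset ℕ)} {d l : ℕ} {p v η : ℝ} (hF : ∀ J ∈ F, J ⊆ I)
    (hl : ∀ J ∈ F, J.card = l) (hd : d ≤ l) (hp0 : 0 < p)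
    (hp1 : p ≤ 1 / 2) (hv0 : 0 < v) (hv1 : v < 1) (hη1 : η ≤ 1)
    (hη : 2 * (F.card * ((1 - p + p * v ^ 2) ^ l / v ^ d)) ≤ η) (A : Finset ℕ → Prop)
    (hA : ∀ S, A S → ∃ J ∈ F, Disjoint S J)
    {q : Finset ℕ → ℝ} (hq : IsPoly I d q) :
    ∑ S ∈ I.powerset.filter A, pwt I (fun _ => p) S * |q S| ≤
      η * ∑ S ∈ I.powerset.filter (fun S => ¬ A S), pwt I (fun _ => p) S * |q S| := by
  set ρ : ℝ := (1 - p + p * v ^ 2) ^ l / v ^ d with hρ
  have hρ0 : 0 ≤ ρ := by
    have : 0 ≤ 1 - p + p * v ^ 2 := by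
      have : 0 ≤ p * v ^ 2 := by positivity
      linarith
    positivity
  set f : Finset ℕ → ℝ := fun S => pwt I (fun _ => p) S * |q S| with hf
  have hf0 : ∀ S ∈ I.powerset, 0 ≤ f S := fun S hS =>
    mul_nonneg (pwt_nonneg (fun _ _ => hp0.le) (fun _ _ => by linarith) (mem_powerset.1 hS)) (abs_nonneg _)
  have h1 : ∑ S ∈ I.powerset.filter A, f S ≤
      ∑ J ∈ F, ∑ S ∈ I.powerset.filter (fun S => Disjoint S J), f S := by
    simp_rw [sum_filter]
    rw [sum_comm]
    refine sum_le_sum fun S hS => ?_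
    split_ifs with h
    · obtain ⟨J, hJ, hSJ⟩ := hA S h
      refine le_trans ?_ (single_le_sum (f := fun J => if Disjoint S J then f S else 0) (fun J _ => ?_) hJ)
      · show f S ≤ if Disjoint S J then f S else 0
        rw [if_pos hSJ]
      · show 0 ≤ if Disjoint S J then f S else 0
        split_ifs
        · exact hf0 S hS
        · exact le_rfl
    · apply sum_nonneg
      intro J _
      split_ifs
      · exact hf0 S hS
      · exact le_rfl
  have h2 : ∑ J ∈ F, ∑ S ∈ I.powerset.filter (fun S => Disjoint S J), f S ≤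
      F.card * ρ * ∑ S ∈ I.powerset, f S := by
    have h3 : ∀ J ∈ F, ∑ S ∈ I.powerset.filter (fun S => Disjoint S J), f S ≤ ρ * ∑ S ∈ I.powerset, f S := by
      intro J hJ
      have h4 := l1_single (hF J hJ) (by rw [hl J hJ]; exact hd) hp0 hp1 hv0 hv1 hq
      rw [hl J hJ] at h4
      exact h4
    refine (sum_le_card_nsmul _ _ _ h3).trans (le_of_eq ?_)
    rw [nsmul_eq_mul]
    ring
  have h3 : ∑ S ∈ I.powerset, f S = ∑ S ∈ I.powerset.filter A, f S +
      ∑ S ∈ I.powerset.filter (fun S => ¬ A S), f S :=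
    (sum_filter_add_sum_filter_not _ _ _).symm
  set a : ℝ := ∑ S ∈ I.powerset.filter A, f S with ha
  set b : ℝ := ∑ S ∈ I.powerset.filter (fun S => ¬ A S), f S with hb
  have ha0 : 0 ≤ a := sum_nonneg fun S hS => hf0 S (mem_filter.1 hS).1
  have hb0 : 0 ≤ b := sum_nonneg fun S hS => hf0 S (mem_filter.1 hS).1
  have h4 : a ≤ F.card * ρ * (a + b) := by
    rw [← h3]
    exact h1.trans h2
  have h5 : F.card * ρ ≤ η / 2 := by linarith
  have h6 : F.card * ρ * (a + b) ≤ η / 2 * (a + b) := mul_le_mul_of_nonneg_right h5 (by linarith)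
  have h7 : η / 2 * a ≤ 1 / 2 * a := mul_le_mul_of_nonneg_right (by linarith) ha0
  show a ≤ η * b
  linarith

/-- the polynomials as a subspace -/
def polySub (I : Finset ℕ) (d : ℕ) : Submodule ℝ (Finset ℕ → ℝ) where
  carrier := {q | IsPoly I d q}
  add_mem' := fun ha hb => IsPoly.add ha hb
  zero_mem' := IsPoly.zero I d
  smul_mem' := fun c _ hx => IsPoly.smul hx c

open Classical in
theorem exists_g {I : Finset ℕ} {d : ℕ} {w : Finset ℕ → ℝ} (hw : ∀ S ⊆ I, 0 < w S) (A : Finset ℕ → Prop)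
    {η : ℝ} (hη : 0 ≤ η)
    (h : ∀ q, IsPoly I d q → ∑ S ∈ I.powerset.filter A, w S * |q S| ≤
      η * ∑ S ∈ I.powerset.filter (fun S => ¬ A S), w S * |q S|) :
    ∃ g : Finset ℕ → ℝ, (∀ S ⊆ I, A S → g S = 1) ∧ (∀ S ⊆ I, ¬ A S → |g S| ≤ η) ∧
      ∀ q, IsPoly I d q → ∑ S ∈ I.powerset, w S * (g S * q S) = 0 := by
  set φ : (Finset ℕ → ℝ) →ₗ[ℝ] ℝ :=
    { toFun := fun F => -∑ S ∈ I.powerset.filter A, w S * F S
      map_add' := fun F G => by
        simp only [Pi.add_apply, mul_add, sum_add_distrib]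
        ring
      map_smul' := fun c F => by
        simp only [Pi.smul_apply, smul_eq_mul, RingHom.id_apply]
        rw [mul_neg, mul_sum]
        congr 1
        exact sum_congr rfl fun S _ => by ring } with hφ
  set N : (Finset ℕ → ℝ) → ℝ := fun F => η * ∑ S ∈ I.powerset.filter (fun S => ¬ A S), w S * |F S| with hN
  obtain ⟨ψ, hψ1, hψ2⟩ := exists_extension_of_le_sublinear (φ.toPMap (polySub I d)) N
    (by
      intro c hc x
      simp only [hN, Pi.smul_apply, smul_eq_mul, abs_mul, abs_of_pos hc]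
      rw [mul_left_comm, mul_sum (a := c)]
      congr 1
      exact sum_congr rfl fun S _ => by ring)
    (by
      intro x y
      simp only [hN, Pi.add_apply]
      rw [← mul_add, ← sum_add_distrib]
      apply mul_le_mul_of_nonneg_left _ hη
      refine sum_le_sum fun S hS => ?_
      rw [← mul_add]
      exact mul_le_mul_of_nonneg_left (abs_add_le _ _) (hw S (mem_powerset.1 (mem_filter.1 hS).1)).le)
    (by
      intro x
      have h1 := h x.1 x.2
      have h2 : (φ.toPMap (polySub I d)) x = -∑ S ∈ I.powerset.filter A, w S * x.1 S := rfl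
      rw [h2]
      refine le_trans ?_ h1
      rw [← sum_neg_distrib]
      refine sum_le_sum fun S hS => ?_
      have h3 := hw S (mem_powerset.1 (mem_filter.1 hS).1)
      have h4 := neg_abs_le (x.1 S)
      nlinarith)
  have hzero : ∀ F : Finset ℕ → ℝ, (∀ S ⊆ I, ¬ A S → F S = 0) → ψ F = 0 := by
    intro F hF
    have h1 : N F = 0 := by
      simp only [hN]
      rw [sum_eq_zero, mul_zero]
      intro S hS
      rw [mem_filter, mem_powerset] at hS
      rw [hF S hS.1 hS.2, abs_zero, mul_zero]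
    have h2 : N (-F) = 0 := by
      simp only [hN, Pi.neg_apply, abs_neg]
      exact h1
    have h3 := hψ2 F
    have h4 := hψ2 (-F)
    rw [map_neg] at h4
    linarith
  refine ⟨fun S => if A S then 1 else ψ (Pi.single S 1) / w S, fun S _ hA => if_pos hA, ?_, ?_⟩
  · intro S hS hA
    simp only
    rw [if_neg hA, abs_div, abs_of_pos (hw S hS), div_le_iff₀ (hw S hS), abs_le]
    have h1 : ∀ a : ℝ, |a| = 1 → N (a • Pi.single S (1:ℝ)) = η * w S := by
      intro a ha
      simp only [hN, Pi.smul_apply, smul_eq_mul]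
      rw [sum_eq_single S]
      · rw [Pi.single_eq_same, mul_one, ha, mul_one]
      · intro S' _ hne
        rw [Pi.single_eq_of_ne hne]
        simp
      · intro h2
        exact absurd (mem_filter.2 ⟨mem_powerset.2 hS, hA⟩) h2
    have h2 := hψ2 ((1:ℝ) • Pi.single S (1:ℝ))
    have h3 := hψ2 ((-1:ℝ) • Pi.single S (1:ℝ))
    rw [h1 1 (by simp), map_smul, one_smul] at h2
    rw [h1 (-1) (by simp), map_smul, neg_smul, one_smul] at h3
    constructor <;> linarith
  · intro q hq
    have h1 := hψ1 ⟨q, hq⟩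
    have h2 : (φ.toPMap (polySub I d)) ⟨q, hq⟩ = -∑ S ∈ I.powerset.filter A, w S * q S := rfl
    rw [h2] at h1
    have h3 : ψ q = ∑ S ∈ I.powerset.filter (fun S => ¬ A S), q S * ψ (Pi.single S 1) := by
      have h4 : ψ (q - ∑ S ∈ I.powerset.filter (fun S => ¬ A S), q S • Pi.single S (1:ℝ)) = 0 := by
        apply hzero
        intro S hS hA
        rw [Pi.sub_apply, Finset.sum_apply, sum_eq_single S]
        · simp
        · intro S' _ hne
          simp [Pi.single_eq_of_ne hne.symm]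
        · intro h2
          exact absurd (mem_filter.2 ⟨mem_powerset.2 hS, hA⟩) h2
      rw [map_sub, map_sum, sub_eq_zero] at h4
      rw [h4]
      refine sum_congr rfl fun S _ => ?_
      rw [map_smul, smul_eq_mul]
    rw [← sum_filter_add_sum_filter_not I.powerset A]
    have h5 : ∑ S ∈ I.powerset.filter A, w S * ((if A S then 1 else ψ (Pi.single S 1) / w S) * q S) =
        ∑ S ∈ I.powerset.filter A, w S * q S := by
      refine sum_congr rfl fun S hS => ?_
      rw [if_pos (mem_filter.1 hS).2, one_mul]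
    have h6 : ∑ S ∈ I.powerset.filter (fun S => ¬ A S), w S * ((if A S then 1 else ψ (Pi.single S 1) / w S) * q S) =
        ∑ S ∈ I.powerset.filter (fun S => ¬ A S), q S * ψ (Pi.single S 1) := by
      refine sum_congr rfl fun S hS => ?_
      rw [mem_filter, mem_powerset] at hS
      rw [if_neg hS.2]
      have := (hw S hS.1).ne'
      field_simp
    have h7 : ψ q = -∑ S ∈ I.powerset.filter A, w S * q S := h1
    rw [h5, h6, ← h3, h7]
    ring

end Q198.CC
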