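import Pool.Agent.Q198.CC.L3

/-! # Mixtures of two products of modified laws -/

set_option autoImplicit false

namespace Q198.CC

open Finset Q198.CI

lemma factor {B : Finset ℕ} {I : ℕ → Finset ℕ}
    (hdis : ∀ b ∈ B, ∀ b' ∈ B, b ≠ b' → Disjoint (I b) (I b')) (p : ℕ → ℝ) (f : ℕ → Finset ℕ → ℝ) :
    ∑ X ∈ (B.biUnion I).powerset, pwt (B.biUnion I) p X * ∏ b ∈ B, f b (X ∩ I b) =
      ∏ b ∈ B, ∑ X ∈ (I b).powerset, pwt (I b) p X * f b X := by
  classical
  induction B using Finset.induction_on with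
  | empty =>
    simp [pwt]
  | insert a B ha ih =>
    have h1 : Disjoint (I a) (B.biUnion I) := by
      rw [disjoint_biUnion_right]
      intro b hb
      exact hdis a (mem_insert_self a B) b (mem_insert_of_mem hb) fun h => ha (h ▸ hb)
    have ih' := ih fun b hb b' hb' h => hdis b (mem_insert_of_mem hb) b' (mem_insert_of_mem hb') h
    rw [biUnion_insert, sum_powerset_union' h1, prod_insert ha, ← ih', sum_mul_sum]
    refine sum_congr rfl fun X hX => sum_congr rfl fun Y hY => ?_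
    rw [mem_powerset] at hX hY
    rw [pwt_union h1 p hX hY, prod_insert ha]
    have h2 : (X ∪ Y) ∩ I a = X := by
      rw [union_inter_distrib_right, inter_eq_left.2 hX,
        disjoint_iff_inter_eq_empty.1 ((h1.mono_right hY).symm), union_empty]
    have h3 : ∀ b ∈ B, f b ((X ∪ Y) ∩ I b) = f b (Y ∩ I b) := by
      intro b hb
      have h4 : Disjoint X (I b) := (hdis a (mem_insert_self a B) b (mem_insert_of_mem hb)
        fun h => ha (h ▸ hb)).mono_left hX
      rw [union_inter_distrib_right, disjoint_iff_inter_eq_empty.1 h4, empty_union]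
    rw [h2, prod_congr rfl h3]
    ring

lemma filter_Icc' (T I : Finset ℕ) : Icc T I = I.powerset.filter (fun S => T ⊆ S) := by
  ext S
  simp only [mem_Icc, mem_filter, mem_powerset]
  exact and_comm

theorem mix_law {B : Finset ℕ} {I : ℕ → Finset ℕ}
    (hdis : ∀ b ∈ B, ∀ b' ∈ B, b ≠ b' → Disjoint (I b) (I b')) {p η : ℝ} (hp0 : 0 < p) (hp1 : p ≤ 1)
    (hη0 : 0 < η) (hη1 : η ≤ 1) {d K : ℕ} (hK : K ≤ 2 * d + 1) (g : ℕ → Finset ℕ → ℝ)
    (hg1 : ∀ b ∈ B, ∀ S ⊆ I b, g b S ≤ 1) (hg2 : ∀ b ∈ B, ∀ S ⊆ I b, -η ≤ g b S)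
    (hg : ∀ b ∈ B, ∀ q, IsPoly (I b) d q → ∑ S ∈ (I b).powerset, pwt (I b) (fun _ => p) S * (g b S * q S) = 0) :
    ∃ u : Finset ℕ → ℝ, IsLaw (B.biUnion I) K (fun _ => p) u ∧
      ∀ F ⊆ (B.biUnion I).powerset, (∀ X ∈ F, ∃ b ∈ B, g b (X ∩ I b) = 1) → ∑ X ∈ F, u X ≤ η := by
  classical
  set U : Finset ℕ := B.biUnion I with hU
  set a : ℝ := (1 - η) / η with ha
  have ha0 : 0 ≤ a := div_nonneg (by linarith) hη0.le
  set P0 : Finset ℕ → ℝ := fun X => ∏ b ∈ B, (1 - g b (X ∩ I b)) with hP0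
  set P1 : Finset ℕ → ℝ := fun X => ∏ b ∈ B, (1 + a * g b (X ∩ I b)) with hP1
  have hpw : ∀ X ⊆ U, 0 ≤ pwt U (fun _ => p) X := fun X hX =>
    pwt_nonneg (fun _ _ => hp0.le) (fun _ _ => hp1) hX
  have hP0n : ∀ X, 0 ≤ P0 X := fun X => prod_nonneg fun b hb => by
    have := hg1 b hb (X ∩ I b) inter_subset_right
    linarith
  have hP1n : ∀ X, 0 ≤ P1 X := fun X => prod_nonneg fun b hb => by
    have h1 := hg2 b hb (X ∩ I b) inter_subset_right
    have h2 : a * -η ≤ a * g b (X ∩ I b) := mul_le_mul_of_nonneg_left h1 ha0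
    have h3 : a * -η = -(1 - η) := by
      rw [ha]
      field_simp
    linarith
  -- moments of the products
  have hmom : ∀ (α : ℝ) (T : Finset ℕ), ∑ X ∈ U.powerset, pwt U (fun _ => p) X *
      ((if T ∩ U ⊆ X then 1 else 0) * ∏ b ∈ B, (1 + α * g b (X ∩ I b))) =
      ∏ b ∈ B, (p ^ (T ∩ I b).card +
        α * ∑ X ∈ (I b).powerset, pwt (I b) (fun _ => p) X * (g b X * (if T ∩ I b ⊆ X then 1 else 0))) := by
    intro α T
    have h1 : ∀ X ∈ U.powerset, pwt U (fun _ => p) X *
      ((if T ∩ U ⊆ X then 1 else 0) * ∏ b ∈ B, (1 + α * g b (X ∩ I b))) = pwt U (fun _ => p) X *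
        ∏ b ∈ B, (fun b Z => (if T ∩ I b ⊆ Z then (1:ℝ) else 0) * (1 + α * g b Z)) b (X ∩ I b) := by
      intro X _
      simp only
      rw [prod_mul_distrib]
      congr 2
      by_cases h : T ∩ U ⊆ X
      · rw [if_pos h]
        symm
        apply prod_eq_one
        intro b hb
        rw [if_pos]
        intro n hn
        rw [mem_inter] at hn ⊢
        exact ⟨h (mem_inter.2 ⟨hn.1, mem_biUnion.2 ⟨b, hb, hn.2⟩⟩), hn.2⟩
      · rw [if_neg h]
        obtain ⟨n, hn, hnX⟩ := not_subset.1 h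
        rw [mem_inter, hU, mem_biUnion] at hn
        obtain ⟨hnT, b, hb, hnb⟩ := hn
        symm
        apply prod_eq_zero hb
        rw [if_neg]
        intro h2
        exact hnX (mem_inter.1 (h2 (mem_inter.2 ⟨hnT, hnb⟩))).1
    rw [sum_congr rfl h1]
    refine (factor hdis (fun _ => p) (fun b Z => (if T ∩ I b ⊆ Z then (1:ℝ) else 0) *
      (1 + α * g b Z))).trans ?_
    refine prod_congr rfl fun b hb => ?_
    have h2 := (pwt_law (I := I b) (p := fun _ => p) (fun _ _ => hp0.le) (fun _ _ => hp1) (T ∩ I b).card).2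
      (T ∩ I b) inter_subset_right le_rfl
    rw [filter_Icc', sum_filter, prod_const] at h2
    rw [← h2, mul_sum, ← sum_add_distrib]
    refine sum_congr rfl fun X _ => ?_
    split_ifs <;> ring
  have hG0 : ∀ b ∈ B, ∀ T : Finset ℕ, (T ∩ I b).card ≤ d → ∑ X ∈ (I b).powerset,
      pwt (I b) (fun _ => p) X * (g b X * (if T ∩ I b ⊆ X then 1 else 0)) = 0 := by
    intro b hb T hT
    have h1 := hg b hb _ (IsPoly.single (I := I b) (T := T ∩ I b) inter_subset_right hT 1)
    simpa using h1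
  have htot : ∀ α : ℝ, ∑ X ∈ U.powerset, pwt U (fun _ => p) X * ∏ b ∈ B, (1 + α * g b (X ∩ I b)) = 1 := by
    intro α
    have h1 := hmom α ∅
    simp only [empty_inter, empty_subset, if_true, one_mul, card_empty, pow_zero, mul_one] at h1
    rw [h1]
    apply prod_eq_one
    intro b hb
    have h2 := hG0 b hb ∅ (by simp)
    simp only [empty_inter, empty_subset, if_true, mul_one] at h2
    rw [h2]
    ring
  refine ⟨fun X => pwt U (fun _ => p) X * ((1 - η) * P0 X + η * P1 X), ⟨?_, ?_⟩, ?_⟩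
  · intro X hX
    have h1 := hpw X hX
    have h2 := hP0n X
    have h3 := hP1n X
    have h4 : 0 ≤ 1 - η := by linarith
    positivity
  · intro T hT hTK
    have hTU : T ∩ U = T := inter_eq_left.2 hT
    have h0 : ∑ S ∈ Icc T U, pwt U (fun _ => p) S * ((1 - η) * P0 S + η * P1 S) =
        (1 - η) * (∑ X ∈ U.powerset, pwt U (fun _ => p) X *
          ((if T ∩ U ⊆ X then 1 else 0) * ∏ b ∈ B, (1 + (-1) * g b (X ∩ I b)))) +
        η * (∑ X ∈ U.powerset, pwt U (fun _ => p) X *
          ((if T ∩ U ⊆ X then 1 else 0) * ∏ b ∈ B, (1 + a * g b (X ∩ I b)))) := by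
      rw [filter_Icc', sum_filter, mul_sum, mul_sum, ← sum_add_distrib, hTU]
      refine sum_congr rfl fun X _ => ?_
      have h1 : P0 X = ∏ b ∈ B, (1 + (-1) * g b (X ∩ I b)) := prod_congr rfl fun b _ => by ring
      rw [← h1]
      simp only [hP1]
      split_ifs <;> ring
    rw [h0, hmom, hmom]
    set e : ℕ → ℝ := fun b => p ^ (T ∩ I b).card with he
    set G : ℕ → ℝ := fun b => ∑ X ∈ (I b).powerset, pwt (I b) (fun _ => p) X *
      (g b X * (if T ∩ I b ⊆ X then 1 else 0)) with hG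
    have hcard : ∑ b ∈ B, (T ∩ I b).card = T.card := by
      have h1 : T = B.biUnion (fun b => T ∩ I b) := by
        rw [← inter_biUnion]
        exact hTU.symm
      conv_rhs => rw [h1]
      rw [card_biUnion]
      intro b hb b' hb' hne
      exact (hdis b hb b' hb' hne).mono inter_subset_right inter_subset_right
    have hprod : ∏ b ∈ B, e b = ∏ _n ∈ T, p := by
      simp only [he]
      rw [prod_pow_eq_pow_sum, hcard, prod_const]
    rw [← hprod]
    by_cases hex : ∃ b ∈ B, d < (T ∩ I b).card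
    · obtain ⟨b, hb, hbd⟩ := hex
      have hz : ∀ b' ∈ B.erase b, G b' = 0 := by
        intro b' hb'
        rw [mem_erase] at hb'
        apply hG0 b' hb'.2 T
        have h1 : ({b', b} : Finset ℕ) ⊆ B := by
          intro x hx
          rw [mem_insert, mem_singleton] at hx
          rcases hx with rfl | rfl
          · exact hb'.2
          · exact hb
        have h2 : ∑ x ∈ ({b', b} : Finset ℕ), (T ∩ I x).card ≤ ∑ x ∈ B, (T ∩ I x).card :=
          sum_le_sum_of_subset h1
        rw [sum_pair hb'.1, hcard] at h2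
        omega
      have hpr : ∀ α : ℝ, ∏ x ∈ B, (e x + α * G x) = (e b + α * G b) * ∏ x ∈ B.erase b, e x := by
        intro α
        rw [← mul_prod_erase B _ hb]
        congr 1
        refine prod_congr rfl fun x hx => ?_
        rw [hz x hx]
        ring
      rw [hpr, hpr, ← mul_prod_erase B _ hb]
      have h1 : η * a = 1 - η := by
        rw [ha]
        field_simp
      linear_combination (G b * ∏ x ∈ B.erase b, e x) * h1
    · push Not at hex
      have hpr : ∀ α : ℝ, ∏ x ∈ B, (e x + α * G x) = ∏ x ∈ B, e x := by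
        intro α
        refine prod_congr rfl fun x hx => ?_
        have h1 : G x = 0 := hG0 x hx T (hex x hx)
        rw [h1]
        ring
      rw [hpr, hpr]
      ring
  · intro F hF hF1
    have h1 : ∀ X ∈ F, pwt U (fun _ => p) X * ((1 - η) * P0 X + η * P1 X) =
        η * (pwt U (fun _ => p) X * P1 X) := by
      intro X hX
      obtain ⟨b, hb, hgb⟩ := hF1 X hX
      have h2 : P0 X = 0 := prod_eq_zero hb (by rw [hgb]; ring)
      rw [h2]
      ring
    rw [sum_congr rfl h1, ← mul_sum]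
    have h2 : ∑ X ∈ F, pwt U (fun _ => p) X * P1 X ≤ ∑ X ∈ U.powerset, pwt U (fun _ => p) X * P1 X :=
      sum_le_sum_of_subset_of_nonneg hF fun X hX _ => mul_nonneg (hpw X (mem_powerset.1 hX)) (hP1n X)
    have h3 := htot a
    have h4 : ∑ X ∈ U.powerset, pwt U (fun _ => p) X * P1 X = 1 := h3
    rw [h4] at h2
    nlinarith

end Q198.CC
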