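import Pool.Agent.Q198.CC.L4

/-! # Marked elements, and the law of a scale -/

set_option autoImplicit false

namespace Q198.CC

open Finset Q198.CI

/-- the law of the union of the marked elements and of a random subset of the rest -/
noncomputable def mw (D : Finset ℕ) (m : ℕ → ℝ) (u : Finset ℕ → Finset ℕ → ℝ) (S : Finset ℕ) : ℝ :=
  ∑ M ∈ D.powerset, ∑ X ∈ (D \ M).powerset, if M ∪ X = S then pwt D m M * u M X else 0

lemma mw_sum (D : Finset ℕ) (m : ℕ → ℝ) (u : Finset ℕ → Finset ℕ → ℝ) (F : Finset ℕ → ℝ) :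
    ∑ S ∈ D.powerset, mw D m u S * F S =
      ∑ M ∈ D.powerset, pwt D m M * ∑ X ∈ (D \ M).powerset, u M X * F (M ∪ X) := by
  unfold mw
  simp_rw [sum_mul]
  rw [sum_comm]
  refine sum_congr rfl fun M hM => ?_
  rw [sum_comm, mul_sum]
  refine sum_congr rfl fun X hX => ?_
  rw [mem_powerset] at hM hX
  rw [sum_eq_single (M ∪ X)]
  · rw [if_pos rfl]
    ring
  · intro S _ hne
    rw [if_neg hne.symm, zero_mul]
  · intro h
    exact absurd (mem_powerset.2 (union_subset hM (hX.trans sdiff_subset))) h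

theorem mw_law {D : Finset ℕ} {m : ℕ → ℝ} {u : Finset ℕ → Finset ℕ → ℝ} {K : ℕ} {p : ℝ}
    (hm0 : ∀ n ∈ D, 0 ≤ m n) (hm1 : ∀ n ∈ D, m n ≤ 1)
    (hu : ∀ M ⊆ D, IsLaw (D \ M) K (fun _ => p) (u M)) :
    IsLaw D K (fun n => m n + (1 - m n) * p) (mw D m u) := by
  classical
  constructor
  · intro S _
    unfold mw
    refine sum_nonneg fun M hM => sum_nonneg fun X hX => ?_
    rw [mem_powerset] at hM hX
    split_ifs
    · exact mul_nonneg (pwt_nonneg hm0 hm1 hM) ((hu M hM).1 X hX)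
    · exact le_rfl
  · intro T hT hTK
    have h1 := mw_sum D m u (fun S => if T ⊆ S then (1:ℝ) else 0)
    have h2 : ∑ S ∈ Icc T D, mw D m u S = ∑ S ∈ D.powerset, mw D m u S * (if T ⊆ S then (1:ℝ) else 0) := by
      rw [filter_Icc', sum_filter]
      refine sum_congr rfl fun S _ => ?_
      split_ifs <;> ring
    rw [h2, h1]
    have h3 : ∀ M ∈ D.powerset, pwt D m M * ∑ X ∈ (D \ M).powerset, u M X * (if T ⊆ M ∪ X then (1:ℝ) else 0) =
        pwt D m M * ((∏ _n ∈ M, (1:ℝ)) * ∏ n ∈ D \ M, (if n ∈ T then p else 1)) := by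
      intro M hM
      rw [mem_powerset] at hM
      congr 1
      have h4 := (hu M hM).2 (T \ M) (sdiff_subset_sdiff hT le_rfl)
        ((card_le_card sdiff_subset).trans hTK)
      rw [filter_Icc', sum_filter] at h4
      rw [prod_const_one, one_mul]
      have h5 : ∏ n ∈ D \ M, (if n ∈ T then p else 1) = ∏ _n ∈ T \ M, p := by
        rw [← prod_filter]
        congr 1
        ext n
        simp only [mem_filter, mem_sdiff]
        constructor
        · rintro ⟨⟨_, h6⟩, h7⟩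
          exact ⟨h7, h6⟩
        · rintro ⟨h6, h7⟩
          exact ⟨⟨hT h6, h7⟩, h6⟩
      rw [h5, ← h4]
      refine sum_congr rfl fun X _ => ?_
      have h6 : T ⊆ M ∪ X ↔ T \ M ⊆ X := by
        rw [sdiff_le_iff]
        rfl
      by_cases h7 : T ⊆ M ∪ X
      · rw [if_pos h7, if_pos (h6.1 h7), mul_one]
      · rw [if_neg h7, if_neg (fun h => h7 (h6.2 h)), mul_zero]
    rw [sum_congr rfl h3, pwt_sum_prod, ← prod_sdiff hT]
    have h4 : ∏ n ∈ D \ T, (m n * 1 + (1 - m n) * (if n ∈ T then p else 1)) = 1 := by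
      apply prod_eq_one
      intro n hn
      rw [if_neg (mem_sdiff.1 hn).2]
      ring
    rw [h4, one_mul]
    refine prod_congr rfl fun n hn => ?_
    rw [if_pos hn]
    ring

/-- the index of the block of `n` -/
def bi' (M : Finset ℕ) (n : ℕ) : ℕ := (M.filter (fun x => x < n)).card

lemma bi'_mono (M : Finset ℕ) {a b : ℕ} (h : a ≤ b) : bi' M a ≤ bi' M b := by
  unfold bi'
  apply card_le_card
  intro x hx
  rw [mem_filter] at hx ⊢
  exact ⟨hx.1, lt_of_lt_of_le hx.2 h⟩

lemma bi'_lt {M : Finset ℕ} {a b n : ℕ} (h1 : a ≤ n) (h2 : n < b) (hn : n ∈ M) : bi' M a < bi' M b := by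
  unfold bi'
  apply card_lt_card
  rw [ssubset_iff_of_subset]
  · refine ⟨n, mem_filter.2 ⟨hn, h2⟩, fun h => ?_⟩
    have := (mem_filter.1 h).2
    omega
  · intro x hx
    rw [mem_filter] at hx ⊢
    exact ⟨hx.1, by omega⟩

/-- the block with index `b` -/
def Ib (A A' : ℕ) (M : Finset ℕ) (b : ℕ) : Finset ℕ := (Ico A A' \ M).filter (fun n => bi' M n = b)

lemma Ib_card {A A' R : ℕ} {M : Finset ℕ} (hR : 1 ≤ R) (h : ∀ x, ¬ Ico x (x + R) ⊆ Ico A A' \ M) (b : ℕ) :
    (Ib A A' M b).card ≤ R := by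
  by_contra hcon
  rw [not_le] at hcon
  have hne : (Ib A A' M b).Nonempty := card_pos.1 (by omega)
  set a := (Ib A A' M b).min' hne with ha
  set c := (Ib A A' M b).max' hne with hc
  have ha' : a ∈ Ib A A' M b := min'_mem _ _
  have hc' : c ∈ Ib A A' M b := max'_mem _ _
  have hsub : Ib A A' M b ⊆ Icc a c := fun x hx => mem_Icc.2 ⟨min'_le _ _ hx, le_max' _ _ hx⟩
  have hcard := card_le_card hsub
  rw [Nat.card_Icc] at hcard
  unfold Ib at ha' hc'
  rw [mem_filter, mem_sdiff, mem_Ico] at ha' hc'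
  apply h a
  intro n hn
  rw [mem_Ico] at hn
  rw [mem_sdiff, mem_Ico]
  refine ⟨⟨by omega, by omega⟩, fun hnM => ?_⟩
  have h1 : n < c := by
    rcases lt_or_eq_of_le (show n ≤ c by omega) with h2 | h2
    · exact h2
    · rw [h2] at hnM
      exact absurd hnM hc'.1.2
  have h2 := bi'_lt hn.1 h1 hnM
  rw [ha'.2, hc'.2] at h2
  omega

lemma Ib_run {A A' l x : ℕ} {M : Finset ℕ} (h : Ico x (x + l) ⊆ Ico A A' \ M) :
    Ico x (x + l) ⊆ Ib A A' M (bi' M x) := by
  intro n hn
  unfold Ib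
  rw [mem_filter]
  refine ⟨h hn, ?_⟩
  rw [mem_Ico] at hn
  apply le_antisymm
  · unfold bi'
    apply card_le_card
    intro y hy
    rw [mem_filter] at hy ⊢
    refine ⟨hy.1, ?_⟩
    by_contra hcon
    rw [not_lt] at hcon
    have h1 := h (mem_Ico.2 ⟨hcon, by omega⟩)
    exact (mem_sdiff.1 h1).2 hy.1
  · exact bi'_mono M hn.1

lemma biUnion_Ib (A A' : ℕ) (M : Finset ℕ) :
    (range (M.card + 1)).biUnion (Ib A A' M) = Ico A A' \ M := by
  ext n
  rw [mem_biUnion]
  unfold Ib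
  constructor
  · rintro ⟨b, _, hb⟩
    exact (mem_filter.1 hb).1
  · intro hn
    refine ⟨bi' M n, ?_, mem_filter.2 ⟨hn, rfl⟩⟩
    rw [mem_range]
    unfold bi'
    exact Nat.lt_succ_of_le (card_le_card (filter_subset _ _))

theorem cond_law {A A' K d l R : ℕ} {p v η : ℝ} (hl : 1 ≤ l) (hR : 1 ≤ R) (hK : K ≤ 2 * d + 1)
    (hd : d ≤ l) (hp0 : 0 < p) (hp1 : p ≤ 1 / 2) (hv0 : 0 < v) (hv1 : v < 1) (hη0 : 0 < η) (hη1 : η ≤ 1)
    (hη : 2 * (R * ((1 - p + p * v ^ 2) ^ l / v ^ d)) ≤ η) (M : Finset ℕ)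
    (hM : ∀ x, ¬ Ico x (x + R) ⊆ Ico A A' \ M) :
    ∃ u : Finset ℕ → ℝ, IsLaw (Ico A A' \ M) K (fun _ => p) u ∧
      ∀ F ⊆ (Ico A A' \ M).powerset, (∀ X ∈ F, ∃ x, Ico x (x + l) ⊆ Ico A A' ∧
        Disjoint (M ∪ X) (Ico x (x + l))) → ∑ X ∈ F, u X ≤ η := by
  classical
  set fam : ℕ → Finset (Finset ℕ) := fun b => ((Ib A A' M b).filter
    (fun x => Ico x (x + l) ⊆ Ib A A' M b)).image (fun x => Ico x (x + l)) with hfam
  have hρ0 : 0 ≤ (1 - p + p * v ^ 2) ^ l / v ^ d := by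
    have : 0 ≤ 1 - p + p * v ^ 2 := by
      have : 0 ≤ p * v ^ 2 := by positivity
      linarith
    positivity
  have hg : ∀ b, ∃ g : Finset ℕ → ℝ, (∀ S ⊆ Ib A A' M b, (∃ J ∈ fam b, Disjoint S J) → g S = 1) ∧
      (∀ S ⊆ Ib A A' M b, ¬ (∃ J ∈ fam b, Disjoint S J) → |g S| ≤ η) ∧
      ∀ q, IsPoly (Ib A A' M b) d q → ∑ S ∈ (Ib A A' M b).powerset,
        pwt (Ib A A' M b) (fun _ => p) S * (g S * q S) = 0 := by
    intro b
    apply exists_g
    · intro S hS
      unfold pwt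
      apply mul_pos
      · exact prod_pos fun _ _ => hp0
      · exact prod_pos fun _ _ => by linarith
    · exact hη0.le
    · intro q hq
      refine l1_many (F := fam b) (l := l) (d := d) (v := v) ?_ ?_ hd hp0 hp1 hv0 hv1 hη1 ?_ _ (fun S h => h) hq
      · intro J hJ
        simp only [hfam, mem_image, mem_filter] at hJ
        obtain ⟨x, hx, rfl⟩ := hJ
        exact hx.2
      · intro J hJ
        simp only [hfam, mem_image, mem_filter] at hJ
        obtain ⟨x, hx, rfl⟩ := hJ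
        rw [Nat.card_Ico]
        omega
      · refine le_trans ?_ hη
        have h1 : ((fam b).card : ℝ) ≤ R := by
          have h2 : (fam b).card ≤ R := card_image_le.trans ((card_le_card (filter_subset _ _)).trans
            (Ib_card hR hM b))
          exact_mod_cast h2
        have := mul_le_mul_of_nonneg_right h1 hρ0
        linarith
  choose g hg1 hg2 hg3 using hg
  have hdis : ∀ b ∈ range (M.card + 1), ∀ b' ∈ range (M.card + 1), b ≠ b' →
      Disjoint (Ib A A' M b) (Ib A A' M b') := by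
    intro b _ b' _ hne
    rw [disjoint_left]
    intro n hn hn'
    unfold Ib at hn hn'
    rw [mem_filter] at hn hn'
    exact hne (hn.2.symm.trans hn'.2)
  have hall : ∀ b, ∀ S ⊆ Ib A A' M b, g b S ≤ 1 ∧ -η ≤ g b S := by
    intro b S hS
    by_cases h : ∃ J ∈ fam b, Disjoint S J
    · rw [hg1 b S hS h]
      constructor <;> linarith
    · have := abs_le.1 (hg2 b S hS h)
      constructor <;> linarith
  obtain ⟨u, hu, huF⟩ := mix_law (B := range (M.card + 1)) (I := Ib A A' M) hdis hp0 (by linarith) hη0 hη1 hK g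
    (fun b _ S hS => (hall b S hS).1) (fun b _ S hS => (hall b S hS).2) (fun b _ q hq => hg3 b q hq)
  rw [biUnion_Ib] at hu huF
  refine ⟨u, hu, fun F hF hFx => huF F hF fun X hX => ?_⟩
  obtain ⟨x, hx, hxd⟩ := hFx X hX
  rw [disjoint_union_left] at hxd
  have h1 : Ico x (x + l) ⊆ Ico A A' \ M := subset_sdiff.2 ⟨hx, hxd.1.symm⟩
  have h2 := Ib_run h1
  have hxx : x ∈ Ico x (x + l) := mem_Ico.2 ⟨le_rfl, by omega⟩
  refine ⟨bi' M x, ?_, ?_⟩
  · rw [mem_range]
    unfold bi'
    exact Nat.lt_succ_of_le (card_le_card (filter_subset _ _))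
  · apply hg1 _ _ inter_subset_right
    refine ⟨Ico x (x + l), ?_, hxd.2.mono_left inter_subset_left⟩
    simp only [hfam, mem_image, mem_filter]
    exact ⟨x, ⟨h2 hxx, h2⟩, rfl⟩

open Classical in
theorem scale_law {A A' K d l R : ℕ} {p v η mm : ℝ} {q : ℕ → ℝ} (hl : 1 ≤ l) (hR : 1 ≤ R)
    (hK : K ≤ 2 * d + 1) (hd : d ≤ l) (hp0 : 0 < p) (hp1 : p ≤ 1 / 2) (hv0 : 0 < v) (hv1 : v < 1)
    (hη0 : 0 < η) (hη1 : η ≤ 1) (hη : 2 * (R * ((1 - p + p * v ^ 2) ^ l / v ^ d)) ≤ η)
    (hmm0 : 0 ≤ mm) (hmm1 : mm ≤ 1) (hq1 : ∀ n ∈ Ico A A', q n ≤ 1)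
    (hqm : ∀ n ∈ Ico A A', p + mm ≤ q n) :
    ∃ w : Finset ℕ → ℝ, IsLaw (Ico A A') K q w ∧
      ∑ S ∈ (Ico A A').powerset.filter (fun S => ∃ x, Ico x (x + l) ⊆ Ico A A' ∧
        Disjoint S (Ico x (x + l))), w S ≤ η + (A' - A : ℕ) * (1 - mm) ^ R := by
  set D : Finset ℕ := Ico A A' with hD
  set m : ℕ → ℝ := fun n => (q n - p) / (1 - p) with hm
  have hp2 : 0 < 1 - p := by linarith
  have hm1 : ∀ n ∈ D, m n ≤ 1 := fun n hn => by
    simp only [hm]
    rw [div_le_one hp2]
    linarith [hq1 n hn]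
  have hmge : ∀ n ∈ D, mm ≤ m n := fun n hn => by
    simp only [hm]
    rw [le_div_iff₀ hp2]
    have := hqm n hn
    nlinarith
  have hm0 : ∀ n ∈ D, 0 ≤ m n := fun n hn => hmm0.trans (hmge n hn)
  have hqe : ∀ n, m n + (1 - m n) * p = q n := fun n => by
    simp only [hm]
    field_simp
    ring
  have hex : ∀ M : Finset ℕ, ∃ u : Finset ℕ → ℝ, IsLaw (D \ M) K (fun _ => p) u ∧
      ((∀ x, ¬ Ico x (x + R) ⊆ D \ M) → ∀ F ⊆ (D \ M).powerset, (∀ X ∈ F, ∃ x, Ico x (x + l) ⊆ D ∧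
        Disjoint (M ∪ X) (Ico x (x + l))) → ∑ X ∈ F, u X ≤ η) := by
    intro M
    by_cases h : ∀ x, ¬ Ico x (x + R) ⊆ D \ M
    · obtain ⟨u, hu, huF⟩ := cond_law (A := A) (A' := A') hl hR hK hd hp0 hp1 hv0 hv1 hη0 hη1 hη M h
      exact ⟨u, hu, fun _ => huF⟩
    · exact ⟨_, pwt_law (fun _ _ => hp0.le) (fun _ _ => by linarith) K, fun h' => absurd h' h⟩
  choose u hu huF using hex
  have hlaw := mw_law hm0 hm1 (fun M _ => hu M)
  have hlaw' : IsLaw D K q (mw D m u) := by
    have e : (fun n => m n + (1 - m n) * p) = q := funext hqe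
    rwa [e] at hlaw
  refine ⟨mw D m u, hlaw', ?_⟩
  set Bad : Finset ℕ → Prop := fun S => ∃ x, Ico x (x + l) ⊆ D ∧ Disjoint S (Ico x (x + l)) with hBad
  have h1 : ∑ S ∈ D.powerset.filter Bad, mw D m u S = ∑ S ∈ D.powerset, mw D m u S * (if Bad S then (1:ℝ) else 0) := by
    rw [sum_filter]
    refine sum_congr rfl fun S _ => ?_
    split_ifs <;> ring
  show ∑ S ∈ D.powerset.filter Bad, mw D m u S ≤ _
  rw [h1, mw_sum]
  set Sp : Finset ℕ → Prop := fun M => ∃ x, Ico x (x + R) ⊆ D \ M with hSp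
  have h2 : ∀ M ∈ D.powerset, pwt D m M * ∑ X ∈ (D \ M).powerset, u M X * (if Bad (M ∪ X) then (1:ℝ) else 0) ≤
      pwt D m M * η + (if Sp M then pwt D m M else 0) := by
    intro M hM
    rw [mem_powerset] at hM
    have hpw := pwt_nonneg hm0 hm1 hM
    have h3 : ∑ X ∈ (D \ M).powerset, u M X * (if Bad (M ∪ X) then (1:ℝ) else 0) =
        ∑ X ∈ (D \ M).powerset.filter (fun X => Bad (M ∪ X)), u M X := by
      rw [sum_filter]
      refine sum_congr rfl fun X _ => ?_
      split_ifs <;> ring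
    rw [h3]
    by_cases hs : Sp M
    · rw [if_pos hs]
      have h4 : ∑ X ∈ (D \ M).powerset.filter (fun X => Bad (M ∪ X)), u M X ≤ 1 := by
        refine (sum_le_sum_of_subset_of_nonneg (filter_subset _ _) fun X hX _ =>
          (hu M).1 X (mem_powerset.1 hX)).trans (le_of_eq ?_)
        have h5 := (hu M).2 ∅ (empty_subset _) (by simp)
        rw [filter_Icc', prod_empty] at h5
        simpa using h5
      have h6 := mul_le_mul_of_nonneg_left h4 hpw
      have h7 : 0 ≤ pwt D m M * η := by positivity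
      linarith
    · rw [if_neg hs, add_zero]
      apply mul_le_mul_of_nonneg_left _ hpw
      apply huF M
      · intro x hx
        exact hs ⟨x, hx⟩
      · exact filter_subset _ _
      · intro X hX
        exact (mem_filter.1 hX).2
  refine (sum_le_sum h2).trans ?_
  rw [sum_add_distrib, ← sum_mul, pwt_total, one_mul]
  gcongr
  -- the probability of a long interval without marks
  have h3 : ∑ M ∈ D.powerset, (if Sp M then pwt D m M else 0) ≤
      ∑ x ∈ D, ∑ M ∈ D.powerset, (if Ico x (x + R) ⊆ D \ M then pwt D m M else 0) := by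
    rw [sum_comm]
    refine sum_le_sum fun M hM => ?_
    rw [mem_powerset] at hM
    have hpw := pwt_nonneg hm0 hm1 hM
    have hnn : ∀ x, 0 ≤ (if Ico x (x + R) ⊆ D \ M then pwt D m M else 0) := by
      intro x
      split_ifs
      · exact hpw
      · exact le_rfl
    split_ifs with hs
    · obtain ⟨x, hx⟩ := hs
      have hxD : x ∈ D := (mem_sdiff.1 (hx (mem_Ico.2 ⟨le_rfl, by omega⟩))).1
      refine le_trans ?_ (single_le_sum (f := fun x => if Ico x (x + R) ⊆ D \ M then pwt D m M else 0)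
        (fun x _ => hnn x) hxD)
      show pwt D m M ≤ if Ico x (x + R) ⊆ D \ M then pwt D m M else 0
      rw [if_pos hx]
    · exact sum_nonneg fun x _ => hnn x
  refine h3.trans ?_
  have h4 : ∀ x ∈ D, ∑ M ∈ D.powerset, (if Ico x (x + R) ⊆ D \ M then pwt D m M else 0) ≤ (1 - mm) ^ R := by
    intro x _
    by_cases hx : Ico x (x + R) ⊆ D
    · have h5 : ∑ M ∈ D.powerset, (if Ico x (x + R) ⊆ D \ M then pwt D m M else 0) =
          ∏ n ∈ D, (m n * (if n ∈ Ico x (x + R) then 0 else 1) + (1 - m n) * 1) := by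
        rw [← pwt_sum_prod]
        refine sum_congr rfl fun M hM => ?_
        rw [prod_const_one, mul_one]
        split_ifs with h6
        · have h7 : ∏ n ∈ M, (if n ∈ Ico x (x + R) then (0:ℝ) else 1) = 1 := by
            apply prod_eq_one
            intro n hn
            rw [if_neg]
            intro h8
            exact (mem_sdiff.1 (h6 h8)).2 hn
          rw [h7, mul_one]
        · obtain ⟨n, hn, hnM⟩ := not_subset.1 h6
          have h7 : n ∈ M := by
            by_contra h8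
            exact hnM (mem_sdiff.2 ⟨hx hn, h8⟩)
          have h8 : ∏ n ∈ M, (if n ∈ Ico x (x + R) then (0:ℝ) else 1) = 0 :=
            prod_eq_zero h7 (if_pos hn)
          rw [h8, mul_zero]
      rw [h5, ← prod_sdiff hx]
      have h6 : ∏ n ∈ D \ Ico x (x + R), (m n * (if n ∈ Ico x (x + R) then (0:ℝ) else 1) + (1 - m n) * 1) = 1 := by
        apply prod_eq_one
        intro n hn
        rw [if_neg (mem_sdiff.1 hn).2]
        ring
      rw [h6, one_mul]
      have h7 : ∏ n ∈ Ico x (x + R), (m n * (if n ∈ Ico x (x + R) then (0:ℝ) else 1) + (1 - m n) * 1) ≤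
          ∏ _n ∈ Ico x (x + R), (1 - mm) := by
        apply prod_le_prod
        · intro n hn
          rw [if_pos hn]
          linarith [hm1 n (hx hn)]
        · intro n hn
          rw [if_pos hn]
          linarith [hmge n (hx hn)]
      rw [prod_const, Nat.card_Ico] at h7
      have e : x + R - x = R := by omega
      rwa [e] at h7
    · rw [sum_eq_zero]
      · apply pow_nonneg
        linarith
      · intro M _
        rw [if_neg]
        exact fun h => hx (h.trans sdiff_subset)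
  refine (sum_le_card_nsmul _ _ _ h4).trans (le_of_eq ?_)
  rw [nsmul_eq_mul, hD, Nat.card_Ico]

end Q198.CC
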