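import Pool.Agent.Q198.CC.L5
import Pool.Agent.Q198.CC.C7

/-! # Parameters for the models with small gaps -/

set_option autoImplicit false

namespace Q198.CC

open Finset MeasureTheory Filter Topology Q198.CI

lemma exists_v2 {c lam : ℝ} (hc : 0 ≤ c) (hl : c / 4 < lam) :
    ∃ v : ℝ, 0 < v ∧ v < 1 ∧ c / 2 * Real.log (1 / v) < lam * (1 - v ^ 2) := by
  have hl0 : 0 < lam := by linarith
  rcases hc.eq_or_lt with h0 | h0
  · refine ⟨1 / 2, by norm_num, by norm_num, ?_⟩
    rw [← h0]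
    norm_num
    exact hl0
  · set r : ℝ := c / (4 * lam) with hr
    have hr0 : 0 < r := by positivity
    have hr1 : r < 1 := by
      rw [hr, div_lt_one (by positivity)]
      linarith
    refine ⟨Real.sqrt r, Real.sqrt_pos.2 hr0, ?_, ?_⟩
    · rw [Real.sqrt_lt' one_pos]
      simpa using hr1
    · rw [Real.sq_sqrt hr0.le, one_div, Real.log_inv, Real.log_sqrt hr0.le]
      have h1 : c = 4 * lam * r := by
        rw [hr]
        field_simp
      have h2 : Real.log (1 / r) < 1 / r - 1 := Real.log_lt_sub_one_of_pos (by positivity) (by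
        intro h
        rw [div_eq_one_iff_eq hr0.ne'] at h
        linarith)
      rw [one_div, Real.log_inv] at h2
      have h3 : r * (-Real.log r) < r * (r⁻¹ - 1) := mul_lt_mul_of_pos_left h2 hr0
      have h4 : r * (r⁻¹ - 1) = 1 - r := by
        field_simp
      rw [h4] at h3
      have h5 : lam * (r * (-Real.log r)) < lam * (1 - r) := mul_lt_mul_of_pos_left h3 hl0
      have h6 : c / 2 * -(Real.log r / 2) = lam * (r * -Real.log r) := by
        rw [h1]
        ring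
      rw [h6]
      exact h5

/-- the logarithm of the left end of a scale -/
noncomputable def tt (i : ℕ) : ℝ := (i:ℝ) * Real.log 2

/-- the length of the intervals -/
noncomputable def ll (lam : ℝ) (i : ℕ) : ℕ := ⌊lam * tt i ^ 2⌋₊

/-- the length of the blocks between marks -/
noncomputable def RR (i : ℕ) : ℕ := ⌈2 * tt i * (tt i + 1) * (tt i + 2)⌉₊ + 1

/-- the order of independence in a scale -/
def bk4 (κ : ℕ → ℕ) (i : ℕ) : ℕ := max 4 (bk κ i)

/-- the condition on a scale -/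
def Qd (κ : ℕ → ℕ) (lam : ℝ) (i : ℕ) : Prop :=
  6 ≤ i ∧ 1 ≤ ll lam i ∧ bk4 κ i / 2 ≤ ll lam i ∧ ll lam i + 4 ≤ 2 ^ i ∧
  4 * (tt i + 2) ≤ (ll lam i / 2 : ℕ) ∧
  2 * (Real.exp 2 * 4 * (tt i + 2) / (ll lam i / 2 : ℕ)) ^ 2 ≤ 1 / (i:ℝ) ^ (3 / 2 : ℝ) ∧
  ∃ v : ℝ, 0 < v ∧ v < 1 ∧ 2 * ((RR i : ℝ) * ((1 - 1 / (tt i + 2) + 1 / (tt i + 2) * v ^ 2) ^ ll lam i /
    v ^ (bk4 κ i / 2))) ≤ 1 / (i:ℝ) ^ 2

lemma exp_tt (i : ℕ) : Real.exp (tt i) = 2 ^ i := by
  unfold tt
  rw [mul_comm, Real.exp_mul, Real.exp_log (by norm_num), Real.rpow_natCast]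

lemma tt_bounds {i : ℕ} (hi : 6 ≤ i) : 3 ≤ tt i ∧ (i:ℝ) ≤ 2 * tt i ∧ tt i ≤ i := by
  have hi6 : (6:ℝ) ≤ i := by exact_mod_cast hi
  have hlog2a : (1:ℝ) / 2 ≤ Real.log 2 := by
    have := Real.log_two_gt_d9
    linarith
  have hlog2b : Real.log 2 ≤ 1 := by
    have := Real.log_two_lt_d9
    linarith
  unfold tt
  refine ⟨by nlinarith, by nlinarith, by nlinarith⟩

theorem ev_Qd {κ : ℕ → ℕ} {c lam : ℝ} (hc : 0 ≤ c) (hl : c / 4 < lam)
    (hκ : ∀ ε : ℝ, 0 < ε → ∀ᶠ n : ℕ in atTop, (κ n : ℝ) ≤ (c + ε) * Real.log n) :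
    ∀ᶠ i : ℕ in atTop, Qd κ lam i := by
  obtain ⟨v, hv0, hv1, hv⟩ := exists_v2 hc hl
  have hl0 : 0 < lam := by linarith
  set W : ℝ := Real.log (1 / v) with hW
  have hW0 : 0 < W := Real.log_pos (by rw [lt_div_iff₀ hv0]; linarith)
  set δ : ℝ := lam * (1 - v ^ 2) - c / 2 * W with hδ
  have hδ0 : 0 < δ := by rw [hδ]; linarith
  set ε : ℝ := δ / (2 * (W + 1)) with hε
  have hε0 : 0 < ε := by positivity
  have hεW : ε * W ≤ δ / 2 := by
    rw [hε, div_mul_eq_mul_div, div_le_iff₀ (by positivity)]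
    nlinarith
  set C : ℝ := 2 * lam + 1 + (c + ε) / 2 * W with hC
  have hC0 : 0 < C := by positivity
  have hl2 : 0 < Real.log 2 := Real.log_pos (by norm_num)
  have ht : Tendsto tt atTop atTop := (tendsto_natCast_atTop_atTop).atTop_mul_const hl2
  have e1 := ht.eventually (ev_sq lam (c + ε + 16) (40 + (c + ε)) hl0)
  have e2 : ∀ᶠ t : ℝ in atTop, 112 * t ^ 5 ≤ Real.exp (δ / 4 * t) := by
    have h1 := isLittleO_pow_exp_pos_mul_atTop 5 (show 0 < δ / 4 by positivity)
    have h2 := Asymptotics.isLittleO_iff.1 h1 (show (0:ℝ) < 1 / 112 by norm_num)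
    filter_upwards [h2, eventually_gt_atTop 0] with t ht1 ht2
    rw [Real.norm_of_nonneg (by positivity), Real.norm_of_nonneg (Real.exp_pos _).le] at ht1
    linarith
  have e2' := ht.eventually e2
  have e3 := bk_le (κ := κ) (c := c + ε) (by linarith) (hκ ε hε0)
  have e4 := ht.eventually_ge_atTop (2 * C / δ)
  have e5 : ∀ᶠ t : ℝ in atTop, lam * t ^ 2 + 4 ≤ Real.exp t := by
    have h1 := isLittleO_pow_exp_pos_mul_atTop 2 (show (0:ℝ) < 1 by norm_num)
    have h2 := Asymptotics.isLittleO_iff.1 h1 (show (0:ℝ) < 1 / (lam + 4) by positivity)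
    filter_upwards [h2, eventually_ge_atTop 1] with t ht1 ht2
    rw [Real.norm_of_nonneg (by positivity), Real.norm_of_nonneg (Real.exp_pos _).le, one_mul, div_mul_eq_mul_div,
      one_mul, le_div_iff₀ (by positivity)] at ht1
    nlinarith
  have e5' := ht.eventually e5
  have e6 : ∀ᶠ t : ℝ in atTop, 2 * (Real.exp 2 * 4 * 3 / (lam / 4)) ^ 2 * 4 ≤ t ^ (1 / 2 : ℝ) := by
    exact (tendsto_rpow_atTop (by norm_num)).eventually_ge_atTop _
  have e6' := ht.eventually e6
  have e7 := ht.eventually_ge_atTop (8 / lam)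
  have e8 := ht.eventually_ge_atTop ((4:ℝ) / (c + ε))
  filter_upwards [e1, e2', e3, e4, e5', e6', e7, e8, eventually_ge_atTop 6] with i h1 h2 h3 h4 h5 h6 h7 h8 hi
  obtain ⟨ht3, hit, hti⟩ := tt_bounds hi
  set t : ℝ := tt i with htdef
  have hi0 : (0:ℝ) < i := by linarith
  have hlog2b : Real.log 2 ≤ 1 := by
    have := Real.log_two_lt_d9
    linarith
  have hlt : 8 * t ≤ lam * t ^ 2 := by
    rw [div_le_iff₀ hl0] at h7
    nlinarith
  have hL1 : (ll lam i : ℝ) ≤ lam * t ^ 2 := Nat.floor_le (by positivity)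
  have hL2 : lam * t ^ 2 < ll lam i + 1 := Nat.lt_floor_add_one _
  -- the order
  have hbk : (bk4 κ i : ℝ) ≤ (c + ε) * (t + 1) := by
    unfold bk4
    rw [Nat.cast_max]
    apply max_le
    · rw [div_le_iff₀ (by positivity)] at h8
      push_cast
      nlinarith
    · refine h3.trans (mul_le_mul_of_nonneg_left ?_ (by positivity))
      have e : ((i:ℝ) + 1) * Real.log 2 = t + Real.log 2 := by
        rw [htdef]
        unfold tt
        ring
      rw [e]
      linarith
  set d : ℕ := bk4 κ i / 2 with hd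
  have hd2 : (d:ℝ) ≤ (c + ε) / 2 * (t + 1) := by
    have h9 : d * 2 ≤ bk4 κ i := Nat.div_mul_le_self _ _
    have h10 : (d:ℝ) * 2 ≤ bk4 κ i := by exact_mod_cast h9
    linarith
  have hhalf : lam / 4 * t ^ 2 ≤ ((ll lam i / 2 : ℕ) : ℝ) := by
    have h9 : ll lam i < 2 * (ll lam i / 2) + 2 := by omega
    have h10 : (ll lam i : ℝ) < 2 * ((ll lam i / 2 : ℕ) : ℝ) + 2 := by exact_mod_cast h9
    nlinarith
  refine ⟨hi, ?_, ?_, ?_, ?_, ?_, v, hv0, hv1, ?_⟩
  · have h9 : (1:ℝ) ≤ ll lam i := by nlinarith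
    exact_mod_cast h9
  · have h9 : (d:ℝ) ≤ ll lam i := by nlinarith
    exact_mod_cast h9
  · have h9 : (ll lam i : ℝ) + 4 ≤ 2 ^ i := by
      rw [← exp_tt i]
      linarith
    exact_mod_cast h9
  · nlinarith
  · have h9 : 0 < ((ll lam i / 2 : ℕ) : ℝ) := lt_of_lt_of_le (by positivity) hhalf
    have h10 : Real.exp 2 * 4 * (t + 2) / ((ll lam i / 2 : ℕ) : ℝ) ≤ (Real.exp 2 * 4 * 3 / (lam / 4)) / t := by
      have h11 : Real.exp 2 * 4 * (t + 2) / ((ll lam i / 2 : ℕ) : ℝ) ≤ Real.exp 2 * 4 * (3 * t) / (lam / 4 * t ^ 2) := by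
        apply div_le_div₀ (by positivity) _ (by positivity) hhalf
        apply mul_le_mul_of_nonneg_left _ (by positivity)
        linarith
      refine h11.trans (le_of_eq ?_)
      field_simp
    have h11 : 0 ≤ Real.exp 2 * 4 * (t + 2) / ((ll lam i / 2 : ℕ) : ℝ) := by positivity
    have h12 := pow_le_pow_left₀ h11 h10 2
    have h13 : (i:ℝ) ^ (3 / 2 : ℝ) ≤ 4 * t ^ (3 / 2 : ℝ) := by
      calc (i:ℝ) ^ (3 / 2 : ℝ) ≤ (2 * t) ^ (3 / 2 : ℝ) := Real.rpow_le_rpow hi0.le hit (by norm_num)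
        _ = 2 ^ (3 / 2 : ℝ) * t ^ (3 / 2 : ℝ) := Real.mul_rpow (by norm_num) (by positivity)
        _ ≤ 4 * t ^ (3 / 2 : ℝ) := by
            apply mul_le_mul_of_nonneg_right _ (by positivity)
            calc (2:ℝ) ^ (3 / 2 : ℝ) ≤ 2 ^ (2:ℝ) := Real.rpow_le_rpow_of_exponent_le (by norm_num) (by norm_num)
              _ = 4 := by norm_num
    rw [le_div_iff₀ (by positivity)]
    calc 2 * (Real.exp 2 * 4 * (t + 2) / ((ll lam i / 2 : ℕ) : ℝ)) ^ 2 * (i:ℝ) ^ (3 / 2 : ℝ) ≤
          2 * ((Real.exp 2 * 4 * 3 / (lam / 4)) / t) ^ 2 * (4 * t ^ (3 / 2 : ℝ)) := by gcongr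
      _ = (2 * (Real.exp 2 * 4 * 3 / (lam / 4)) ^ 2 * 4) * (t ^ (3 / 2 : ℝ) / t ^ 2) := by
          rw [div_pow]
          ring
      _ ≤ t ^ (1 / 2 : ℝ) * (t ^ (3 / 2 : ℝ) / t ^ 2) := by gcongr
      _ = 1 := by
          have e : t ^ (1 / 2 : ℝ) * t ^ (3 / 2 : ℝ) = t ^ 2 := by
            rw [← Real.rpow_add (by linarith)]
            norm_num
          have ht0 : t ^ 2 ≠ 0 := by positivity
          rw [← mul_div_assoc, e, div_self ht0]
  · set p : ℝ := 1 / (t + 2) with hp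
    have hp0 : 0 < p := by positivity
    have hbase0 : 0 ≤ 1 - p + p * v ^ 2 := by
      have : p ≤ 1 := by
        rw [hp, div_le_one (by linarith)]
        linarith
      have : 0 ≤ p * v ^ 2 := by positivity
      linarith
    have hbase : 1 - p + p * v ^ 2 ≤ Real.exp (-(p * (1 - v ^ 2))) := by
      have := Real.add_one_le_exp (-(p * (1 - v ^ 2)))
      linarith
    have hv2 : 0 < 1 - v ^ 2 := by nlinarith
    have hv2' : 1 - v ^ 2 ≤ 1 := by nlinarith
    have hpL : lam * (t - 2) - 1 ≤ p * ll lam i := by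
      rw [hp, div_mul_eq_mul_div, one_mul, le_div_iff₀ (by linarith)]
      nlinarith
    have hvd : v ^ d = Real.exp (-(d * W)) := by
      rw [hW, one_div, Real.log_inv, mul_neg, neg_neg, ← Real.log_pow, Real.exp_log (by positivity)]
    have hρ : (1 - p + p * v ^ 2) ^ ll lam i / v ^ d ≤ Real.exp (-(δ / 4 * t)) := by
      calc (1 - p + p * v ^ 2) ^ ll lam i / v ^ d ≤
            Real.exp (-(p * (1 - v ^ 2))) ^ ll lam i / v ^ d := by gcongr
        _ = Real.exp (-(p * ll lam i * (1 - v ^ 2)) + d * W) := by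
            rw [hvd, ← Real.exp_nat_mul, ← Real.exp_sub]
            congr 1
            ring
        _ ≤ Real.exp (-(δ / 4 * t)) := by
            apply Real.exp_le_exp.2
            have h9 : (lam * (t - 2) - 1) * (1 - v ^ 2) ≤ p * ll lam i * (1 - v ^ 2) :=
              mul_le_mul_of_nonneg_right hpL hv2.le
            have h10 : (d:ℝ) * W ≤ (c + ε) / 2 * (t + 1) * W := mul_le_mul_of_nonneg_right hd2 hW0.le
            have h11 : 2 * C ≤ t * δ := by
              rw [div_le_iff₀ hδ0] at h4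
              exact h4
            have h12 : (2 * lam + 1) * (1 - v ^ 2) ≤ 2 * lam + 1 := mul_le_of_le_one_right (by linarith) hv2'
            have h13 : ε / 2 * W * t ≤ δ / 4 * t := mul_le_mul_of_nonneg_right (by linarith) (by linarith)
            have h14 : lam * (1 - v ^ 2) = δ + c / 2 * W := by rw [hδ]; ring
            have h15 : (lam * (t - 2) - 1) * (1 - v ^ 2) = t * (δ + c / 2 * W) - (2 * lam + 1) * (1 - v ^ 2) := by
              rw [← h14]
              ring
            have h16 : (c + ε) / 2 * (t + 1) * W = c / 2 * W * t + ε / 2 * W * t + (c + ε) / 2 * W := by ring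
            rw [hC] at h11
            linarith
    have hR : (RR i : ℝ) ≤ 2 * t * (t + 1) * (t + 2) + 2 := by
      unfold RR
      push_cast
      have := (Nat.ceil_lt_add_one (show 0 ≤ 2 * tt i * (tt i + 1) * (tt i + 2) by positivity)).le
      linarith
    have hR2 : (RR i : ℝ) ≤ 14 * t ^ 3 := by
      refine hR.trans ?_
      have h9 : t * 1 ≤ t * t := mul_le_mul_of_nonneg_left (by linarith) (by linarith)
      have h10 : (t * t) * 1 ≤ (t * t) * t := mul_le_mul_of_nonneg_left (by linarith) (by positivity)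
      nlinarith
    rw [le_div_iff₀ (by positivity)]
    calc 2 * ((RR i : ℝ) * ((1 - p + p * v ^ 2) ^ ll lam i / v ^ d)) * (i:ℝ) ^ 2 ≤
          2 * ((14 * t ^ 3) * Real.exp (-(δ / 4 * t))) * (2 * t) ^ 2 := by gcongr
      _ = (112 * t ^ 5) * Real.exp (-(δ / 4 * t)) := by ring
      _ ≤ Real.exp (δ / 4 * t) * Real.exp (-(δ / 4 * t)) := by gcongr
      _ = 1 := by rw [← Real.exp_add]; simp

open Classical in
theorem scale_exists {κ : ℕ → ℕ} {lam : ℝ} {i : ℕ} (h : Qd κ lam i) :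
    ∃ w : Finset ℕ → ℝ, IsLaw (Ico (2 ^ i) (2 ^ (i + 1))) (bk4 κ i) cp w ∧
      ∑ S ∈ (Ico (2 ^ i) (2 ^ (i + 1))).powerset.filter (fun S => ∃ x, Ico x (x + ll lam i) ⊆
        Ico (2 ^ i) (2 ^ (i + 1)) ∧ Disjoint S (Ico x (x + ll lam i))), w S ≤ 1 / (i:ℝ) ^ 2 + (1 / 2) ^ i := by
  obtain ⟨hi, hl, hd, _, _, _, v, hv0, hv1, hv⟩ := h
  obtain ⟨ht3, hit, hti⟩ := tt_bounds hi
  set t : ℝ := tt i with htdef
  have hi0 : (1:ℝ) ≤ i := by linarith
  have hlog2b : Real.log 2 ≤ 1 := by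
    have := Real.log_two_lt_d9
    linarith
  have hmm : 1 / (t + 2) + (1 / (t + 1) - 1 / (t + 2)) = 1 / (t + 1) := by ring
  have hmm0 : 0 ≤ 1 / (t + 1) - 1 / (t + 2) := by
    have := one_div_le_one_div_of_le (show 0 < t + 1 by linarith) (show t + 1 ≤ t + 2 by linarith)
    linarith
  have hmm1 : 1 / (t + 1) - 1 / (t + 2) ≤ 1 := by
    have h1 : 1 / (t + 1) ≤ 1 := by
      rw [div_le_one (by linarith)]
      linarith
    have h2 : 0 ≤ 1 / (t + 2) := by positivity
    linarith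
  obtain ⟨w, hw, hwb⟩ := scale_law (A := 2 ^ i) (A' := 2 ^ (i + 1)) (K := bk4 κ i) (d := bk4 κ i / 2)
    (l := ll lam i) (R := RR i) (p := 1 / (t + 2)) (v := v) (η := 1 / (i:ℝ) ^ 2)
    (mm := 1 / (t + 1) - 1 / (t + 2)) (q := cp) hl (by unfold RR; omega) (by omega) hd
    (by positivity) (one_div_le_one_div_of_le (by norm_num) (by linarith)) hv0 hv1 (by positivity)
    (by
      rw [div_le_one (by positivity)]
      exact one_le_pow₀ hi0) hv hmm0 hmm1 (fun n _ => cp_le_one n) (by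
      intro n hn
      rw [hmm]
      rw [mem_Ico] at hn
      have h3 : 3 ≤ n := by
        have h4 : 2 ^ 6 ≤ 2 ^ i := Nat.pow_le_pow_right (by norm_num) hi
        omega
      unfold cp
      rw [if_pos h3]
      apply one_div_le_one_div_of_le
      · have := one_lt_log h3
        linarith
      · have h4 : Real.log n ≤ Real.log ((2:ℝ) ^ (i + 1)) := by
          apply Real.log_le_log
          · have : 0 < n := by omega
            exact_mod_cast this
          · exact_mod_cast hn.2.le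
        rw [Real.log_pow] at h4
        push_cast at h4
        have e : ((i:ℝ) + 1) * Real.log 2 = t + Real.log 2 := by
          rw [htdef]
          unfold tt
          ring
        rw [e] at h4
        linarith)
  refine ⟨w, hw, hwb.trans ?_⟩
  gcongr
  have e1 : 2 ^ (i + 1) - 2 ^ i = 2 ^ i := by
    rw [pow_succ]
    omega
  rw [e1]
  push_cast
  rw [← exp_tt i, ← htdef]
  have h1 : 1 - (1 / (t + 1) - 1 / (t + 2)) ≤ Real.exp (-(1 / ((t + 1) * (t + 2)))) := by
    have h2 := Real.add_one_le_exp (-(1 / ((t + 1) * (t + 2))))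
    have h3 : 1 / (t + 1) - 1 / (t + 2) = 1 / ((t + 1) * (t + 2)) := by
      field_simp
      ring
    rw [h3]
    linarith
  have h2 : (1 - (1 / (t + 1) - 1 / (t + 2))) ^ RR i ≤ Real.exp (-(2 * t)) := by
    refine (pow_le_pow_left₀ (by linarith) h1 _).trans ?_
    rw [← Real.exp_nat_mul]
    apply Real.exp_le_exp.2
    rw [mul_neg, neg_le_neg_iff, mul_one_div, le_div_iff₀ (by positivity)]
    have h3 : 2 * t * (t + 1) * (t + 2) ≤ (RR i : ℝ) := by
      unfold RR
      push_cast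
      have := Nat.le_ceil (2 * tt i * (tt i + 1) * (tt i + 2))
      linarith
    linarith
  calc Real.exp t * (1 - (1 / (t + 1) - 1 / (t + 2))) ^ RR i ≤ Real.exp t * Real.exp (-(2 * t)) := by gcongr
    _ = Real.exp (-t) := by
        rw [← Real.exp_add]
        congr 1
        ring
    _ = (1 / 2) ^ i := by
        rw [Real.exp_neg, htdef, exp_tt, one_div, inv_pow]

end Q198.CC
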