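import Pool.Agent.Q198.CC.L2

/-! # Lower bounds for the probability that a block is empty -/

set_option autoImplicit false

namespace Q198.CC

open Finset MeasureTheory Q198.CI

/-- the sum over small sets -/
noncomputable def DD (I : Finset ℕ) (m : ℕ) (p : ℕ → ℝ) : ℝ :=
  ∑ T ∈ smallSets I m, ∏ n ∈ T, (p n / (1 - p n))

lemma DD_ge {I : Finset ℕ} {p : ℕ → ℝ} (h0 : ∀ n ∈ I, 0 ≤ p n) (h1 : ∀ n ∈ I, p n < 1) (m : ℕ)
    {θ : ℝ} (hθ : 1 ≤ θ) :
    (∏ n ∈ I, (1 - p n)⁻¹) * (1 - Real.exp ((θ - 1) * ∑ n ∈ I, p n) / θ ^ m) ≤ DD I m p := by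
  classical
  set y : ℕ → ℝ := fun n => p n / (1 - p n) with hy
  have hy0 : ∀ n ∈ I, 0 ≤ y n := fun n hn => div_nonneg (h0 n hn) (by linarith [h1 n hn])
  have hW : ∏ n ∈ I, (1 - p n)⁻¹ = ∑ T ∈ I.powerset, ∏ n ∈ T, y n := by
    rw [← prod_add_one]
    refine prod_congr rfl fun n hn => ?_
    have : 1 - p n ≠ 0 := by linarith [h1 n hn]
    simp only [hy]
    field_simp
    ring
  have hsplit : ∑ T ∈ I.powerset, ∏ n ∈ T, y n = DD I m p +
      ∑ T ∈ I.powerset.filter (fun T => ¬ T.card ≤ m), ∏ n ∈ T, y n := by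
    unfold DD smallSets
    exact (sum_filter_add_sum_filter_not _ _ _).symm
  have hθ0 : 0 < θ := by linarith
  have htail : (∑ T ∈ I.powerset.filter (fun T => ¬ T.card ≤ m), ∏ n ∈ T, y n) * θ ^ m ≤
      ∏ n ∈ I, (θ * y n + 1) := by
    rw [prod_add_one, sum_mul]
    refine le_trans (sum_le_sum (g := fun T => ∏ n ∈ T, (θ * y n)) fun T hT => ?_)
      (sum_le_sum_of_subset_of_nonneg (filter_subset _ _) fun T hT _ => ?_)
    · rw [mem_filter, mem_powerset, not_le] at hT
      rw [prod_mul_distrib, prod_const, mul_comm]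
      apply mul_le_mul_of_nonneg_right (pow_le_pow_right₀ hθ hT.2.le)
      exact prod_nonneg fun n hn => hy0 n (hT.1 hn)
    · rw [mem_powerset] at hT
      exact prod_nonneg fun n hn => mul_nonneg hθ0.le (hy0 n (hT hn))
  have hprod : ∏ n ∈ I, (θ * y n + 1) ≤ (∏ n ∈ I, (1 - p n)⁻¹) * Real.exp ((θ - 1) * ∑ n ∈ I, p n) := by
    rw [mul_sum, Real.exp_sum, ← prod_mul_distrib]
    apply prod_le_prod
    · intro n hn
      have := hy0 n hn
      positivity
    · intro n hn
      have h2 : 0 < 1 - p n := by linarith [h1 n hn]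
      have h3 := Real.add_one_le_exp ((θ - 1) * p n)
      have h4 : θ * y n + 1 = (1 - p n)⁻¹ * ((θ - 1) * p n + 1) := by
        simp only [hy]
        field_simp
        ring
      rw [h4]
      exact mul_le_mul_of_nonneg_left h3 (by positivity)
  have h3 : (∑ T ∈ I.powerset.filter (fun T => ¬ T.card ≤ m), ∏ n ∈ T, y n) ≤
      (∏ n ∈ I, (1 - p n)⁻¹) * (Real.exp ((θ - 1) * ∑ n ∈ I, p n) / θ ^ m) := by
    rw [mul_div_assoc', le_div_iff₀ (by positivity)]
    exact htail.trans hprod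
  rw [mul_sub, mul_one, hW]
  rw [hW] at h3
  linarith

lemma DD_ge_one {I : Finset ℕ} {p : ℕ → ℝ} (h0 : ∀ n ∈ I, 0 ≤ p n) (h1 : ∀ n ∈ I, p n < 1) (m : ℕ) :
    1 ≤ DD I m p := by
  classical
  have h1' : (∅ : Finset ℕ) ∈ smallSets I m := mem_smallSets.2 ⟨empty_subset _, by simp⟩
  unfold DD
  refine le_trans ?_ (single_le_sum (f := fun T => ∏ n ∈ T, (p n / (1 - p n))) (fun T hT => ?_) h1')
  · simp
  · rw [mem_smallSets] at hT
    exact prod_nonneg fun n hn => div_nonneg (h0 n (hT.1 hn)) (by linarith [h1 n (hT.1 hn)])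

/-- the reproducing kernel at the empty set -/
noncomputable def kf (I : Finset ℕ) (m : ℕ) (p : ℕ → ℝ) (S : Finset ℕ) : ℝ :=
  ∑ T ∈ smallSets I m, ∏ n ∈ T, (p n / (1 - p n) + (-(1 + p n / (1 - p n))) * (if n ∈ S then 1 else 0))

lemma kf_empty (I : Finset ℕ) (m : ℕ) (p : ℕ → ℝ) : kf I m p ∅ = DD I m p := by
  unfold kf DD
  refine sum_congr rfl fun T _ => prod_congr rfl fun n _ => ?_
  simp

lemma kf_poly (I : Finset ℕ) (m : ℕ) (p : ℕ → ℝ) : IsPoly I m (kf I m p) := by
  unfold kf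
  refine IsPoly.sum _ fun T hT => ?_
  rw [mem_smallSets] at hT
  exact (IsPoly.affine hT.1 (fun n => p n / (1 - p n)) (fun n => -(1 + p n / (1 - p n)))).mono hT.2

lemma kf_norm {I : Finset ℕ} {m : ℕ} {p : ℕ → ℝ} {v : Finset ℕ → ℝ} (hv : IsLaw I (2 * m) p v)
    (hp1 : ∀ n ∈ I, p n < 1) : ∑ S ∈ I.powerset, v S * kf I m p S ^ 2 = DD I m p := by
  classical
  set y : ℕ → ℝ := fun n => p n / (1 - p n) with hy
  set h : ℕ → Finset ℕ → ℝ := fun n S => y n + (-(1 + y n)) * (if n ∈ S then 1 else 0) with hh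
  have hkf : ∀ S, kf I m p S = ∑ T ∈ smallSets I m, ∏ n ∈ T, h n S := fun S => rfl
  have h1 : ∀ S ∈ I.powerset, v S * kf I m p S ^ 2 = ∑ T ∈ smallSets I m, ∑ T' ∈ smallSets I m,
      v S * ((∏ n ∈ T, h n S) * ∏ n ∈ T', h n S) := by
    intro S _
    rw [sq, hkf, sum_mul_sum, mul_sum]
    refine sum_congr rfl fun T _ => ?_
    rw [mul_sum]
  rw [sum_congr rfl h1, sum_comm]
  unfold DD
  refine sum_congr rfl fun T hT => ?_
  rw [sum_comm]
  have h2 : ∀ T' ∈ smallSets I m, ∑ S ∈ I.powerset, v S * ((∏ n ∈ T, h n S) * ∏ n ∈ T', h n S) =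
      if T = T' then ∏ n ∈ T, y n else 0 := by
    intro T' hT'
    rw [mem_smallSets] at hT hT'
    have hUI : T ∪ T' ⊆ I := union_subset hT.1 hT'.1
    have hUc : (T ∪ T').card ≤ 2 * m := (card_union_le _ _).trans (by omega)
    set α : ℕ → ℝ := fun n => if n ∈ T ∩ T' then y n ^ 2 else y n with hα
    set β : ℕ → ℝ := fun n => if n ∈ T ∩ T' then 1 - y n ^ 2 else -(1 + y n) with hβ
    have h3 : ∀ S : Finset ℕ, (∏ n ∈ T, h n S) * ∏ n ∈ T', h n S =
        ∏ n ∈ T ∪ T', (α n + β n * (if n ∈ S then 1 else 0)) := by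
      intro S
      rw [← prod_union_inter]
      have h4 : ∏ n ∈ T ∩ T', h n S = ∏ n ∈ T ∪ T', (if n ∈ T ∩ T' then h n S else 1) := by
        rw [← prod_filter]
        congr 1
        ext n
        simp only [mem_filter, mem_inter, mem_union]
        tauto
      rw [h4, ← prod_mul_distrib]
      refine prod_congr rfl fun n _ => ?_
      simp only [hh, hα, hβ]
      split_ifs <;> ring
    simp_rw [h3]
    rw [law_affine hv hUI hUc]
    have h5 : ∀ n ∈ T ∪ T', α n + β n * p n = if n ∈ T ∩ T' then y n else 0 := by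
      intro n hn
      have hn1 : 1 - p n ≠ 0 := by linarith [hp1 n (hUI hn)]
      simp only [hα, hβ, hy]
      split_ifs
      · field_simp
        ring
      · field_simp
        ring
    rw [prod_congr rfl h5]
    split_ifs with h6
    · subst h6
      rw [union_self, inter_self]
      exact prod_congr rfl fun n hn => if_pos hn
    · have h7 : ∃ n ∈ T ∪ T', n ∉ T ∩ T' := by
        by_contra hcon
        push Not at hcon
        apply h6
        ext n
        constructor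
        · intro hn
          exact (mem_inter.1 (hcon n (mem_union_left _ hn))).2
        · intro hn
          exact (mem_inter.1 (hcon n (mem_union_right _ hn))).1
      obtain ⟨n, hn, hn'⟩ := h7
      exact prod_eq_zero hn (if_neg hn')
  rw [sum_congr rfl h2, sum_ite_eq, if_pos hT]

lemma card_poly (I : Finset ℕ) : IsPoly I 1 (fun S => 1 - (S.card : ℝ)) := by
  classical
  have h1 : IsPoly I 1 (fun S => 1 + ∑ n ∈ I, (-1) * (if ({n} : Finset ℕ) ⊆ S then 1 else 0)) := by
    refine (IsPoly.const I 1 1).add (IsPoly.sum _ fun n hn => ?_)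
    exact IsPoly.single (singleton_subset_iff.2 hn) (by simp) _
  refine h1.congr fun S hS => ?_
  rw [← mul_sum]
  simp only [singleton_subset_iff, sum_ite_mem, inter_eq_right.2 hS, sum_const, nsmul_eq_mul, mul_one]
  ring

theorem law_lower {I : Finset ℕ} {m : ℕ} {p : ℕ → ℝ} {v : Finset ℕ → ℝ} (hv : IsLaw I (2 * m + 1) p v)
    (hp0 : ∀ n ∈ I, 0 ≤ p n) (hp1 : ∀ n ∈ I, p n < 1) {τ θ : ℝ} (hθ : 1 ≤ θ)
    (hτ : Real.exp ((θ - 1) * ∑ n ∈ I, p n) / θ ^ m ≤ τ) (hτ2 : τ ≤ 1 / 2) :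
    (∏ n ∈ I, (1 - p n)) * (1 - 2 * I.card * τ) ≤ v ∅ := by
  classical
  set D : ℝ := DD I m p with hD
  have hD1 : 1 ≤ D := DD_ge_one hp0 hp1 m
  have hπ0 : ∀ S ⊆ I, 0 ≤ pwt I p S := fun S hS => pwt_nonneg hp0 (fun n hn => (hp1 n hn).le) hS
  have hπlaw : IsLaw I (2 * m + 1) p (pwt I p) := pwt_law hp0 (fun n hn => (hp1 n hn).le) _
  have hπlaw2 : IsLaw I (2 * m) p (pwt I p) := pwt_law hp0 (fun n hn => (hp1 n hn).le) _
  have hπe : pwt I p ∅ = ∏ n ∈ I, (1 - p n) := by
    unfold pwt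
    simp
  set π : ℝ := ∏ n ∈ I, (1 - p n) with hπ
  have hπpos : 0 < π := prod_pos fun n hn => by linarith [hp1 n hn]
  have hnorm := kf_norm hπlaw2 hp1
  have hpoly : IsPoly I (2 * m + 1) (fun S => (1 - (S.card : ℝ)) * kf I m p S ^ 2) := by
    have h1 := (card_poly I).mul ((kf_poly I m p).mul (kf_poly I m p))
    refine (h1.mono (by omega)).congr fun S _ => ?_
    ring
  have h1 := law_poly hv hπlaw hpoly
  have h2 : ∑ S ∈ I.powerset, v S * ((1 - (S.card : ℝ)) * kf I m p S ^ 2) ≤ v ∅ * D ^ 2 := by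
    have h3 : v ∅ * D ^ 2 = ∑ S ∈ I.powerset, (if S = ∅ then v S * kf I m p S ^ 2 else 0) := by
      rw [sum_ite_eq' I.powerset ∅, if_pos (empty_mem_powerset I), kf_empty]
    rw [h3]
    refine sum_le_sum fun S hS => ?_
    have h4 := hv.1 S (mem_powerset.1 hS)
    split_ifs with h5
    · rw [h5]
      simp
    · have h6 : (1:ℝ) ≤ S.card := by
        have : 1 ≤ S.card := card_pos.2 (nonempty_iff_ne_empty.2 h5)
        exact_mod_cast this
      have h7 : (1 - (S.card : ℝ)) * kf I m p S ^ 2 ≤ 0 :=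
        mul_nonpos_of_nonpos_of_nonneg (by linarith) (sq_nonneg _)
      exact mul_nonpos_of_nonneg_of_nonpos h4 h7
  have h3 : π * D ^ 2 - I.card * (D - π * D ^ 2) ≤
      ∑ S ∈ I.powerset, pwt I p S * ((1 - (S.card : ℝ)) * kf I m p S ^ 2) := by
    have h4 : π * D ^ 2 = ∑ S ∈ I.powerset, (if S = ∅ then pwt I p S * kf I m p S ^ 2 else 0) := by
      rw [sum_ite_eq' I.powerset ∅, if_pos (empty_mem_powerset I), kf_empty, hπe]
    have h45 : D - ∑ S ∈ I.powerset, (if S = ∅ then pwt I p S * kf I m p S ^ 2 else 0) =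
        ∑ S ∈ I.powerset, (pwt I p S * kf I m p S ^ 2 - (if S = ∅ then pwt I p S * kf I m p S ^ 2 else 0)) := by
      rw [sum_sub_distrib, hnorm]
    rw [h4, h45, mul_sum, ← sum_sub_distrib]
    refine sum_le_sum fun S hS => ?_
    have h5 := hπ0 S (mem_powerset.1 hS)
    split_ifs with h6
    · rw [h6]
      simp
    · have h7 : (S.card : ℝ) ≤ I.card := by
        have := card_le_card (mem_powerset.1 hS)
        exact_mod_cast this
      have h8 : 0 ≤ pwt I p S * kf I m p S ^ 2 := mul_nonneg h5 (sq_nonneg _)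
      nlinarith
  have h4 : π * D ^ 2 - I.card * (D - π * D ^ 2) ≤ v ∅ * D ^ 2 := by
    rw [h1] at h2
    exact h3.trans h2
  -- the estimate of D
  have h5 := DD_ge hp0 hp1 m hθ
  have h6 : ∏ n ∈ I, (1 - p n)⁻¹ = π⁻¹ := by
    rw [hπ, prod_inv_distrib]
  rw [h6, ← hD] at h5
  have h7 : 1 - τ ≤ π * D := by
    have h8 : π⁻¹ * (1 - τ) ≤ D := by
      refine le_trans ?_ h5
      apply mul_le_mul_of_nonneg_left _ (by positivity)
      linarith
    have h9 := mul_le_mul_of_nonneg_left h8 hπpos.le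
    rwa [← mul_assoc, mul_inv_cancel₀ hπpos.ne', one_mul] at h9
  have hI0 : (0:ℝ) ≤ I.card := Nat.cast_nonneg _
  have h8 : D * (v ∅ * D) ≥ D * (π * D - I.card * (1 - π * D)) := by nlinarith
  have h9 : π * D - I.card * (1 - π * D) ≤ v ∅ * D := le_of_mul_le_mul_left h8 (by linarith)
  have h10 : D * (π * (1 - 2 * I.card * τ)) ≤ D * v ∅ := by
    have h11 : I.card * (1 - π * D) ≤ I.card * τ := mul_le_mul_of_nonneg_left (by linarith) hI0
    have h12 : I.card * τ * 1 ≤ I.card * τ * (2 * (π * D)) := by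
      apply mul_le_mul_of_nonneg_left (by linarith)
      have : 0 ≤ τ := le_trans (by positivity) hτ
      positivity
    linarith
  exact le_of_mul_le_mul_left h10 (by linarith)

theorem meas_law {Ω : Type*} [MeasurableSpace Ω] (P : Measure Ω) [IsProbabilityMeasure P]
    {E : ℕ → Set Ω} (hE : ∀ n, MeasurableSet (E n)) {I : Finset ℕ} {K : ℕ}
    {p : ℕ → ℝ} (hp : ∀ n ∈ I, 0 ≤ p n)
    (hT : ∀ T ⊆ I, T.card ≤ K → P (⋂ n ∈ T, E n) = ENNReal.ofReal (∏ n ∈ T, p n)) :
    ∃ v : Finset ℕ → ℝ, IsLaw I K p v ∧ P.real (⋂ n ∈ I, (E n)ᶜ) = v ∅ := by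
  classical
  set D : Finset ℕ → Set Ω := fun S => ⋂ n ∈ I, {ω | ω ∈ E n ↔ n ∈ S} with hD
  have hDm : ∀ S, MeasurableSet (D S) := by
    intro S
    refine Finset.measurableSet_biInter _ fun n _ => ?_
    by_cases h : n ∈ S
    · have : {ω | ω ∈ E n ↔ n ∈ S} = E n := by
        ext ω
        simp [h]
      rw [this]
      exact hE n
    · have : {ω | ω ∈ E n ↔ n ∈ S} = (E n)ᶜ := by
        ext ω
        simp [h]
      rw [this]
      exact (hE n).compl
  have hmemD : ∀ S ω, ω ∈ D S ↔ ∀ n ∈ I, (ω ∈ E n ↔ n ∈ S) := by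
    intro S ω
    simp only [hD, Set.mem_iInter, Set.mem_ofPred_eq]
  have hlaw : IsLaw I K p (fun S => (P (D S)).toReal) := by
    constructor
    · intro S _
      exact ENNReal.toReal_nonneg
    · intro T hTI hTc
      have h1 : (⋂ n ∈ T, E n) = ⋃ S ∈ Icc T I, D S := by
        ext ω
        simp only [Set.mem_iInter, Set.mem_iUnion, hmemD]
        constructor
        · intro h
          refine ⟨I.filter (fun n => ω ∈ E n), ?_, ?_⟩
          · rw [mem_Icc]
            refine ⟨fun n hn => mem_filter.2 ⟨hTI hn, h n hn⟩, filter_subset _ _⟩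
          · intro n hn
            rw [mem_filter]
            exact ⟨fun h2 => ⟨hn, h2⟩, fun h2 => h2.2⟩
        · rintro ⟨S, hS, h⟩ n hn
          rw [mem_Icc] at hS
          exact (h n (hTI hn)).2 (hS.1 hn)
      have h2 : P (⋂ n ∈ T, E n) = ∑ S ∈ Icc T I, P (D S) := by
        rw [h1, measure_biUnion_finset]
        · intro S hS S' hS' hne
          rw [Function.onFun, Set.disjoint_left]
          intro ω h3 h4
          rw [hmemD] at h3 h4
          apply hne
          ext n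
          have hSI := (mem_Icc.1 (mem_coe.1 hS)).2
          have hSI' := (mem_Icc.1 (mem_coe.1 hS')).2
          constructor
          · intro h5
            exact (h4 n (hSI h5)).1 ((h3 n (hSI h5)).2 h5)
          · intro h5
            exact (h3 n (hSI' h5)).1 ((h4 n (hSI' h5)).2 h5)
        · intro S _
          exact hDm S
      rw [← ENNReal.toReal_sum (fun S _ => measure_ne_top P _), ← h2, hT T hTI hTc,
        ENNReal.toReal_ofReal (prod_nonneg fun n hn => hp n (hTI hn))]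
  have h4 : (⋂ n ∈ I, (E n)ᶜ) = D ∅ := by
    ext ω
    simp only [Set.mem_iInter, Set.mem_compl_iff, hmemD, notMem_empty, iff_false]
  exact ⟨_, hlaw, by rw [h4, measureReal_def]⟩

end Q198.CC
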