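import Pool.Agent.Q198.CC.L8
import Pool.Agent.Q198.CC.C7

/-! # Second moments, and empty blocks in every model -/

set_option autoImplicit false

namespace Q198.CC

open Finset MeasureTheory Filter Topology Q198.CI

theorem second_ind {Ω : Type*} [MeasurableSpace Ω] {P : Measure Ω} [IsProbabilityMeasure P] {B : Finset ℕ}
    {A : ℕ → Set Ω} (hA : ∀ j, MeasurableSet (A j)) {q : ℕ → ℝ} (hq : ∀ j ∈ B, 0 < q j) {τ : ℝ}
    (hτ0 : 0 ≤ τ) (hτ : τ ≤ 1 / 2) (h1 : ∀ j ∈ B, q j * (1 - τ) ≤ P.real (A j))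
    (h2 : ∀ i ∈ B, ∀ j ∈ B, i ≠ j → P.real (A i ∩ A j) ≤ q i * q j * (1 + 2 * τ)) (hB : B.Nonempty) :
    P.real (⋂ j ∈ B, (A j)ᶜ) ≤ 2 / (∑ j ∈ B, q j) + 16 * τ := by
  classical
  set s : ℝ := ∑ j ∈ B, q j with hs
  have hs0 : 0 < s := sum_pos hq hB
  set m : ℝ := ∑ j ∈ B, P.real (A j) with hm
  have hms : s * (1 - τ) ≤ m := by
    rw [hs, hm, sum_mul]
    exact sum_le_sum h1
  have hm2 : s / 2 ≤ m := by
    refine le_trans ?_ hms
    nlinarith
  have hm0 : 0 < m := lt_of_lt_of_le (by positivity) hm2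
  set Z : Ω → ℝ := fun ω => ∑ j ∈ B, (A j).indicator (fun _ => (1:ℝ)) ω with hZ
  have hint : ∀ S : Set Ω, MeasurableSet S → Integrable (S.indicator (fun _ => (1:ℝ))) P := fun S hS =>
    (integrable_const (1:ℝ)).indicator hS
  have hintv : ∀ S : Set Ω, MeasurableSet S → ∫ ω, S.indicator (fun _ => (1:ℝ)) ω ∂P = P.real S := by
    intro S hS
    rw [integral_indicator_const _ hS, smul_eq_mul, mul_one]
  have hZint : Integrable Z P := integrable_finsetSum _ fun j _ => hint _ (hA j)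
  have hEZ : ∫ ω, Z ω ∂P = m := by
    simp only [hZ]
    rw [integral_finsetSum _ fun j _ => hint _ (hA j)]
    exact sum_congr rfl fun j _ => hintv _ (hA j)
  have hZ2 : (fun ω => Z ω * Z ω) = fun ω => ∑ i ∈ B, ∑ j ∈ B, (A i ∩ A j).indicator (fun _ => (1:ℝ)) ω := by
    funext ω
    simp only [hZ]
    rw [sum_mul_sum]
    refine sum_congr rfl fun i _ => sum_congr rfl fun j _ => ?_
    by_cases ha : ω ∈ A i
    · by_cases hb : ω ∈ A j
      · have hab : ω ∈ A i ∩ A j := ⟨ha, hb⟩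
        rw [Set.indicator_of_mem ha, Set.indicator_of_mem hb, Set.indicator_of_mem hab, mul_one]
      · have hab : ω ∉ A i ∩ A j := fun h => hb h.2
        rw [Set.indicator_of_notMem hb, Set.indicator_of_notMem hab, mul_zero]
    · have hab : ω ∉ A i ∩ A j := fun h => ha h.1
      rw [Set.indicator_of_notMem ha, Set.indicator_of_notMem hab, zero_mul]
  have hZ2int : Integrable (fun ω => Z ω * Z ω) P := by
    rw [hZ2]
    exact integrable_finsetSum _ fun i _ => integrable_finsetSum _ fun j _ => hint _ ((hA i).inter (hA j))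
  have hEZ2 : ∫ ω, Z ω * Z ω ∂P ≤ m + s ^ 2 * (1 + 2 * τ) := by
    rw [hZ2, integral_finsetSum _ fun i _ => integrable_finsetSum _ fun j _ => hint _ ((hA i).inter (hA j))]
    have h3 : ∀ i ∈ B, ∫ ω, ∑ j ∈ B, (A i ∩ A j).indicator (fun _ => (1:ℝ)) ω ∂P ≤
        P.real (A i) + q i * s * (1 + 2 * τ) := by
      intro i hi
      rw [integral_finsetSum _ fun j _ => hint _ ((hA i).inter (hA j))]
      have h4 : ∀ j ∈ B, ∫ ω, (A i ∩ A j).indicator (fun _ => (1:ℝ)) ω ∂P ≤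
          (if j = i then P.real (A i) else 0) + q i * q j * (1 + 2 * τ) := by
        intro j hj
        rw [hintv _ ((hA i).inter (hA j))]
        by_cases hij : j = i
        · rw [if_pos hij, hij, Set.inter_self]
          have := hq i hi
          have : 0 ≤ q i * q i * (1 + 2 * τ) := by positivity
          linarith
        · rw [if_neg hij, zero_add]
          exact h2 i hi j hj (Ne.symm hij)
      refine (sum_le_sum h4).trans (le_of_eq ?_)
      rw [sum_add_distrib, sum_ite_eq' B i, if_pos hi, ← sum_mul, ← mul_sum]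
    refine (sum_le_sum h3).trans (le_of_eq ?_)
    rw [sum_add_distrib, ← sum_mul, ← sum_mul]
    ring
  have hvarint : Integrable (fun ω => (Z ω - m) ^ 2) P := by
    have h3 : (fun ω => (Z ω - m) ^ 2) = fun ω => Z ω * Z ω - (2 * m) * Z ω + m * m := by
      funext ω
      ring
    rw [h3]
    exact (hZ2int.sub (hZint.const_mul _)).add (integrable_const _)
  have hvar : ∫ ω, (Z ω - m) ^ 2 ∂P ≤ m + s ^ 2 * (1 + 2 * τ) - m ^ 2 := by
    have h3 : ∀ ω, (Z ω - m) ^ 2 = Z ω * Z ω - (2 * m) * Z ω + m * m := fun ω => by ring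
    simp_rw [h3]
    have hi1 : Integrable (fun ω => Z ω * Z ω - (2 * m) * Z ω) P := hZ2int.sub (hZint.const_mul _)
    rw [integral_add hi1 (integrable_const _),
      integral_sub hZ2int (hZint.const_mul _), integral_const_mul, hEZ, integral_const, probReal_univ,
      smul_eq_mul, one_mul]
    linarith
  have hsub : (⋂ j ∈ B, (A j)ᶜ) ⊆ {ω | m ^ 2 ≤ (Z ω - m) ^ 2} := by
    intro ω hω
    simp only [Set.mem_iInter, Set.mem_compl_iff] at hω
    have h3 : Z ω = 0 := by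
      simp only [hZ]
      exact sum_eq_zero fun j hj => Set.indicator_of_notMem (hω j hj) _
    show m ^ 2 ≤ (Z ω - m) ^ 2
    rw [h3]
    nlinarith
  have h3 := mul_meas_ge_le_integral_of_nonneg (μ := P) (Eventually.of_forall fun ω => sq_nonneg (Z ω - m))
    hvarint (m ^ 2)
  have h4 : P.real (⋂ j ∈ B, (A j)ᶜ) * m ^ 2 ≤ m + s ^ 2 * (1 + 2 * τ) - m ^ 2 := by
    have h5 : P.real (⋂ j ∈ B, (A j)ᶜ) ≤ P.real {ω | m ^ 2 ≤ (Z ω - m) ^ 2} := measureReal_mono hsub
    have h6 := mul_le_mul_of_nonneg_left h5 (sq_nonneg m)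
    linarith
  have h5 : m + s ^ 2 * (1 + 2 * τ) - m ^ 2 ≤ (2 / s + 16 * τ) * m ^ 2 := by
    have h6 : m ≤ 2 / s * m ^ 2 := by
      rw [div_mul_eq_mul_div, le_div_iff₀ hs0]
      nlinarith
    have h7 : s ^ 2 * (1 - τ) ^ 2 ≤ m ^ 2 := by
      rw [← mul_pow]
      exact pow_le_pow_left₀ (mul_nonneg hs0.le (by linarith)) hms 2
    have h8 : (1 + 2 * τ) ≤ (1 + 16 * τ) * (1 - τ) ^ 2 := by
      nlinarith [mul_nonneg hτ0 (sub_nonneg.2 hτ), mul_nonneg (mul_nonneg hτ0 hτ0) (sub_nonneg.2 hτ)]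
    have h9 : s ^ 2 * (1 + 2 * τ) ≤ (1 + 16 * τ) * m ^ 2 := by
      calc s ^ 2 * (1 + 2 * τ) ≤ s ^ 2 * ((1 + 16 * τ) * (1 - τ) ^ 2) := by gcongr
        _ = (1 + 16 * τ) * (s ^ 2 * (1 - τ) ^ 2) := by ring
        _ ≤ _ := by gcongr
    linarith
  exact le_of_mul_le_mul_right (h4.trans h5) (by positivity)

/-- the blocks of length `L` inside a dyadic interval -/
def JJ (L i : ℕ) : Finset ℕ := Ico ((2 ^ i + L - 1) / L) (2 ^ (i + 1) / L)

lemma JJ_full {L i j : ℕ} (hL : 0 < L) (hj : j ∈ JJ L i) : 2 ^ i ≤ j * L ∧ (j + 1) * L ≤ 2 ^ (i + 1) := by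
  unfold JJ at hj
  rw [mem_Ico] at hj
  constructor
  · have h1 : (2 ^ i + L - 1) / L * L ≤ j * L := Nat.mul_le_mul_right _ hj.1
    have h2 : 2 ^ i + L - 1 < ((2 ^ i + L - 1) / L + 1) * L := by
      rw [mul_comm]
      exact Nat.lt_mul_div_succ _ hL
    rw [add_mul, one_mul] at h2
    omega
  · have h1 : (j + 1) * L ≤ 2 ^ (i + 1) / L * L := Nat.mul_le_mul_right _ hj.2
    exact h1.trans (Nat.div_mul_le_self _ _)

lemma JJ_card {L i : ℕ} (hL : 0 < L) (h4 : 4 * L ≤ 2 ^ i) : (2:ℝ) ^ i / (2 * L) ≤ (JJ L i).card := by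
  have hL0 : (0:ℝ) < L := by exact_mod_cast hL
  have h1 : 2 ^ (i + 1) < (2 ^ (i + 1) / L + 1) * L := by
    rw [mul_comm]
    exact Nat.lt_mul_div_succ _ hL
  have h2 : (2 ^ i + L - 1) / L * L ≤ 2 ^ i + L - 1 := Nat.div_mul_le_self _ _
  unfold JJ
  set a : ℕ := (2 ^ i + L - 1) / L with ha
  set b : ℕ := 2 ^ (i + 1) / L with hb
  have h1r : (2:ℝ) ^ (i + 1) < ((b:ℝ) + 1) * L := by exact_mod_cast h1
  have h2r : (a:ℝ) * L ≤ 2 ^ i + L := by
    have h3 : a * L ≤ 2 ^ i + L := by omega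
    exact_mod_cast h3
  have h4r : 4 * (L : ℝ) ≤ 2 ^ i := by exact_mod_cast h4
  have h5 : ((b:ℝ) - a) ≤ ((Ico a b).card : ℝ) := by
    rw [Nat.card_Ico]
    rcases le_total a b with h6 | h6
    · rw [Nat.cast_sub h6]
    · rw [Nat.sub_eq_zero_of_le h6]
      have : (b:ℝ) ≤ a := by exact_mod_cast h6
      push_cast
      linarith
  refine le_trans ?_ h5
  rw [div_le_iff₀ (by positivity)]
  rw [pow_succ] at h1r
  nlinarith

lemma one_sub_ge {p : ℝ} (h1 : p < 1) : Real.exp (-(p / (1 - p))) ≤ 1 - p := by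
  have h2 : 0 < 1 - p := by linarith
  rw [← Real.le_log_iff_exp_le h2]
  have h3 := Real.one_sub_inv_le_log_of_pos h2
  have h4 : 1 - (1 - p)⁻¹ = -(p / (1 - p)) := by
    field_simp
    ring
  linarith

end Q198.CC
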